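import Pool.Agent.Helper5.BEC.Defs

/-!
# Project BEC, stage B (both degree bounds at least a constant `D(ε)`): definitions

The rounds are the same as in stage A. The events of the vertex side (failure probability
`exp (- c D1)`) are local and avoided by the local lemma; a few pairs `(v,y)` become bad (we lose
control of their swap candidates).
-/

set_option autoImplicit false

namespace Pool.Agent.Helper5.BEC.B

open Finset Pool.Agent.Helper61.LE Pool.Agent.Helper5.BEC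

variable {n : ℕ}

/-- `Good` without the bound for lost candidates. -/
structure Good0 (A B : Nb n) (D1 D2 δ K0 γ : ℝ) (ph : Prop) (S : St n)
    (ω : Fin n → Option (Fin n)) : Prop where
  supp : ∀ u z, ω u = some z → 0 < S.w u z
  row : ∀ v ∈ S.U, |rowv A B δ S.w ω v - ∑ z, S.w v z| ≤ 2 * δ ^ 2 * K0 ^ 2 + δ ^ 3
  col : ∀ y ∈ S.F, |colv A B δ S.w ω y - ∑ u, S.w u y| ≤
    3 * δ * γ + 10 * K0 ^ 2 * δ ^ 2 + δ ^ 3
  pU : ∀ v, δ * (1 - γ) * #(A.N v ∩ S.U) - δ ^ 3 * D1 ≤ pickers ω (A.N v ∩ S.U)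
  pUn : δ * (1 - γ) * #S.U - δ ^ 3 * n ≤ pickers ω S.U
  pU' : ∀ v, (pickers ω (A.N v) : ℝ) ≤ 2 * δ * D1
  pUn' : (pickers ω univ : ℝ) ≤ 2 * δ * n
  pF : ∀ y, (δ * (1 - γ) - δ ^ 2) * #(B.N y ∩ S.F) - δ ^ 3 * D2 ≤ picked ω (B.N y ∩ S.F)
  pF' : ∀ y, (pickin ω (B.N y) : ℝ) ≤ 2 * δ * D2
  cU : ∀ v, (cancU A B ω (A.N v) : ℝ) ≤ 20 * K0 * δ ^ 2 * D1
  cUn : (cancU A B ω univ : ℝ) ≤ 20 * K0 * δ ^ 2 * n
  cF : ∀ y, (cancF A B ω (B.N y) : ℝ) ≤ 20 * K0 * δ ^ 2 * D2
  nw : ph → ∀ v y, (6 / 10) * δ * n - δ ^ 3 * n ≤ news S ω v y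

open Classical in
/-- Invariants with a set `R` of bad pairs, at most `b n` in every row and in every column. -/
structure InvB (A B : Nb n) (D1 D2 W γ a l p q b : ℝ) (S : St n)
    (R : Finset (Fin n × Fin n)) : Prop where
  inv : Inv A B D1 D2 W γ a l p 0 S
  cnd : ∀ v y, (v, y) ∉ R → q * n ≤ #(cand S v y)
  bR : ∀ v, (#(univ.filter fun y => (v, y) ∈ R) : ℝ) ≤ b * n
  bC : ∀ y, (#(univ.filter fun v => (v, y) ∈ R) : ℝ) ≤ b * n
  ne : S.U.Nonempty

/-- ball of radius 1 -/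
def ball1 (A : Nb n) (v : Fin n) : Finset (Fin n) := insert v (A.N v)

/-- ball of radius 2 -/
def ball2 (A : Nb n) (v : Fin n) : Finset (Fin n) := ball1 A v ∪ (A.N v).biUnion A.N

/-- `u` picks `z` and some smaller neighbour `u'` of `u` picks a neighbour of `z` -/
def cancb (A B : Nb n) (ω : Fin n → Option (Fin n)) (u : Fin n) : Prop :=
  ∃ z, ω u = some z ∧ ∃ u' < u, ∃ z', ω u' = some z' ∧ u' ∈ A.N u ∧ z' ∈ B.N z

/-- `u` picks a position that another vertex picks too -/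
def canca (ω : Fin n → Option (Fin n)) (u : Fin n) : Prop :=
  ∃ z, ω u = some z ∧ ∃ u', u' ≠ u ∧ ω u' = some z

open Classical in
/-- number of vertices of `X` with `cancb` -/
noncomputable def cancUb (A B : Nb n) (ω : Fin n → Option (Fin n)) (X : Finset (Fin n)) : ℕ :=
  #(X.filter fun u => cancb A B ω u)

open Classical in
/-- number of vertices of `X` with `canca` -/
noncomputable def cancUa (ω : Fin n → Option (Fin n)) (X : Finset (Fin n)) : ℕ :=
  #(X.filter fun u => canca ω u)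

open Classical in
/-- candidates of `(v,y)` killed by picks in `N₁(v)` -/
noncomputable def kills1 (A B : Nb n) (S : St n) (ω : Fin n → Option (Fin n)) (v y : Fin n) : ℝ :=
  ∑ u ∈ A.N v, ∑ z, if ω u = some z then
    (#((cand S v y).filter fun x => S.σ x ∈ B.N z) : ℝ) else 0

open Classical in
/-- candidates of `(v,y)` killed by picks of positions in `N₂(y)` -/
noncomputable def kills2 (A B : Nb n) (S : St n) (ω : Fin n → Option (Fin n)) (v y : Fin n) : ℝ :=
  ∑ u, ∑ z ∈ B.N y, if ω u = some z then (#(cand S v y ∩ A.N u) : ℝ) else 0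

/-- `(v,y)` becomes bad -/
def badp (A B : Nb n) (δ ρ : ℝ) (S : St n) (ω : Fin n → Option (Fin n)) (v y : Fin n) : Prop :=
  ¬ kills1 A B S ω v y ≤ δ * ρ * #(cand S v y) + δ ^ 3 / 2 * n

/-- A triple `(u, u', z)` stands for: `u` and `u'` both pick `z`. The triples with `u ∈ N₁(v)`. -/
def tri (A : Nb n) (v : Fin n) : Finset (Fin n × Fin n × Fin n) :=
  univ.filter fun t => t.1 ∈ A.N v ∧ t.2.1 ≠ t.1

/-- the two vertices of a triple -/
def tc (t : Fin n × Fin n × Fin n) : Finset (Fin n) := {t.1, t.2.1}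

/-- the event of a set of triples -/
def At (M : Finset (Fin n × Fin n × Fin n)) (ω : Fin n → Option (Fin n)) : Prop :=
  ∀ t ∈ M, ω t.1 = some t.2.2 ∧ ω t.2.1 = some t.2.2

open Classical in
/-- sets of `m` triples at `v` with pairwise disjoint vertex pairs -/
noncomputable def Fam (A : Nb n) (v : Fin n) (m : ℕ) :
    Finset (Finset (Fin n × Fin n × Fin n)) :=
  ((tri A v).powersetCard m).filter fun M => ∀ t ∈ M, ∀ t' ∈ M, t ≠ t' → Disjoint (tc t) (tc t')

/-- the weight of a triple -/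
def ft (δ : ℝ) (w : Fin n → Fin n → ℝ) (t : Fin n × Fin n × Fin n) : ℝ :=
  δ * w t.1 t.2.2 * (δ * w t.2.1 t.2.2)

section cond

variable {ι Ω : Type*} [Fintype ι] [DecidableEq ι] [Fintype Ω] [DecidableEq Ω]

/-- conditional expectation of `f` given the coordinates in `X` -/
def cond (μ : ι → Ω → ℝ) (X : Finset ι) (f : (ι → Ω) → ℝ) (ω : ι → Ω) : ℝ :=
  EE μ (fun ω' => f (mix X ω ω'))

end cond

end Pool.Agent.Helper5.BEC.B
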