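import Pool.Agent.Helper5.BEC.St.B1
import Pool.Agent.Helper5.BEC.B.Defs
/-! Stage B, piece A: atomic collision events. -/
set_option autoImplicit false
namespace Pool.Agent.Helper5.BEC.B
open Finset Pool.Agent.Helper61.LE Pool.Agent.Helper5.BEC

variable {n : ℕ} {A B : Nb n} {ε D1 D2 D δ K0 W γ a ρ l p q : ℝ} {S : St n}

private theorem dep_At1 (t : Fin n × Fin n × Fin n) :
    Dep (fun ω : Fin n → Option (Fin n) => ω t.1 = some t.2.2 ∧ ω t.2.1 = some t.2.2) (tc t) := by
  intro ω ω' h
  have h1 : ω t.1 = ω' t.1 := h t.1 (by simp [tc])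
  have h2 : ω t.2.1 = ω' t.2.1 := h t.2.1 (by simp [tc])
  simp only [h1, h2]

theorem dep_At (M : Finset (Fin n × Fin n × Fin n)) : Dep (At M) (M.biUnion tc) := by
  classical
  exact Pool.Agent.Helper5.AVD.dep_forall M
    (fun t ω => ω t.1 = some t.2.2 ∧ ω t.2.1 = some t.2.2) tc (fun t _ => dep_At1 t)

private theorem coord_prob (hN : Num n ε D1 D2 δ K0 W γ a ρ) (hI : Inv A B D1 D2 W γ a l p q S)
    (u z : Fin n) : PP (mu δ S.w) (fun ω => ω u = some z) = δ * S.w u z := by
  classical
  have hP := isProb_mu hN hI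
  rw [Pool.Agent.Helper5.AVD.PP_coord hP u (fun o => o = some z)]
  rw [Finset.sum_eq_single (some z)]
  · rw [if_pos rfl]
    rfl
  · intro b _ hb
    rw [if_neg hb]
  · intro h
    exact absurd (Finset.mem_univ _) h

/-- `PP_forall_of_disjoint` (`Pool.Agent.Helper5.AVD.Prob`) and, for one triple, independence of
the picks of the two different vertices (`PP_and_of_disjoint`, `PP_coord`). -/
theorem At_prob (hN : Num n ε D1 D2 δ K0 W γ a ρ) (hI : Inv A B D1 D2 W γ a l p q S)
    (v : Fin n) (m : ℕ) (M : Finset (Fin n × Fin n × Fin n)) (hM : M ∈ Fam A v m) :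
    PP (mu δ S.w) (At M) = ∏ t ∈ M, ft δ S.w t := by
  classical
  have hP := isProb_mu hN hI
  obtain ⟨hM1, hM2⟩ := Finset.mem_filter.1 hM
  obtain ⟨hM3, -⟩ := Finset.mem_powersetCard.1 hM1
  have h1 := Pool.Agent.Helper5.AVD.PP_forall_of_disjoint hP M
    (fun (t : Fin n × Fin n × Fin n) (ω : Fin n → Option (Fin n)) =>
      ω t.1 = some t.2.2 ∧ ω t.2.1 = some t.2.2) tc (fun t _ => dep_At1 t) hM2
  refine Eq.trans h1 (Finset.prod_congr rfl fun t ht => ?_)
  have ht1 : t.2.1 ≠ t.1 := (Finset.mem_filter.1 (hM3 ht)).2.2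
  have hd1 : Dep (fun ω : Fin n → Option (Fin n) => ω t.1 = some t.2.2) {t.1} := by
    intro ω ω' h
    have h1 : ω t.1 = ω' t.1 := h t.1 (by simp)
    simp only [h1]
  have hd2 : Dep (fun ω : Fin n → Option (Fin n) => ω t.2.1 = some t.2.2) {t.2.1} := by
    intro ω ω' h
    have h1 : ω t.2.1 = ω' t.2.1 := h t.2.1 (by simp)
    simp only [h1]
  rw [PP_and_of_disjoint hP hd1 hd2 (by
    rw [Finset.disjoint_singleton]
    exact fun h => ht1 h.symm)]
  rw [coord_prob hN hI, coord_prob hN hI]
  rfl

/-- Extraction: take a set `M` of triples at `v` with pairwise disjoint vertex pairs and `At M ω`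
with the largest number `k ≤ m - 1` of elements. At most `2k` vertices of `N₁(v)` lie in `⋃ tc t`;
the other `u ∈ N₁(v)` with `canca ω u` have all their partners in `⋃ tc t`, so they pick the
position `z` of one of the triples; and two of them picking the same `z` would form a new triple.
So there are at most `k` of these. -/
theorem extract (ω : Fin n → Option (Fin n)) (v : Fin n) (m : ℕ) (hm : 1 ≤ m)
    (hno : ∀ M ∈ Fam A v m, ¬ At M ω) : cancUa ω (A.N v) ≤ 3 * (m - 1) := by
  classical
  -- the family of valid sets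
  set F : Finset (Finset (Fin n × Fin n × Fin n)) := (tri A v).powerset.filter fun M =>
    (∀ t ∈ M, ∀ t' ∈ M, t ≠ t' → Disjoint (tc t) (tc t')) ∧ At M ω with hF
  have hF0 : F.Nonempty := by
    refine ⟨∅, Finset.mem_filter.2 ⟨Finset.empty_mem_powerset _, ?_, ?_⟩⟩
    · intro t ht
      exact absurd ht (Finset.notMem_empty t)
    · intro t ht
      exact absurd ht (Finset.notMem_empty t)
  obtain ⟨M, hMF, hmax⟩ := Finset.exists_max_image F Finset.card hF0
  obtain ⟨hM1, hM2, hM3⟩ := Finset.mem_filter.1 hMF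
  have hM1' := Finset.mem_powerset.1 hM1
  -- the number of elements
  have hk : #M ≤ m - 1 := by
    by_contra hcon
    have hge : m ≤ #M := by omega
    obtain ⟨M', hM'1, hM'2⟩ := Finset.exists_subset_card_eq hge
    refine hno M' (Finset.mem_filter.2 ⟨Finset.mem_powersetCard.2 ⟨hM'1.trans hM1', hM'2⟩, ?_⟩) ?_
    · intro t ht t' ht' hne
      exact hM2 t (hM'1 ht) t' (hM'1 ht') hne
    · intro t ht
      exact hM3 t (hM'1 ht)
  -- no new triple can be added
  have hnew : ∀ u ∈ A.N v, u ∉ M.biUnion tc → ∀ u', u' ≠ u → u' ∉ M.biUnion tc → ∀ z,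
      ω u = some z → ω u' = some z → False := by
    intro u hu huM u' hne hu'M z hz hz'
    have hnotin : (u, u', z) ∉ M := by
      intro h
      exact huM (Finset.mem_biUnion.2 ⟨(u, u', z), h, by simp [tc]⟩)
    have hdis : ∀ t ∈ M, Disjoint (tc (u, u', z)) (tc t) := by
      intro t ht
      rw [Finset.disjoint_left]
      intro x hx hxt
      have hx' : x = u ∨ x = u' := by simpa [tc] using hx
      rcases hx' with rfl | rfl
      · exact huM (Finset.mem_biUnion.2 ⟨t, ht, hxt⟩)
      · exact hu'M (Finset.mem_biUnion.2 ⟨t, ht, hxt⟩)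
    have hmem : insert (u, u', z) M ∈ F := by
      refine Finset.mem_filter.2 ⟨Finset.mem_powerset.2 ?_, ?_, ?_⟩
      · intro t ht
        rcases Finset.mem_insert.1 ht with rfl | ht
        · exact Finset.mem_filter.2 ⟨Finset.mem_univ _, hu, hne⟩
        · exact hM1' ht
      · intro t ht t' ht' hne'
        rcases Finset.mem_insert.1 ht with rfl | ht
        · rcases Finset.mem_insert.1 ht' with rfl | ht'
          · exact absurd rfl hne'
          · exact hdis t' ht'
        · rcases Finset.mem_insert.1 ht' with rfl | ht'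
          · exact (hdis t ht).symm
          · exact hM2 t ht t' ht' hne'
      · intro t ht
        rcases Finset.mem_insert.1 ht with rfl | ht
        · exact ⟨hz, hz'⟩
        · exact hM3 t ht
    have := hmax _ hmem
    rw [Finset.card_insert_of_notMem hnotin] at this
    omega
  -- count
  have hU : #(M.biUnion tc) ≤ 2 * #M := by
    refine Finset.card_biUnion_le.trans ?_
    calc ∑ t ∈ M, #(tc t) ≤ ∑ _t ∈ M, 2 := Finset.sum_le_sum fun t _ => Finset.card_le_two
      _ = 2 * #M := by rw [Finset.sum_const, smul_eq_mul, mul_comm]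
  have hsplit : ((A.N v).filter fun u => canca ω u) ⊆
      M.biUnion tc ∪ ((A.N v).filter fun u => canca ω u ∧ u ∉ M.biUnion tc) := by
    intro u hu
    obtain ⟨h1, h2⟩ := Finset.mem_filter.1 hu
    by_cases h : u ∈ M.biUnion tc
    · exact Finset.mem_union_left _ h
    · exact Finset.mem_union_right _ (Finset.mem_filter.2 ⟨h1, h2, h⟩)
  have hrest : #((A.N v).filter fun u => canca ω u ∧ u ∉ M.biUnion tc) ≤ #M := by
    have h1 : #((A.N v).filter fun u => canca ω u ∧ u ∉ M.biUnion tc) ≤
        #(M.image fun t => some t.2.2) := by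
      refine Finset.card_le_card_of_injOn (fun u => ω u) ?_ ?_
      · intro u hu
        obtain ⟨hu1, ⟨z, hz, u', hne, hz'⟩, hu3⟩ := Finset.mem_filter.1 (Finset.mem_coe.1 hu)
        by_cases hu' : u' ∈ M.biUnion tc
        · obtain ⟨t, ht, hut⟩ := Finset.mem_biUnion.1 hu'
          refine Finset.mem_coe.2 (Finset.mem_image.2 ⟨t, ht, ?_⟩)
          have hcase : u' = t.1 ∨ u' = t.2.1 := by simpa [tc] using hut
          have hAt := hM3 t ht
          show some t.2.2 = ω u
          rcases hcase with h | h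
          · rw [hz, ← hz', h, hAt.1]
          · rw [hz, ← hz', h, hAt.2]
        · exact absurd (hnew u hu1 hu3 u' hne hu' z hz hz') id
      · intro u1 hu1 u2 hu2 heq
        obtain ⟨h11, ⟨z, hz, -⟩, h13⟩ := Finset.mem_filter.1 (Finset.mem_coe.1 hu1)
        obtain ⟨h21, -, h23⟩ := Finset.mem_filter.1 (Finset.mem_coe.1 hu2)
        by_contra hne
        have heq' : ω u1 = ω u2 := heq
        exact hnew u1 h11 h13 u2 (fun h => hne h.symm) h23 z hz (heq' ▸ hz)
    exact h1.trans Finset.card_image_le
  have hfin : cancUa ω (A.N v) ≤ 3 * #M := by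
    have h1 : cancUa ω (A.N v) = #((A.N v).filter fun u => canca ω u) := by
      unfold cancUa
      congr!
    rw [h1]
    refine (Finset.card_le_card hsplit).trans ((Finset.card_union_le _ _).trans ?_)
    omega
  omega

end Pool.Agent.Helper5.BEC.B
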