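import Pool.Agent.Helper5.BEC.St.T1
import Pool.Agent.Helper5.BEC.B.Defs
/-! Stage B, piece C: conditional expectations and conditional tails. -/
set_option autoImplicit false
namespace Pool.Agent.Helper5.BEC.B
open Finset Pool.Agent.Helper61.LE Pool.Agent.Helper5.BEC

variable {ι Ω : Type*} [Fintype ι] [DecidableEq ι] [Fintype Ω] [DecidableEq Ω]
variable {μ : ι → Ω → ℝ}

theorem mix_update_mem {X : Finset ι} {i : ι} (hi : i ∈ X) (ω ω' : ι → Ω) (a : Ω) :
    mix X (Function.update ω i a) ω' = Function.update (mix X ω ω') i a := by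
  funext j
  by_cases hj : j = i
  · subst hj
    simp [mix, hi]
  · by_cases hjX : j ∈ X
    · rw [mix_mem hjX, Function.update_of_ne hj, Function.update_of_ne hj, mix_mem hjX]
    · rw [mix_not_mem hjX, Function.update_of_ne hj, mix_not_mem hjX]

theorem mix_update_not_mem {X : Finset ι} {i : ι} (hi : i ∉ X) (ω ω' : ι → Ω) (a : Ω) :
    mix X (Function.update ω i a) ω' = mix X ω ω' := by
  funext j
  by_cases hjX : j ∈ X
  · have hj : j ≠ i := fun e => hi (e ▸ hjX)
    rw [mix_mem hjX, Function.update_of_ne hj, mix_mem hjX]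
  · rw [mix_not_mem hjX, mix_not_mem hjX]

theorem mix_update_mem' {X : Finset ι} {i : ι} (hi : i ∈ X) (ω ω' : ι → Ω) (a : Ω) :
    mix X ω (Function.update ω' i a) = mix X ω ω' := by
  funext j
  by_cases hjX : j ∈ X
  · rw [mix_mem hjX, mix_mem hjX]
  · have hj : j ≠ i := fun e => hjX (e ▸ hi)
    rw [mix_not_mem hjX, Function.update_of_ne hj, mix_not_mem hjX]

theorem mix_update_not_mem' {X : Finset ι} {i : ι} (hi : i ∉ X) (ω ω' : ι → Ω) (a : Ω) :
    mix X ω (Function.update ω' i a) = Function.update (mix X ω ω') i a := by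
  funext j
  by_cases hj : j = i
  · subst hj
    rw [mix_not_mem hi, Function.update_self, Function.update_self]
  · by_cases hjX : j ∈ X
    · rw [mix_mem hjX, Function.update_of_ne hj, mix_mem hjX]
    · rw [mix_not_mem hjX, Function.update_of_ne hj, Function.update_of_ne hj, mix_not_mem hjX]

theorem abs_EE_le (h : IsProb μ) (f : (ι → Ω) → ℝ) {C : ℝ} (hf : ∀ ω, |f ω| ≤ C) :
    |EE μ f| ≤ C := by
  rw [abs_le]
  constructor
  · have h1 := EE_mono h (f := fun _ => -C) (g := f) fun ω => (abs_le.1 (hf ω)).1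
    rwa [EE_const h] at h1
  · have h1 := EE_mono h (f := f) (g := fun _ => C) fun ω => (abs_le.1 (hf ω)).2
    rwa [EE_const h] at h1

theorem dep_cond (X : Finset ι) (f : (ι → Ω) → ℝ) : Dep (cond μ X f) X := by
  intro ω ω' hω
  unfold cond
  refine EE_congr fun ω'' => ?_
  congr 1
  funext j
  by_cases hj : j ∈ X
  · rw [mix_mem hj, mix_mem hj, hω j hj]
  · rw [mix_not_mem hj, mix_not_mem hj]

/-- `EE_mix` -/
theorem EE_cond (h : IsProb μ) (X : Finset ι) (f : (ι → Ω) → ℝ) :
    EE μ (cond μ X f) = EE μ f :=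
  EE_mix h X f

/-- bounded differences of the conditional expectation: `mix X (update ω i a) ω'` is
`update (mix X ω ω') i a` for `i ∈ X` and `mix X ω ω'` for `i ∉ X`. -/
theorem cond_bdd (h : IsProb μ) (X : Finset ι) (c : ι → Ω → ℝ) (f : (ι → Ω) → ℝ)
    (hf : ∀ i ω a b, |f (Function.update ω i a) - f (Function.update ω i b)| ≤ c i a + c i b)
    (i : ι) (ω : ι → Ω) (a b : Ω) :
    |cond μ X f (Function.update ω i a) - cond μ X f (Function.update ω i b)| ≤
      (if i ∈ X then c i a else 0) + (if i ∈ X then c i b else 0) := by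
  unfold cond
  by_cases hi : i ∈ X
  · rw [if_pos hi, if_pos hi, ← EE_sub]
    refine abs_EE_le h _ fun ω' => ?_
    rw [mix_update_mem hi, mix_update_mem hi]
    exact hf i _ a b
  · rw [if_neg hi, if_neg hi]
    simp only [mix_update_not_mem hi]
    simp

/-- Tail of the deviation from the conditional expectation: `P(|f - g| ≥ t) =
E_ω P_ω' (|f (mix X ω ω') - g ω| ≥ t)` (`EE_mix` for the indicator; `g (mix X ω ω') = g ω` by
`dep_cond`), and for fixed `ω` the function `ω' ↦ f (mix X ω ω')` has expectation `g ω` and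
differences `c i a + c i b` for `i ∉ X`, `0` for `i ∈ X`; apply `tail` with these costs. -/
theorem cond_tail (h : IsProb μ) (X : Finset ι) (c : ι → Ω → ℝ) (f : (ι → Ω) → ℝ) {m L t : ℝ}
    (hc0 : ∀ i a, 0 ≤ c i a) (hm : ∀ i ∉ X, ∀ a, c i a ≤ m) (hm0 : 0 < m)
    (hL : ∑ i, ∑ a, μ i a * (if i ∈ X then 0 else c i a) ≤ L) (hL0 : 0 < L) (ht : 0 ≤ t)
    (htL : t ≤ 4 * L)
    (hf : ∀ i ω a b, |f (Function.update ω i a) - f (Function.update ω i b)| ≤ c i a + c i b) :
    PP μ (fun ω => t ≤ |f ω - cond μ X f ω|) ≤ 2 * Real.exp (-(t ^ 2 / (16 * m * L))) := by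
  have h1 : ∀ ω, EE μ (fun ω' => (fun τ => if t ≤ |f τ - cond μ X f τ| then (1 : ℝ) else 0)
      (mix X ω ω')) ≤ 2 * Real.exp (-(t ^ 2 / (16 * m * L))) := by
    intro ω
    have h2 := tail h (fun i a => if i ∈ X then 0 else c i a) (fun ω' => f (mix X ω ω'))
      (m := m) (L := L) (t := t)
      (fun i a => by
        by_cases hi : i ∈ X
        · rw [if_pos hi]
        · rw [if_neg hi]
          exact hc0 i a)
      (fun i a => by
        by_cases hi : i ∈ X
        · rw [if_pos hi]
          exact hm0.le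
        · rw [if_neg hi]
          exact hm i hi a) hm0 hL hL0 ht htL
      (fun i ω' a b => by
        by_cases hi : i ∈ X
        · rw [if_pos hi, if_pos hi]
          simp only [mix_update_mem' hi]
          simp
        · rw [if_neg hi, if_neg hi]
          simp only [mix_update_not_mem' hi]
          exact hf i _ a b)
    refine le_trans (le_of_eq ?_) h2
    unfold PP
    refine EE_congr fun ω' => ?_
    have h3 : cond μ X f (mix X ω ω') = EE μ (fun ω' => f (mix X ω ω')) := by
      have h4 := dep_cond (μ := μ) X f (mix X ω ω') ω (fun i hi => mix_mem hi)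
      exact h4
    simp only [h3]
  have h5 : PP μ (fun ω => t ≤ |f ω - cond μ X f ω|) =
      EE μ (fun τ => if t ≤ |f τ - cond μ X f τ| then (1 : ℝ) else 0) := by
    unfold PP
    refine EE_congr fun τ => ?_
    by_cases ht' : t ≤ |f τ - cond μ X f τ|
    · simp only [ht', if_true]
    · simp only [ht', if_false]
  rw [h5, ← EE_mix h X]
  refine (EE_mono h h1).trans ?_
  rw [EE_const h]

end Pool.Agent.Helper5.BEC.B
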