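import Pool.Agent.Helper5.BEC.St.D1
import Pool.Agent.Helper5.BEC.B.Defs
/-! Piece D2: deterministic step, rows, columns, counts. -/
set_option autoImplicit false
namespace Pool.Agent.Helper5.BEC.B
open Finset Pool.Agent.Helper5.BEC

variable {n : ℕ} {A B : Nb n} {ε D1 D2 δ K0 W γ a ρ l p q : ℝ} {S : St n}
  {ω : Fin n → Option (Fin n)} {ph : Prop}

private theorem pd2_mem_U {u : Fin n} :
    u ∈ (next A B δ S ω).U ↔ u ∈ S.U ∧ ω u = none := by
  simp [next]

private theorem pd2_mem_F {z : Fin n} :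
    z ∈ (next A B δ S ω).F ↔ z ∈ S.F ∧ ∀ u, ω u ≠ some z := by
  simp [next]

private theorem pd2_mem_P {u : Fin n} :
    u ∈ (next A B δ S ω).P ↔ u ∈ S.P ∨ ((∃ z, ω u = some z) ∧ ¬ canc A B ω u) := by
  simp [next]

/-- row `v ∈ U'` of the new weights is `rowv` -/
theorem next_row_eq (v : Fin n) (hv : v ∈ (next A B δ S ω).U) :
    ∑ z, (next A B δ S ω).w v z = rowv A B δ S.w ω v := by
  classical
  have h0 : ω v = none := (pd2_mem_U.1 hv).2
  unfold rowv
  refine sum_congr rfl fun z _ => ?_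
  show (if ω v = none ∧ (∀ u, ω u ≠ some z) ∧ nok A B ω v z then
    S.w v z * (1 + δ * kap A B S.w v z) else 0) = _
  by_cases h1 : (∀ u, u ≠ v → ω u ≠ some z) ∧ nok A B ω v z
  · rw [if_pos h1, if_pos]
    refine ⟨h0, fun u => ?_, h1.2⟩
    by_cases huv : u = v
    · subst huv
      simp [h0]
    · exact h1.1 u huv
  · rw [if_neg h1, if_neg]
    rintro ⟨_, h2, h3⟩
    exact h1 ⟨fun u _ => h2 u, h3⟩

/-- column `y ∈ F'` of the new weights is `colv` -/
theorem next_col_eq (y : Fin n) (hy : y ∈ (next A B δ S ω).F) :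
    ∑ v, (next A B δ S ω).w v y = colv A B δ S.w ω y := by
  classical
  have h0 : ∀ u, ω u ≠ some y := (pd2_mem_F.1 hy).2
  unfold colv
  refine sum_congr rfl fun v _ => ?_
  show (if ω v = none ∧ (∀ u, ω u ≠ some y) ∧ nok A B ω v y then
    S.w v y * (1 + δ * kap A B S.w v y) else 0) = _
  by_cases h1 : ω v = none ∧ nok A B ω v y
  · rw [if_pos h1, if_pos ⟨h1.1, h0, h1.2⟩]
  · rw [if_neg h1, if_neg]
    rintro ⟨h2, _, h3⟩
    exact h1 ⟨h2, h3⟩

theorem next_rowcol (hN : Num n ε D1 D2 δ K0 W γ a ρ) (hI : Inv A B D1 D2 W γ a l p q S)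
    (hG : Good0 A B D1 D2 δ K0 γ ph S ω) {γ' : ℝ}
    (hγ' : γ + 3 * δ * γ + 10 * K0 ^ 2 * δ ^ 2 + δ ^ 3 ≤ γ') :
    (∀ u ∈ (next A B δ S ω).U, |∑ z, (next A B δ S ω).w u z - 1| ≤ γ') ∧
    (∀ z ∈ (next A B δ S ω).F, |∑ u, (next A B δ S ω).w u z - 1| ≤ γ') := by
  have hδ := hN.δ0
  have hγ := hN.γ0
  have h1 : 0 ≤ 3 * δ * γ := by positivity
  have h2 : 0 ≤ K0 ^ 2 * δ ^ 2 := by positivity
  constructor
  · intro u hu
    rw [next_row_eq u hu]
    have hu' := (pd2_mem_U.1 hu).1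
    have e1 := hG.row u hu'
    have e2 := hI.row u hu'
    rw [abs_le] at *
    constructor <;> nlinarith [e1.1, e1.2, e2.1, e2.2]
  · intro z hz
    rw [next_col_eq z hz]
    have hz' := (pd2_mem_F.1 hz).1
    have e1 := hG.col z hz'
    have e2 := hI.col z hz'
    rw [abs_le] at *
    constructor <;> nlinarith [e1.1, e1.2, e2.1, e2.2]

private theorem pd2_card_U (X : Finset (Fin n)) :
    #(X ∩ (next A B δ S ω).U) + pickers ω (X ∩ S.U) ≤ #(X ∩ S.U) := by
  classical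
  unfold pickers
  rw [← card_union_of_disjoint]
  · refine card_le_card fun u hu => ?_
    rw [mem_union] at hu
    rcases hu with hu | hu
    · rw [mem_inter, pd2_mem_U] at hu
      rw [mem_inter]
      exact ⟨hu.1, hu.2.1⟩
    · exact (mem_filter.1 hu).1
  · rw [Finset.disjoint_left]
    intro u hu hu'
    rw [mem_inter, pd2_mem_U] at hu
    exact (mem_filter.1 hu').2 hu.2.2

private theorem pd2_card_F (Y : Finset (Fin n)) :
    #(Y ∩ (next A B δ S ω).F) + picked ω (Y ∩ S.F) ≤ #(Y ∩ S.F) := by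
  classical
  unfold picked
  rw [← card_union_of_disjoint]
  · refine card_le_card fun u hu => ?_
    rw [mem_union] at hu
    rcases hu with hu | hu
    · rw [mem_inter, pd2_mem_F] at hu
      rw [mem_inter]
      exact ⟨hu.1, hu.2.1⟩
    · exact (mem_filter.1 hu).1
  · rw [Finset.disjoint_left]
    intro z hz hz'
    rw [mem_inter, pd2_mem_F] at hz
    obtain ⟨u, hu⟩ := (mem_filter.1 hz').2
    exact hz.2.2 u hu

private theorem pd2_aux {x y z D d c a a' : ℝ} (h1 : x + y ≤ z) (h2 : c * z - d * D ≤ y)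
    (h3 : z ≤ a * D) (hc : c ≤ 1) (hD : 0 ≤ D) (h4 : (1 - c) * a + d ≤ a') : x ≤ a' * D := by
  have h5 : x ≤ (1 - c) * z + d * D := by linarith
  have h6 : (1 - c) * z ≤ (1 - c) * (a * D) := mul_le_mul_of_nonneg_left h3 (by linarith)
  have h7 : ((1 - c) * a + d) * D ≤ a' * D := mul_le_mul_of_nonneg_right h4 hD
  nlinarith

theorem next_a (hN : Num n ε D1 D2 δ K0 W γ a ρ) (hI : Inv A B D1 D2 W γ a l p q S)
    (hG : Good0 A B D1 D2 δ K0 γ ph S ω) {a' : ℝ}
    (ha' : (1 - δ * (1 - γ) + δ ^ 2) * a + δ ^ 3 ≤ a') :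
    (∀ v, (#(A.N v ∩ (next A B δ S ω).U) : ℝ) ≤ a' * D1) ∧
    (∀ y, (#(B.N y ∩ (next A B δ S ω).F) : ℝ) ≤ a' * D2) ∧
    (#(next A B δ S ω).U : ℝ) ≤ a' * n := by
  classical
  have hδ := hN.δ0
  have hδ1 := hN.δ1
  have hγ := hN.γ0
  have hγ1 := hN.γ1
  have ha0 := hN.a0
  have hD1 := hN.hD1
  have hD2 := hN.hD2
  have hc : δ * (1 - γ) ≤ 1 := by nlinarith
  have hc2 : δ * (1 - γ) - δ ^ 2 ≤ 1 := by nlinarith [sq_nonneg δ]
  have hsq : 0 ≤ δ ^ 2 * a := by positivity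
  refine ⟨fun v => ?_, fun y => ?_, ?_⟩
  · have h1 : (#(A.N v ∩ (next A B δ S ω).U) : ℝ) + (pickers ω (A.N v ∩ S.U) : ℝ) ≤
        (#(A.N v ∩ S.U) : ℝ) := by exact_mod_cast pd2_card_U (A.N v)
    exact pd2_aux (c := δ * (1 - γ)) (d := δ ^ 3) h1 (hG.pU v) (hI.aU v) hc (by linarith)
      (by nlinarith)
  · have h1 : (#(B.N y ∩ (next A B δ S ω).F) : ℝ) + (picked ω (B.N y ∩ S.F) : ℝ) ≤
        (#(B.N y ∩ S.F) : ℝ) := by exact_mod_cast pd2_card_F (B.N y)
    exact pd2_aux (c := δ * (1 - γ) - δ ^ 2) (d := δ ^ 3) h1 (hG.pF y) (hI.aF y) hc2 (by linarith)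
      (by nlinarith)
  · have h0 := pd2_card_U (A := A) (B := B) (δ := δ) (S := S) (ω := ω) univ
    rw [univ_inter, univ_inter] at h0
    have h1 : (#(next A B δ S ω).U : ℝ) + (pickers ω S.U : ℝ) ≤ (#S.U : ℝ) := by
      exact_mod_cast h0
    exact pd2_aux (c := δ * (1 - γ)) (d := δ ^ 3) h1 hG.pUn hI.aN hc (Nat.cast_nonneg n)
      (by nlinarith)

private theorem pd2_left_U (X : Finset (Fin n)) :
    #(X \ ((next A B δ S ω).U ∪ (next A B δ S ω).P)) ≤
      #(X \ (S.U ∪ S.P)) + cancU A B ω X := by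
  classical
  unfold cancU
  refine le_trans (card_le_card ?_) (card_union_le _ _)
  intro u hu
  rw [mem_sdiff, mem_union, pd2_mem_U, pd2_mem_P] at hu
  obtain ⟨huX, hu2⟩ := hu
  push Not at hu2
  obtain ⟨h1, h2, h3⟩ := hu2
  rw [mem_union, mem_sdiff, mem_union, mem_filter]
  by_cases hU : u ∈ S.U
  · right
    obtain ⟨z, hz⟩ := Option.ne_none_iff_exists'.1 (h1 hU)
    exact ⟨huX, h3 ⟨z, hz⟩⟩
  · left
    exact ⟨huX, fun h => h.elim hU h2⟩

private theorem pd2_left_F (hI : Inv A B D1 D2 W γ a l p q S)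
    (hs : ∀ u z, ω u = some z → 0 < S.w u z) (Y : Finset (Fin n)) :
    #(Y \ ((next A B δ S ω).F ∪ (next A B δ S ω).P.image (next A B δ S ω).σ)) ≤
      #(Y \ (S.F ∪ S.P.image S.σ)) + cancF A B ω Y := by
  classical
  -- `z` new: position all of whose pickers are cancelled
  have hsub : Y \ ((next A B δ S ω).F ∪ (next A B δ S ω).P.image (next A B δ S ω).σ) ⊆
      (Y \ (S.F ∪ S.P.image S.σ)) ∪
        (univ.filter fun u => canc A B ω u ∧ ∃ z ∈ Y, ω u = some z).image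
          (fun u => (ω u).getD u) := by
    intro z hz
    rw [mem_sdiff, mem_union] at hz
    obtain ⟨hzY, hz2⟩ := hz
    push Not at hz2
    obtain ⟨h1, h2⟩ := hz2
    rw [mem_union, mem_sdiff, mem_union]
    by_cases hF : z ∈ S.F
    · right
      have h3 : ∃ u, ω u = some z := by
        by_contra h
        push Not at h
        exact h1 (pd2_mem_F.2 ⟨hF, h⟩)
      obtain ⟨u, hu⟩ := h3
      rw [mem_image]
      refine ⟨u, ?_, by rw [hu]; rfl⟩
      rw [mem_filter]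
      refine ⟨mem_univ _, ?_, z, hzY, hu⟩
      by_contra hc
      apply h2
      rw [mem_image]
      refine ⟨u, pd2_mem_P.2 (Or.inr ⟨⟨z, hu⟩, hc⟩), ?_⟩
      show (ω u).getD (S.σ u) = z
      rw [hu]; rfl
    · left
      refine ⟨hzY, fun h => h.elim hF fun h' => ?_⟩
      obtain ⟨u, hu, rfl⟩ := mem_image.1 h'
      apply h2
      rw [mem_image]
      exact ⟨u, pd2_mem_P.2 (Or.inl hu), next_σ_old hI hs hu⟩
  refine le_trans (card_le_card hsub) (le_trans (card_union_le _ _) ?_)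
  refine Nat.add_le_add_left ?_ _
  refine le_trans card_image_le ?_
  unfold cancF
  refine le_of_eq (congrArg Finset.card ?_)
  ext u
  simp only [mem_filter]

/-- new elements of `N₁(v) \ (U ∪ P)` are cancelled vertices; new elements of
`N₂(y) \ (F ∪ σ P)` are positions all of whose pickers are cancelled -/
theorem next_l (hN : Num n ε D1 D2 δ K0 W γ a ρ) (hI : Inv A B D1 D2 W γ a l p q S)
    (hG : Good0 A B D1 D2 δ K0 γ ph S ω) {l' : ℝ} (hl' : l + 20 * K0 * δ ^ 2 ≤ l') :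
    (∀ v, (#(A.N v \ ((next A B δ S ω).U ∪ (next A B δ S ω).P)) : ℝ) ≤ l' * D1) ∧
    (∀ y, (#(B.N y \ ((next A B δ S ω).F ∪ (next A B δ S ω).P.image (next A B δ S ω).σ)) : ℝ)
      ≤ l' * D2) ∧
    (#(univ \ ((next A B δ S ω).U ∪ (next A B δ S ω).P)) : ℝ) ≤ l' * n := by
  classical
  have hD1 := hN.hD1
  have hD2 := hN.hD2
  refine ⟨fun v => ?_, fun y => ?_, ?_⟩
  · have h1 : (#(A.N v \ ((next A B δ S ω).U ∪ (next A B δ S ω).P)) : ℝ) ≤
        (#(A.N v \ (S.U ∪ S.P)) : ℝ) + (cancU A B ω (A.N v) : ℝ) := by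
      exact_mod_cast pd2_left_U (A.N v)
    have h2 := hI.lU v
    have h3 := hG.cU v
    have h4 : (l + 20 * K0 * δ ^ 2) * D1 ≤ l' * D1 :=
      mul_le_mul_of_nonneg_right hl' (by linarith)
    linarith
  · have h1 : (#(B.N y \ ((next A B δ S ω).F ∪
        (next A B δ S ω).P.image (next A B δ S ω).σ)) : ℝ) ≤
        (#(B.N y \ (S.F ∪ S.P.image S.σ)) : ℝ) + (cancF A B ω (B.N y) : ℝ) := by
      exact_mod_cast pd2_left_F hI hG.supp (B.N y)
    have h2 := hI.lF y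
    have h3 := hG.cF y
    have h4 : (l + 20 * K0 * δ ^ 2) * D2 ≤ l' * D2 :=
      mul_le_mul_of_nonneg_right hl' (by linarith)
    linarith
  · have h1 : (#(univ \ ((next A B δ S ω).U ∪ (next A B δ S ω).P)) : ℝ) ≤
        (#(univ \ (S.U ∪ S.P)) : ℝ) + (cancU A B ω univ : ℝ) := by
      exact_mod_cast pd2_left_U univ
    have h2 := hI.lN
    have h3 := hG.cUn
    have h4 : (l + 20 * K0 * δ ^ 2) * (n : ℝ) ≤ l' * n :=
      mul_le_mul_of_nonneg_right hl' (Nat.cast_nonneg n)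
    linarith

end Pool.Agent.Helper5.BEC.B
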