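import Pool.Agent.Helper5.BEC.B.U
/-! Stage B, piece V: a good outcome exists (union with the global events). -/
set_option autoImplicit false
namespace Pool.Agent.Helper5.BEC.B
open Finset Pool.Agent.Helper61.LE Pool.Agent.Helper5.BEC

variable {n : ℕ} {A B : Nb n} {ε D1 D2 D δ K0 W γ a ρ l p q β ζ : ℝ} {S : St n}

open Classical in
/-- the global bad events -/
def Glob (A B : Nb n) (D2 δ K0 γ ρ ζ : ℝ) (ph : Prop) (S : St n)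
    (ω : Fin n → Option (Fin n)) : Prop :=
  (∃ v, ¬ |rowv A B δ S.w ω v - rowloc A B δ S v ω| ≤ δ ^ 3 / 2) ∨
  (∃ y ∈ S.F, ¬ |colv A B δ S.w ω y - ∑ u, S.w u y| ≤
    3 * δ * γ + 10 * K0 ^ 2 * δ ^ 2 + δ ^ 3) ∨
  (¬ δ * (1 - γ) * #S.U - δ ^ 3 * n ≤ pickers ω S.U) ∨
  (¬ (pickers ω univ : ℝ) ≤ 2 * δ * n) ∨
  (∃ y, ¬ (δ * (1 - γ) - δ ^ 2) * #(B.N y ∩ S.F) - δ ^ 3 * D2 ≤ picked ω (B.N y ∩ S.F)) ∨
  (∃ y, ¬ (pickin ω (B.N y) : ℝ) ≤ 2 * δ * D2) ∨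
  (¬ (cancU A B ω univ : ℝ) ≤ 20 * K0 * δ ^ 2 * n) ∨
  (∃ y, ¬ (cancF A B ω (B.N y) : ℝ) ≤ 20 * K0 * δ ^ 2 * D2) ∨
  (∃ v y, ¬ kills2 A B S ω v y ≤ δ * ρ * #(cand S v y) + δ ^ 3 / 2 * n) ∨
  (ph ∧ ∃ v y, ¬ (6 / 10) * δ * n - δ ^ 3 * n ≤ news S ω v y) ∨
  (∃ y, ¬ (#(univ.filter fun v => badp A B δ ρ S ω v y) : ℝ) ≤ ζ * n)

section comb

variable {ι Ω : Type*} [Fintype ι] [DecidableEq ι] [Fintype Ω] [DecidableEq Ω] {μ : ι → Ω → ℝ}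

private theorem V_or (h : IsProb μ) {P Q : (ι → Ω) → Prop} {x y : ℝ}
    (hP : PP μ (fun ω => P ω) ≤ x) (hQ : PP μ (fun ω => Q ω) ≤ y) :
    PP μ (fun ω => P ω ∨ Q ω) ≤ x + y := by
  rw [PP_split (μ := μ) (fun ω => P ω ∨ Q ω) P]
  exact add_le_add ((PP_mono h fun ω hω => hω.2).trans hP)
    ((PP_mono h fun ω hω => hω.1.resolve_left hω.2).trans hQ)

private theorem V_ex (h : IsProb μ) {m : ℕ} {P : Fin m → (ι → Ω) → Prop} {x : ℝ}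
    (hP : ∀ v, PP μ (fun ω => P v ω) ≤ x) :
    PP μ (fun ω => ∃ v, P v ω) ≤ m * x := by
  have h1 : PP μ (fun ω => ∃ v, P v ω) ≤ PP μ (fun ω => ∃ v ∈ (univ : Finset (Fin m)),
      P v ω) := by
    refine PP_mono h fun ω hω => ?_
    obtain ⟨v, hv⟩ := hω
    exact ⟨v, mem_univ v, hv⟩
  have h2 := PP_exists_le h (univ : Finset (Fin m)) P
  have h3 : ∑ v ∈ (univ : Finset (Fin m)), PP μ (P v) ≤
      ∑ v ∈ (univ : Finset (Fin m)), x := Finset.sum_le_sum fun v _ => hP v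
  have h4 : ∑ v ∈ (univ : Finset (Fin m)), x = m * x := by
    rw [Finset.sum_const, Finset.card_univ, Fintype.card_fin, nsmul_eq_mul]
  linarith

private theorem V_and (h : IsProb μ) {c : Prop} {P : (ι → Ω) → Prop} {x : ℝ} (hx : 0 ≤ x)
    (hP : c → PP μ (fun ω => P ω) ≤ x) :
    PP μ (fun ω => c ∧ P ω) ≤ x := by
  by_cases hc : c
  · exact le_trans (PP_mono h fun ω hω => hω.2) (hP hc)
  · have h1 : PP μ (fun ω => c ∧ P ω) = 0 := by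
      classical
      unfold PP EE
      refine Finset.sum_eq_zero fun ω _ => ?_
      have h2 : ¬ (c ∧ P ω) := fun hω => hc hω.1
      simp only [if_neg h2, mul_zero]
    rw [h1]
    exact hx

end comb

/-- `2n e_n + 2n e₂ + 2 e_n + 2 e_n + 2n e₂ + 2n e₂ + 3 e_n + 3n e₂ + 2n² e₂ + 2n² e_n + 2n e₃`,
`e_n = exp (-β n) ≤ e₂ = exp (-β D2)` (`D2 ≤ n`). -/
theorem Glob_prob (hN : Num n ε D1 D2 δ K0 W γ a ρ) (hdg : Deg A B D1 D2)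
    (hI : Inv A B D1 D2 W γ a l p q S) (ph : Prop) (hph : ph → p ≤ 1 / 8)
    (hβ : 0 < β) (hβ1 : β ≤ δ ^ 6 / (4000 * W ^ 2)) (hζ : 0 < ζ) (hζ1 : ζ ≤ 1)
    (H0 : 4 * Real.exp (-(β * D1)) ≤ ζ) :
    PP (mu δ S.w) (Glob A B D2 δ K0 γ ρ ζ ph S) ≤ 30 * (n : ℝ) ^ 2 * Real.exp (-(β * D2)) +
      2 * n * Real.exp (-(ζ ^ 2 * n / (16 * D1 ^ 2))) := by
  classical
  have hp := isProb_mu hN hI
  have hn : (1 : ℝ) ≤ n := by exact_mod_cast hN.n1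
  have hn0 : (0 : ℝ) < n := by linarith
  have hD10 : 0 < D1 := lt_of_lt_of_le one_pos hN.hD1
  have hD20 : 0 < D2 := lt_of_lt_of_le one_pos hN.hD2
  have hδ := hN.δ0
  have hW := hN.W1
  have hD2n : D2 ≤ n := by
    have h1 := D2_le hN
    have h2 := hN.hD1
    nlinarith
  have hβ2 : β ≤ δ ^ 6 / (1000 * W ^ 2) := by
    refine hβ1.trans ?_
    apply div_le_div_of_nonneg_left (by positivity) (by positivity)
    nlinarith [sq_nonneg W]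
  obtain ⟨e, he⟩ : ∃ e : ℝ, e = Real.exp (-(β * D2)) := ⟨_, rfl⟩
  have he0 : 0 < e := by
    rw [he]
    exact Real.exp_pos _
  have m1 : ∀ d : ℝ, D2 ≤ d → Real.exp (-(δ ^ 6 / (1000 * W ^ 2) * d)) ≤ e := by
    intro d hd
    rw [he]
    apply Real.exp_le_exp.2
    have := mul_le_mul hβ2 hd hD20.le (hβ.le.trans hβ2)
    linarith
  have m2 : ∀ d : ℝ, D2 ≤ d → Real.exp (-(δ ^ 6 / (4000 * W ^ 2) * d)) ≤ e := by
    intro d hd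
    rw [he]
    apply Real.exp_le_exp.2
    have := mul_le_mul hβ1 hd hD20.le (hβ.le.trans hβ1)
    linarith
  have hcard : ∀ X : Finset (Fin n), (#X : ℝ) ≤ n := fun X => by
    have h1 : #X ≤ n := by
      have h2 := Finset.card_le_univ X
      rwa [Fintype.card_fin] at h2
    exact_mod_cast h1
  have hBF : ∀ y, (#(B.N y ∩ S.F) : ℝ) ≤ D2 := fun y => by
    have h1 : (#(B.N y ∩ S.F) : ℝ) ≤ #(B.N y) := by
      exact_mod_cast Finset.card_le_card Finset.inter_subset_left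
    exact le_trans h1 (hdg.dB y)
  have e1 : PP (mu δ S.w) (fun ω => ∃ v, ¬ |rowv A B δ S.w ω v - rowloc A B δ S v ω| ≤
      δ ^ 3 / 2) ≤ n * (2 * e) := V_ex hp fun v =>
    (rowglob_tail hN hdg hI v).trans (mul_le_mul_of_nonneg_left (m2 _ hD2n) (by norm_num))
  have e2 : PP (mu δ S.w) (fun ω => ∃ y ∈ S.F, ¬ |colv A B δ S.w ω y - ∑ u, S.w u y| ≤
      3 * δ * γ + 10 * K0 ^ 2 * δ ^ 2 + δ ^ 3) ≤ n * (2 * e) := V_ex hp fun y =>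
    V_and hp (by positivity) fun hy =>
    (col_tail hN hdg hI hD20.le le_rfl y hy).trans
      (mul_le_mul_of_nonneg_left (m1 _ le_rfl) (by norm_num))
  have e3 : PP (mu δ S.w) (fun ω => ¬ δ * (1 - γ) * #S.U - δ ^ 3 * n ≤ pickers ω S.U) ≤
      2 * e :=
    (pickers_lower hN hI S.U hn0 (hcard _) (Finset.Subset.refl _) hn0.le le_rfl).trans
      (mul_le_mul_of_nonneg_left (m1 _ hD2n) (by norm_num))
  have e4 : PP (mu δ S.w) (fun ω => ¬ (pickers ω univ : ℝ) ≤ 2 * δ * n) ≤ 2 * e := by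
    refine (pickers_upper hN hI univ hn0 (hcard _) ?_ hn0.le le_rfl).trans
      (mul_le_mul_of_nonneg_left (m1 _ hD2n) (by norm_num))
    rw [Finset.univ_inter]
    exact hI.aN
  have e5 : PP (mu δ S.w) (fun ω => ∃ y, ¬ (δ * (1 - γ) - δ ^ 2) * #(B.N y ∩ S.F) -
      δ ^ 3 * D2 ≤ picked ω (B.N y ∩ S.F)) ≤ n * (2 * e) := V_ex hp fun y =>
    (picked_lower hN hI (B.N y ∩ S.F) hD20 (hBF y) Finset.inter_subset_right hD20.le
      le_rfl).trans (mul_le_mul_of_nonneg_left (m1 _ le_rfl) (by norm_num))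
  have e6 : PP (mu δ S.w) (fun ω => ∃ y, ¬ (pickin ω (B.N y) : ℝ) ≤ 2 * δ * D2) ≤
      n * (2 * e) := V_ex hp fun y =>
    (pickin_upper hN hI (B.N y) hD20 (hdg.dB y) (hI.aF y) hD20.le le_rfl).trans
      (mul_le_mul_of_nonneg_left (m1 _ le_rfl) (by norm_num))
  have e7 : PP (mu δ S.w) (fun ω => ¬ (cancU A B ω univ : ℝ) ≤ 20 * K0 * δ ^ 2 * n) ≤
      3 * e :=
    (cancUn_tail hN hdg hI).trans (mul_le_mul_of_nonneg_left (m1 _ hD2n) (by norm_num))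
  have e8 : PP (mu δ S.w) (fun ω => ∃ y, ¬ (cancF A B ω (B.N y) : ℝ) ≤
      20 * K0 * δ ^ 2 * D2) ≤ n * (3 * e) := V_ex hp fun y =>
    (cancF_tail hN hdg hI hD20.le le_rfl y).trans
      (mul_le_mul_of_nonneg_left (m1 _ le_rfl) (by norm_num))
  have e9 : PP (mu δ S.w) (fun ω => ∃ v y, ¬ kills2 A B S ω v y ≤
      δ * ρ * #(cand S v y) + δ ^ 3 / 2 * n) ≤ n * (n * (2 * e)) :=
    V_ex hp fun v => V_ex hp fun y =>
    (kills2_tail hN hdg hI hD20.le le_rfl v y).trans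
      (mul_le_mul_of_nonneg_left (m2 _ le_rfl) (by norm_num))
  have e10 : PP (mu δ S.w) (fun ω => ph ∧ ∃ v y, ¬ (6 / 10) * δ * n - δ ^ 3 * n ≤
      news S ω v y) ≤ n * (n * (2 * e)) :=
    V_and hp (by positivity) fun hc => V_ex hp fun v => V_ex hp fun y =>
    (news_tail hN hI (hph hc) hn0.le le_rfl v y).trans
      (mul_le_mul_of_nonneg_left (m1 _ hD2n) (by norm_num))
  have hs : 4 * Real.exp (-(δ ^ 6 / (4000 * W ^ 2) * D1)) ≤ ζ := by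
    refine le_trans (mul_le_mul_of_nonneg_left (Real.exp_le_exp.2 ?_) (by norm_num)) H0
    have := mul_le_mul_of_nonneg_right hβ1 hD10.le
    linarith
  have e11 : PP (mu δ S.w) (fun ω => ∃ y, ¬ (#(univ.filter fun v =>
      badp A B δ ρ S ω v y) : ℝ) ≤ ζ * n) ≤
      n * (2 * Real.exp (-(ζ ^ 2 * n / (16 * D1 ^ 2)))) := V_ex hp fun y => by
    have h := badcol_tail hN hdg hI hζ hζ1 hs y
    convert h
  have key := V_or hp e1 (V_or hp e2 (V_or hp e3 (V_or hp e4 (V_or hp e5 (V_or hp e6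
    (V_or hp e7 (V_or hp e8 (V_or hp e9 (V_or hp e10 e11)))))))))
  have hG : ∀ ω, Glob A B D2 δ K0 γ ρ ζ ph S ω ↔
      ((∃ v, ¬ |rowv A B δ S.w ω v - rowloc A B δ S v ω| ≤ δ ^ 3 / 2) ∨
      (∃ y ∈ S.F, ¬ |colv A B δ S.w ω y - ∑ u, S.w u y| ≤
        3 * δ * γ + 10 * K0 ^ 2 * δ ^ 2 + δ ^ 3) ∨
      (¬ δ * (1 - γ) * #S.U - δ ^ 3 * n ≤ pickers ω S.U) ∨
      (¬ (pickers ω univ : ℝ) ≤ 2 * δ * n) ∨
      (∃ y, ¬ (δ * (1 - γ) - δ ^ 2) * #(B.N y ∩ S.F) - δ ^ 3 * D2 ≤ picked ω (B.N y ∩ S.F)) ∨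
      (∃ y, ¬ (pickin ω (B.N y) : ℝ) ≤ 2 * δ * D2) ∨
      (¬ (cancU A B ω univ : ℝ) ≤ 20 * K0 * δ ^ 2 * n) ∨
      (∃ y, ¬ (cancF A B ω (B.N y) : ℝ) ≤ 20 * K0 * δ ^ 2 * D2) ∨
      (∃ v y, ¬ kills2 A B S ω v y ≤ δ * ρ * #(cand S v y) + δ ^ 3 / 2 * n) ∨
      (ph ∧ ∃ v y, ¬ (6 / 10) * δ * n - δ ^ 3 * n ≤ news S ω v y) ∨
      (∃ y, ¬ (#(univ.filter fun v => badp A B δ ρ S ω v y) : ℝ) ≤ ζ * n)) := by
    intro ω
    unfold Glob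
    rw [iff_iff_eq]
  rw [PP_congr hG]
  refine key.trans ?_
  rw [← he]
  have h1 : (n : ℝ) * e ≤ (n : ℝ) ^ 2 * e := by
    rw [pow_two, mul_assoc]
    have h2 : 0 ≤ (n : ℝ) * e := by positivity
    nlinarith
  have h2 : e ≤ (n : ℝ) * e := by nlinarith
  nlinarith

open Classical in
/-- `P(local part) ≥ exp (-4 n M0) > P(Glob)`; `exists_of_PP_pos`; `row` from `rowloc` and
`|rowv - rowloc| ≤ δ³/2`; `cU` from `cancU_le`; kills from `kills_eq`. -/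
theorem good0_exists (hN : Num n ε D1 D2 δ K0 W γ a ρ) (hdg : Deg A B D1 D2)
    (hI : Inv A B D1 D2 W γ a l p q S) (ph : Prop) (hph : ph → p ≤ 1 / 8)
    (hβ : 0 < β) (hβ1 : β ≤ δ ^ 6 / (4000 * W ^ 2)) (hζ : 0 < ζ) (hζ1 : ζ ≤ 1)
    (H0 : 4 * Real.exp (-(β * D1)) ≤ ζ)
    (H1 : 3 * D1 ^ 2 * ((36 + 6 / ζ) * D1 ^ 3 * Real.exp (-(β * D1))) ≤ 1 / 4)
    (H2 : 30 * (n : ℝ) ^ 2 * Real.exp (-(β * D2)) +
      2 * n * Real.exp (-(ζ ^ 2 * n / (16 * D1 ^ 2))) <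
      Real.exp (-(4 * n * ((36 + 6 / ζ) * D1 ^ 3 * Real.exp (-(β * D1)))))) :
    ∃ ω, Good0 A B D1 D2 δ K0 γ ph S ω ∧
      (∀ v y, ¬ badp A B δ ρ S ω v y →
        kills A B S ω v y ≤ 2 * δ * ρ * #(cand S v y) + δ ^ 3 * n) ∧
      (∀ v, (#(univ.filter fun y => badp A B δ ρ S ω v y) : ℝ) ≤ ζ * n) ∧
      (∀ y, (#(univ.filter fun v => badp A B δ ρ S ω v y) : ℝ) ≤ ζ * n) := by
  have hp := isProb_mu hN hI
  have hl := local_avoid hN hdg hI hβ hβ1 hζ H1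
  have hg := Glob_prob hN hdg hI ph hph hβ hβ1 hζ hζ1 H0
  set P : (Fin n → Option (Fin n)) → Prop := fun ω =>
    (∀ v, ¬ Loc A B D1 δ K0 γ ρ ζ S v ω) ∧
      ∀ v, (cancUa ω (A.N v) : ℝ) ≤ 10 * K0 * δ ^ 2 * D1 with hP
  have h1 : PP (mu δ S.w) P = PP (mu δ S.w) (fun ω => P ω ∧ Glob A B D2 δ K0 γ ρ ζ ph S ω) +
      PP (mu δ S.w) (fun ω => P ω ∧ ¬ Glob A B D2 δ K0 γ ρ ζ ph S ω) := PP_split _ _
  have h2 : PP (mu δ S.w) (fun ω => P ω ∧ Glob A B D2 δ K0 γ ρ ζ ph S ω) ≤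
      PP (mu δ S.w) (Glob A B D2 δ K0 γ ρ ζ ph S) := PP_mono hp fun ω hω => hω.2
  have h3 : 0 < PP (mu δ S.w) (fun ω => P ω ∧ ¬ Glob A B D2 δ K0 γ ρ ζ ph S ω) := by linarith
  obtain ⟨ω, hω, ⟨hloc, hca⟩, hglob⟩ := exists_of_PP_pos h3
  unfold Glob at hglob
  push Not at hglob
  obtain ⟨g1, g2, g3, g4, g5, g6, g7, g8, g9, g10, g11⟩ := hglob
  have hloc' : ∀ v, |rowloc A B δ S v ω - ∑ z, S.w v z| ≤ 2 * δ ^ 2 * K0 ^ 2 + δ ^ 3 / 2 ∧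
      δ * (1 - γ) * #(A.N v ∩ S.U) - δ ^ 3 * D1 ≤ pickers ω (A.N v ∩ S.U) ∧
      (pickers ω (A.N v) : ℝ) ≤ 2 * δ * D1 ∧
      (cancUb A B ω (A.N v) : ℝ) ≤ 10 * K0 * δ ^ 2 * D1 ∧
      (#(univ.filter fun y => badp A B δ ρ S ω v y) : ℝ) ≤ ζ * n := by
    intro v
    have h := hloc v
    unfold Loc at h
    push Not at h
    obtain ⟨l1, l2, l3, l4, l5⟩ := h
    refine ⟨l1, l2, l3, l4, ?_⟩
    convert l5
  refine ⟨ω, ⟨?_, ?_, g2, fun v => (hloc' v).2.1, g3, fun v => (hloc' v).2.2.1, g4, g5, g6,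
    ?_, g7, g8, g10⟩, ?_, fun v => (hloc' v).2.2.2.2, g11⟩
  · intro u z huz
    have h1 := hω u
    rw [huz] at h1
    have h2 : δ * S.w u z ≠ 0 := h1
    have h3 : S.w u z ≠ 0 := fun h => h2 (by rw [h, mul_zero])
    exact lt_of_le_of_ne (hI.w0 u z) (Ne.symm h3)
  · intro v _
    have h1 := (hloc' v).1
    have h2 := g1 v
    have h3 : rowv A B δ S.w ω v - ∑ z, S.w v z =
        (rowv A B δ S.w ω v - rowloc A B δ S v ω) +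
        (rowloc A B δ S v ω - ∑ z, S.w v z) := by ring
    rw [h3]
    refine (abs_add_le _ _).trans ?_
    linarith
  · intro v
    have h1 := hca v
    have h2 := (hloc' v).2.2.2.1
    have h3 := cancU_le (A := A) (B := B) ω (A.N v)
    have h4 : (cancU A B ω (A.N v) : ℝ) ≤ cancUa ω (A.N v) + cancUb A B ω (A.N v) := by
      exact_mod_cast h3
    linarith
  · intro v y hb
    unfold badp at hb
    rw [not_not] at hb
    rw [kills_eq]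
    have h1 := g9 v y
    linarith

end Pool.Agent.Helper5.BEC.B
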