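import Pool.Agent.Helper5.BEC.St.D4
import Pool.Agent.Helper5.BEC.B.D2
import Pool.Agent.Helper5.BEC.B.D3
import Pool.Agent.Helper5.BEC.B.V
/-! Stage B, piece D4: one round; the iteration. -/
set_option autoImplicit false
namespace Pool.Agent.Helper5.BEC.B
open Finset Pool.Agent.Helper61.LE Pool.Agent.Helper5.BEC

variable {n : ℕ} {A B : Nb n} {ε D1 D2 D δ K0 W γ a ρ l p q b β ζ : ℝ} {S : St n}
  {R : Finset (Fin n × Fin n)}

/-- For `u ∈ U` the row sum is `≥ 1 - γ` and the entries are `≤ W/n`, so `F` is not empty; for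
`z ∈ F` the column sum gives `|U| ≥ (1-γ) n / W`. -/
theorem card_U_ge (hN : Num n ε D1 D2 δ K0 W γ a ρ) (hI : Inv A B D1 D2 W γ a l p q S)
    (hne : S.U.Nonempty) : (n : ℝ) / (2 * W) ≤ #S.U := by
  classical
  obtain ⟨u, hu⟩ := hne
  have hn1 : (1 : ℝ) ≤ n := by exact_mod_cast hN.n1
  have hn0 : (0 : ℝ) < n := by linarith
  have hW := hN.W1
  have hγ1 := hN.γ1
  have h1 := (abs_le.1 (hI.row u hu)).1
  have h2 : 0 < ∑ z, S.w u z := by linarith
  obtain ⟨z, hz⟩ : ∃ z, S.w u z ≠ 0 := by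
    by_contra h
    push Not at h
    rw [Finset.sum_eq_zero (fun z _ => h z)] at h2
    exact lt_irrefl _ h2
  have hzF : z ∈ S.F := by
    by_contra h
    exact hz (hI.wF u z h)
  have h3 := (abs_le.1 (hI.col z hzF)).1
  have h4 : ∑ x, S.w x z ≤ #S.U * (W / n) := by
    have e1 : ∑ x, S.w x z = ∑ x ∈ S.U, S.w x z := by
      refine (Finset.sum_subset (Finset.subset_univ _) ?_).symm
      intro x _ hx
      exact hI.wU x z hx
    rw [e1]
    calc ∑ x ∈ S.U, S.w x z ≤ ∑ _x ∈ S.U, W / n := Finset.sum_le_sum fun x _ => hI.wW x z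
      _ = #S.U * (W / n) := by rw [Finset.sum_const, nsmul_eq_mul]
  have h5 : (1 : ℝ) / 2 ≤ #S.U * (W / n) := by linarith
  rw [div_le_iff₀ (by positivity)]
  rw [mul_div_assoc', le_div_iff₀ hn0] at h5
  linarith

/-- one round: `good0_exists`, then `next_struct`, `next_w` (stage A, D1), `next_rowcol`, `next_a`,
`next_l`, `next_p`, `next_q` (stage B, D2, D3), `R' = R ∪ {(v,y) : badp}`; the new `U` has at least
`n/(2W) - 2 δ n ≥ n/(4W)` elements because of `card_U_ge`, `pUn'` and `8 δ W ≤ 1`. -/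
theorem round (hN : Num n ε D1 D2 δ K0 W γ a ρ) (hdg : Deg A B D1 D2)
    (hI : InvB A B D1 D2 W γ a l p q b S R) (hδW : 8 * δ * W ≤ 1)
    (ph : Prop) (hph : ph → p ≤ 1 / 8)
    (hβ : 0 < β) (hβ1 : β ≤ δ ^ 6 / (4000 * W ^ 2)) (hζ : 0 < ζ) (hζ1 : ζ ≤ 1)
    (H0 : 4 * Real.exp (-(β * D1)) ≤ ζ)
    (H1 : 3 * D1 ^ 2 * ((36 + 6 / ζ) * D1 ^ 3 * Real.exp (-(β * D1))) ≤ 1 / 4)
    (H2 : 30 * (n : ℝ) ^ 2 * Real.exp (-(β * D2)) +
      2 * n * Real.exp (-(ζ ^ 2 * n / (16 * D1 ^ 2))) <
      Real.exp (-(4 * n * ((36 + 6 / ζ) * D1 ^ 3 * Real.exp (-(β * D1))))))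
    {W' γ' a' l' p' q' : ℝ}
    (hW' : W * (1 + δ * (1 + γ + ρ)) ≤ W')
    (hγ' : γ + 3 * δ * γ + 10 * K0 ^ 2 * δ ^ 2 + δ ^ 3 ≤ γ')
    (ha' : (1 - δ * (1 - γ) + δ ^ 2) * a + δ ^ 3 ≤ a')
    (hl' : l + 20 * K0 * δ ^ 2 ≤ l') (hp' : p + 2 * δ ≤ p')
    (h1 : ph → q' ≤ (1 - 2 * δ * ρ) * q - δ ^ 3 +
      ((6 / 10) * δ - δ ^ 3 - 20 * K0 * δ ^ 2 - 8 * δ ^ 2))
    (h2 : ¬ ph → q' ≤ (1 - 2 * δ * ρ) * q - δ ^ 3) :
    ∃ S' R', InvB A B D1 D2 W' γ' a' l' p' q' (b + ζ) S' R' ∧ (n : ℝ) / (4 * W) ≤ #S'.U := by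
  classical
  obtain ⟨ω, hG, hkl, hb1, hb2⟩ := good0_exists hN hdg hI.inv ph hph hβ hβ1 hζ hζ1 H0 H1 H2
  obtain ⟨s1, s2, s3, s4, s5⟩ := next_struct (δ := δ) hI.inv hG.supp
  obtain ⟨w1, w2, w3, w4, w5⟩ := next_w hN hI.inv hG.supp
  obtain ⟨r1, r2⟩ := next_rowcol hN hI.inv hG hγ'
  obtain ⟨a1, a2, a3⟩ := next_a hN hI.inv hG ha'
  obtain ⟨l1, l2, l3⟩ := next_l hN hI.inv hG hl'
  obtain ⟨p1, p2, p3⟩ := next_p hN hdg hI.inv hG hp'
  have hn1 : (1 : ℝ) ≤ n := by exact_mod_cast hN.n1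
  have hn0 : (0 : ℝ) < n := by linarith
  have hW := hN.W1
  -- the number of remaining vertices
  have hUge := card_U_ge hN hI.inv hI.ne
  have hUn : (n : ℝ) / (4 * W) ≤ #(next A B δ S ω).U := by
    have e1 : #S.U ≤ #(next A B δ S ω).U + pickers ω univ := by
      have e2 : S.U ⊆ (next A B δ S ω).U ∪ univ.filter (fun u => ω u ≠ none) := by
        intro u hu
        rw [Finset.mem_union, Finset.mem_filter]
        by_cases h : ω u = none
        · left
          show u ∈ S.U.filter (fun u => ω u = none)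
          exact Finset.mem_filter.2 ⟨hu, h⟩
        · right
          exact ⟨Finset.mem_univ _, h⟩
      refine (Finset.card_le_card e2).trans ((Finset.card_union_le _ _).trans ?_)
      apply Nat.add_le_add_left
      unfold pickers
      exact le_of_eq (congrArg Finset.card (Finset.filter_congr fun _ _ => Iff.rfl))
    have e3 : (#S.U : ℝ) ≤ #(next A B δ S ω).U + pickers ω univ := by exact_mod_cast e1
    have e4 := hG.pUn'
    have e5 : 2 * δ * n ≤ n / (4 * W) := by
      rw [le_div_iff₀ (by positivity)]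
      calc 2 * δ * n * (4 * W) = (8 * δ * W) * n := by ring
        _ ≤ 1 * n := mul_le_mul_of_nonneg_right hδW hn0.le
        _ = n := one_mul _
    have e6 : (n : ℝ) / (2 * W) = n / (4 * W) + n / (4 * W) := by
      field_simp
      ring
    linarith
  have hUpos : (0 : ℝ) < n / (4 * W) := by positivity
  refine ⟨next A B δ S ω, R ∪ univ.filter (fun t => badp A B δ ρ S ω t.1 t.2), ?_, hUn⟩
  constructor
  · exact
      { disj := s1
        inj := s2
        notF := s3
        killed := s4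
        valid := s5
        w0 := w1
        wU := w2
        wF := w3
        wK := w4
        wW := fun u z => (w5 u z).trans (div_le_div_of_nonneg_right hW' (Nat.cast_nonneg n))
        row := r1
        col := r2
        aU := a1
        aF := a2
        aN := a3
        lU := l1
        lF := l2
        lN := l3
        pz := p1
        pu := p2
        pN := p3
        cnd := fun v y => by
          rw [zero_mul]
          exact Nat.cast_nonneg _ }
  · intro v y hvy
    rw [Finset.mem_union, not_or, Finset.mem_filter, not_and] at hvy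
    have hnb : ¬ badp A B δ ρ S ω v y := hvy.2 (Finset.mem_univ _)
    exact next_q hN hdg hI.inv hG v y (hI.cnd v y hvy.1) (hkl v y hnb) h1 h2
  · intro v
    have e1 : (univ.filter fun y => (v, y) ∈ R ∪ univ.filter
        (fun t : Fin n × Fin n => badp A B δ ρ S ω t.1 t.2)) ⊆
        (univ.filter fun y => (v, y) ∈ R) ∪ univ.filter (fun y => badp A B δ ρ S ω v y) := by
      intro y hy
      rw [Finset.mem_filter, Finset.mem_union, Finset.mem_filter] at hy
      rw [Finset.mem_union, Finset.mem_filter, Finset.mem_filter]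
      rcases hy.2 with h | h
      · exact Or.inl ⟨Finset.mem_univ _, h⟩
      · exact Or.inr ⟨Finset.mem_univ _, h.2⟩
    have e2 : (#(univ.filter fun y => (v, y) ∈ R ∪ univ.filter
        (fun t : Fin n × Fin n => badp A B δ ρ S ω t.1 t.2)) : ℝ) ≤
        #(univ.filter fun y => (v, y) ∈ R) + #(univ.filter (fun y => badp A B δ ρ S ω v y)) := by
      exact_mod_cast (Finset.card_le_card e1).trans (Finset.card_union_le _ _)
    have e3 := hI.bR v
    have e4 := hb1 v
    have e5 : (#(univ.filter fun y => (v, y) ∈ R) : ℝ) ≤ b * n := by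
      refine le_trans (le_of_eq ?_) e3
      exact congrArg Nat.cast (congrArg Finset.card (Finset.filter_congr fun _ _ => Iff.rfl))
    have e6 : (#(univ.filter (fun y => badp A B δ ρ S ω v y)) : ℝ) ≤ ζ * n := by
      refine le_trans (le_of_eq ?_) e4
      exact congrArg Nat.cast (congrArg Finset.card (Finset.filter_congr fun _ _ => Iff.rfl))
    rw [add_mul]
    refine le_trans (le_of_eq ?_) (e2.trans (add_le_add e5 e6))
    exact congrArg Nat.cast (congrArg Finset.card (Finset.filter_congr fun _ _ => Iff.rfl))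
  · intro y
    have e1 : (univ.filter fun v => (v, y) ∈ R ∪ univ.filter
        (fun t : Fin n × Fin n => badp A B δ ρ S ω t.1 t.2)) ⊆
        (univ.filter fun v => (v, y) ∈ R) ∪ univ.filter (fun v => badp A B δ ρ S ω v y) := by
      intro v hv
      rw [Finset.mem_filter, Finset.mem_union, Finset.mem_filter] at hv
      rw [Finset.mem_union, Finset.mem_filter, Finset.mem_filter]
      rcases hv.2 with h | h
      · exact Or.inl ⟨Finset.mem_univ _, h⟩
      · exact Or.inr ⟨Finset.mem_univ _, h.2⟩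
    have e2 : (#(univ.filter fun v => (v, y) ∈ R ∪ univ.filter
        (fun t : Fin n × Fin n => badp A B δ ρ S ω t.1 t.2)) : ℝ) ≤
        #(univ.filter fun v => (v, y) ∈ R) + #(univ.filter (fun v => badp A B δ ρ S ω v y)) := by
      exact_mod_cast (Finset.card_le_card e1).trans (Finset.card_union_le _ _)
    have e3 := hI.bC y
    have e4 := hb2 y
    have e5 : (#(univ.filter fun v => (v, y) ∈ R) : ℝ) ≤ b * n := by
      refine le_trans (le_of_eq ?_) e3
      exact congrArg Nat.cast (congrArg Finset.card (Finset.filter_congr fun _ _ => Iff.rfl))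
    have e6 : (#(univ.filter (fun v => badp A B δ ρ S ω v y)) : ℝ) ≤ ζ * n := by
      refine le_trans (le_of_eq ?_) e4
      exact congrArg Nat.cast (congrArg Finset.card (Finset.filter_congr fun _ _ => Iff.rfl))
    rw [add_mul]
    refine le_trans (le_of_eq ?_) (e2.trans (add_le_add e5 e6))
    exact congrArg Nat.cast (congrArg Finset.card (Finset.filter_congr fun _ _ => Iff.rfl))
  · rw [← Finset.card_pos]
    have : (0 : ℝ) < #(next A B δ S ω).U := lt_of_lt_of_le hUpos hUn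
    exact_mod_cast this

/-- the iteration, starting from `init` (stage A) with `R = ∅` (export `#S.U = n` from the proof of
`init`, or treat `K = 0` through `Inv.pN`); `(1 - p 0) n ≤ #S.U` with `p = 0` there. -/
theorem iterate {Wm : ℝ} {k1 K : ℕ} {W γ a l p q : ℕ → ℝ} (hS : Seqs ε δ K0 Wm k1 K W γ a l p q)
    (hn : 1 ≤ n) (hdg : Deg A B D1 D2) (hD1 : 1 ≤ D1) (hD2 : 1 ≤ D2)
    (hDD : D1 * D2 ≤ (1 - ε) * n) (hWn : Wm / n ≤ δ) (hδW : 8 * δ * Wm ≤ 1)
    (hβ : 0 < β) (hβ1 : β ≤ δ ^ 6 / (4000 * Wm ^ 2)) (hζ : 0 < ζ) (hζ1 : ζ ≤ 1)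
    (H0 : 4 * Real.exp (-(β * D1)) ≤ ζ)
    (H1 : 3 * D1 ^ 2 * ((36 + 6 / ζ) * D1 ^ 3 * Real.exp (-(β * D1))) ≤ 1 / 4)
    (H2 : 30 * (n : ℝ) ^ 2 * Real.exp (-(β * D2)) +
      2 * n * Real.exp (-(ζ ^ 2 * n / (16 * D1 ^ 2))) <
      Real.exp (-(4 * n * ((36 + 6 / ζ) * D1 ^ 3 * Real.exp (-(β * D1))))))
    (hWm1 : 1 ≤ Wm) :
    ∃ S R, InvB A B D1 D2 (W K) (γ K) (a K) (l K) (p K) (q K) (K * ζ) S R ∧
      (n : ℝ) / (4 * Wm) ≤ #S.U := by
  classical
  have hn0 : (0 : ℝ) ≤ n := Nat.cast_nonneg n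
  have hn1 : (1 : ℝ) ≤ n := by exact_mod_cast hn
  have main : ∀ k ≤ K, ∃ S R, InvB A B D1 D2 (W k) (γ k) (a k) (l k) (p k) (q k) (k * ζ) S R ∧
      (n : ℝ) / (4 * Wm) ≤ #S.U := by
    intro k
    induction k with
    | zero =>
      intro _
      obtain ⟨S, hI⟩ := init hn hdg
      have hU : (n : ℝ) ≤ #S.U := by
        have h := hI.pN
        rwa [sub_zero, one_mul] at h
      refine ⟨S, ∅, ?_, ?_⟩
      · constructor
        · exact hI.mono (by linarith) (by linarith) hS.W0 hS.γ0 hS.a0 hS.l0 hS.p0 le_rfl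
        · intro v y _
          exact (mul_nonpos_of_nonpos_of_nonneg hS.q0 hn0).trans (Nat.cast_nonneg _)
        · intro v
          simp
        · intro y
          simp
        · rw [← Finset.card_pos]
          have : (0 : ℝ) < #S.U := by linarith
          exact_mod_cast this
      · refine le_trans ?_ hU
        rw [div_le_iff₀ (by positivity)]
        nlinarith
    | succ k ih =>
      intro hk
      have hkK : k < K := hk
      obtain ⟨S, R, hI, -⟩ := ih hkK.le
      have hW1 := hS.W1 k hkK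
      have hWm := hS.Wm' k hkK
      have hN : Num n ε D1 D2 δ K0 (W k) (γ k) (a k) ((1 - ε) * a k ^ 2 * W k) :=
        { n1 := hn
          ε0 := hS.ε0
          ε1 := hS.ε1
          hD1 := hD1
          hD2 := hD2
          hDD := hDD
          δ0 := hS.δ0
          δ1 := hS.δ1
          K0' := hS.K0'
          δK := hS.δK
          W1 := hW1
          Wn := (div_le_div_of_nonneg_right hWm hn0).trans hWn
          γ0 := (hS.γ1 k hkK).1
          γ1 := (hS.γ1 k hkK).2
          a0 := (hS.a1 k hkK).1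
          a1 := (hS.a1 k hkK).2
          hρ := rfl
          hκ := hS.hκ k hkK }
      have hδ6 : 0 < δ ^ 6 := pow_pos hS.δ0 6
      have hδWk : 8 * δ * W k ≤ 1 :=
        (mul_le_mul_of_nonneg_left hWm (by have := hS.δ0; positivity)).trans hδW
      have hβk : β ≤ δ ^ 6 / (4000 * W k ^ 2) := by
        refine hβ1.trans ?_
        apply div_le_div_of_nonneg_left hδ6.le (by positivity)
        have : W k ^ 2 ≤ Wm ^ 2 := pow_le_pow_left₀ (by linarith) hWm 2
        linarith
      obtain ⟨S', R', hI', hU'⟩ := round hN hdg hI hδWk (k < k1) (hS.p1 k hkK) hβ hβk hζ hζ1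
        H0 H1 H2 (hS.sW k hkK) (hS.sγ k hkK) (hS.sa k hkK) (hS.sl k hkK) (hS.sp k hkK)
        (hS.sq1 k hkK) (fun h => hS.sq2 k hkK (not_lt.mp h))
      refine ⟨S', R', ?_, ?_⟩
      · have e : ((k + 1 : ℕ) : ℝ) * ζ = k * ζ + ζ := by push_cast; ring
        rw [e]
        exact hI'
      · refine le_trans ?_ hU'
        apply div_le_div_of_nonneg_left hn0 (by positivity)
        linarith
  exact main K le_rfl

end Pool.Agent.Helper5.BEC.B
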