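import Pool.Agent.Helper5.BEC.B.Defs
/-! Stage B, piece H: a bijection that avoids the bad pairs (Hall). -/
set_option autoImplicit false
namespace Pool.Agent.Helper5.BEC.B
open Finset

open Classical in
/-- Hall's theorem (`Finset.all_card_le_biUnion_card_iff_exists_injective`): a set `X ⊆ I` with
`2|X| ≤ |I|` has at least `|J| - t ≥ |X|` allowed partners; if `2|X| > |I|` then `|X| > t` and every
`y ∈ J` has an allowed partner in `X`. -/
theorem hall_avoid {n : ℕ} (I J : Finset (Fin n)) (hIJ : #I = #J) (R : Finset (Fin n × Fin n))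
    (t : ℝ) (h1 : ∀ v ∈ I, (#(J.filter fun y => (v, y) ∈ R) : ℝ) ≤ t)
    (h2 : ∀ y ∈ J, (#(I.filter fun v => (v, y) ∈ R) : ℝ) ≤ t) (ht : 2 * t ≤ #I) :
    ∃ g : Fin n → Fin n, (∀ v ∈ I, g v ∈ J) ∧ Set.InjOn g (I : Set (Fin n)) ∧
      ∀ v ∈ I, (v, g v) ∉ R := by
  have key : ∃ f : {v // v ∈ I} → Fin n, Function.Injective f ∧
      ∀ x : {v // v ∈ I}, f x ∈ (fun v : {v // v ∈ I} => J.filter fun y => (v.1, y) ∉ R) x := by
    refine (Finset.all_card_le_biUnion_card_iff_exists_injective _).1 fun s => ?_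
    rcases s.eq_empty_or_nonempty with rfl | ⟨v0, hv0⟩
    · simp
    by_cases hs : 2 * #s ≤ #I
    · have hsub : (J.filter fun y => (v0.1, y) ∉ R) ⊆
          s.biUnion fun v : {v // v ∈ I} => J.filter fun y => (v.1, y) ∉ R :=
        Finset.subset_biUnion_of_mem (fun v : {v // v ∈ I} => J.filter fun y => (v.1, y) ∉ R) hv0
      refine le_trans ?_ (Finset.card_le_card hsub)
      have hsum := Finset.card_filter_add_card_filter_not (s := J) (fun y => (v0.1, y) ∈ R)
      have h3 := h1 v0.1 v0.2
      have h4 : (#(J.filter fun y => (v0.1, y) ∈ R) : ℝ)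
          + #(J.filter fun y => ¬ (v0.1, y) ∈ R) = #J := by exact_mod_cast hsum
      have h5 : (2 * #s : ℝ) ≤ #I := by exact_mod_cast hs
      have h6 : (#I : ℝ) = #J := by exact_mod_cast hIJ
      have h7 : (#s : ℝ) ≤ #(J.filter fun y => ¬ (v0.1, y) ∈ R) := by linarith
      exact_mod_cast h7
    · have hsub : J ⊆ s.biUnion fun v : {v // v ∈ I} => J.filter fun y => (v.1, y) ∉ R := by
        intro y hy
        by_contra hcon
        have hall : ∀ v ∈ s, (v.1, y) ∈ R := by
          intro v hv
          by_contra hv'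
          exact hcon (Finset.mem_biUnion.2 ⟨v, hv, Finset.mem_filter.2 ⟨hy, hv'⟩⟩)
        have hle : #s ≤ #(I.filter fun v => (v, y) ∈ R) := by
          have : s.map (Function.Embedding.subtype _) ⊆ I.filter fun v => (v, y) ∈ R := by
            intro v hv
            obtain ⟨w, hw, rfl⟩ := Finset.mem_map.1 hv
            exact Finset.mem_filter.2 ⟨w.2, hall w hw⟩
          simpa using Finset.card_le_card this
        have h3 := h2 y hy
        have h4 : (#s : ℝ) ≤ #(I.filter fun v => (v, y) ∈ R) := by exact_mod_cast hle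
        apply hs
        have h5 : (2 * #s : ℝ) ≤ #I := by linarith
        exact_mod_cast h5
      refine le_trans ?_ (Finset.card_le_card hsub)
      rw [← hIJ]
      calc #s ≤ #(Finset.univ : Finset {v // v ∈ I}) := Finset.card_le_univ _
        _ = #I := by simp
  obtain ⟨f, hinj, hf⟩ := key
  refine ⟨fun v => if h : v ∈ I then f ⟨v, h⟩ else v, fun v hv => ?_, fun v hv w hw hvw => ?_,
    fun v hv => ?_⟩
  · have := hf ⟨v, hv⟩
    simp only [dif_pos hv]
    exact (Finset.mem_filter.1 this).1
  · have hv' : v ∈ I := hv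
    have hw' : w ∈ I := hw
    simp only [dif_pos hv', dif_pos hw'] at hvw
    exact congrArg Subtype.val (hinj hvw)
  · have := hf ⟨v, hv⟩
    simp only [dif_pos hv]
    exact (Finset.mem_filter.1 this).2

end Pool.Agent.Helper5.BEC.B
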