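import Pool.Agent.Helper5.BEC.B.Defs
/-! Stage B, piece N: numerical conditions. -/
set_option autoImplicit false
namespace Pool.Agent.Helper5.BEC.B

private theorem pow_exp_small (k : ℕ) (b e : ℝ) (hb : 0 < b) (he : 0 < e) :
    ∃ T : ℝ, 1 ≤ T ∧ ∀ t : ℝ, T ≤ t → t ^ k * Real.exp (-(b * t)) ≤ e := by
  have h1 := Real.tendsto_pow_mul_exp_neg_atTop_nhds_zero k
  have h2 : Filter.Tendsto (fun t : ℝ => b * t) Filter.atTop Filter.atTop :=
    Filter.Tendsto.const_mul_atTop hb Filter.tendsto_id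
  have h3 := h1.comp h2
  have hbk : 0 < b ^ k := pow_pos hb k
  have h4 : ∀ᶠ t in Filter.atTop, ((fun x : ℝ => x ^ k * Real.exp (-x)) ∘ fun t => b * t) t <
      e * b ^ k := h3.eventually_lt_const (mul_pos he hbk)
  obtain ⟨T, hT⟩ := Filter.eventually_atTop.1 h4
  refine ⟨max T 1, le_max_right _ _, fun t ht => ?_⟩
  have h5 := hT t (le_trans (le_max_left _ _) ht)
  simp only [Function.comp_apply] at h5
  rw [mul_pow] at h5
  have h6 : b ^ k * (t ^ k * Real.exp (-(b * t))) ≤ b ^ k * e := by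
    nlinarith [h5.le]
  exact le_of_mul_le_mul_left h6 hbk

/-- `M0 = (36 + 6/ζ) D1³ exp (-β D1)`. For `D1` large: `4 M0 ≤ β/(4 D1)` and `4 M0 ≤ ζ²/(32 D1²)`.
As `D2 ≥ n/(2 D1)`, `exp (-β D2) ≤ exp (-β n/(2 D1)) ≤ exp (-β n/(4 D1)) exp (-4 n M0)`, and
`exp (-ζ² n/(16 D1²)) ≤ exp (-ζ² n/(32 D1²)) exp (-4 n M0)`; finally `n ≥ exp (D1/C)` makes
`30 n² exp (-β n/(4 D1))` and `2 n exp (-ζ² n/(32 D1²))` smaller than `1/2` (`D1 ≤ C log n`). -/
theorem numerics (β ζ C : ℝ) (hβ : 0 < β) (hζ : 0 < ζ) (hC : 0 < C) :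
    ∃ D0 : ℝ, 1 ≤ D0 ∧ ∀ (n : ℕ) (D1 D2 : ℝ), D0 ≤ D1 → D1 ≤ C * Real.log n →
      (n : ℝ) ≤ 2 * D1 * D2 →
      4 * Real.exp (-(β * D1)) ≤ ζ ∧
      3 * D1 ^ 2 * ((36 + 6 / ζ) * D1 ^ 3 * Real.exp (-(β * D1))) ≤ 1 / 4 ∧
      30 * (n : ℝ) ^ 2 * Real.exp (-(β * D2)) +
        2 * n * Real.exp (-(ζ ^ 2 * n / (16 * D1 ^ 2))) <
        Real.exp (-(4 * n * ((36 + 6 / ζ) * D1 ^ 3 * Real.exp (-(β * D1))))) := by
  set A : ℝ := 36 + 6 / ζ with hA
  have hA0 : 0 < A := by positivity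
  obtain ⟨T1, hT1, h1⟩ := pow_exp_small 5 β (min (min (ζ / 4) (1 / (12 * A)))
    (min (β / (16 * A)) (ζ ^ 2 / (128 * A)))) hβ (by positivity)
  obtain ⟨T2, hT2, h2⟩ := pow_exp_small 3 1 (min (β / (48 * C)) (ζ ^ 2 / (128 * C ^ 2)))
    one_pos (by positivity)
  refine ⟨max T1 (C * T2), le_trans hT1 (le_max_left _ _), fun n D1 D2 hD hDn hn => ?_⟩
  have hD1 : T1 ≤ D1 := le_trans (le_max_left _ _) hD
  have hD1' : 1 ≤ D1 := hT1.trans hD1
  have hDpos : 0 < D1 := lt_of_lt_of_le one_pos hD1'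
  have ht : T2 ≤ Real.log n := by
    have h3 : C * T2 ≤ C * Real.log n := le_trans (le_max_right _ _) (hD.trans hDn)
    exact le_of_mul_le_mul_left h3 hC
  set t : ℝ := Real.log n with htdef
  have ht1 : 1 ≤ t := hT2.trans ht
  have ht0 : 0 < t := lt_of_lt_of_le one_pos ht1
  have hn0 : (0 : ℝ) < n := by
    rcases Nat.eq_zero_or_pos n with h0 | h0
    · exfalso
      rw [htdef, h0, Nat.cast_zero, Real.log_zero] at ht0
      exact lt_irrefl _ ht0
    · exact_mod_cast h0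
  have hnt : Real.exp t = n := Real.exp_log hn0
  -- the conditions on `D1`
  have hE := h1 D1 hD1
  set E : ℝ := Real.exp (-(β * D1)) with hEdef
  have hE0 : 0 < E := Real.exp_pos _
  have hEa : D1 ^ 5 * E ≤ ζ / 4 := hE.trans ((min_le_left _ _).trans (min_le_left _ _))
  have hEb : D1 ^ 5 * E ≤ 1 / (12 * A) := hE.trans ((min_le_left _ _).trans (min_le_right _ _))
  have hEc : D1 ^ 5 * E ≤ β / (16 * A) := hE.trans ((min_le_right _ _).trans (min_le_left _ _))
  have hEd : D1 ^ 5 * E ≤ ζ ^ 2 / (128 * A) :=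
    hE.trans ((min_le_right _ _).trans (min_le_right _ _))
  have hp5 : 1 ≤ D1 ^ 5 := one_le_pow₀ hD1'
  have hp4 : D1 ^ 4 ≤ D1 ^ 5 := pow_le_pow_right₀ hD1' (by norm_num)
  have hE1 : E ≤ D1 ^ 5 * E := le_mul_of_one_le_left hE0.le hp5
  have hE4 : D1 ^ 4 * E ≤ D1 ^ 5 * E := mul_le_mul_of_nonneg_right hp4 hE0.le
  have hEb' : D1 ^ 5 * E * (12 * A) ≤ 1 := (le_div_iff₀ (by positivity)).1 hEb
  have hEc' : D1 ^ 4 * E * (16 * A) ≤ β :=
    (mul_le_mul_of_nonneg_right hE4 (by positivity)).trans ((le_div_iff₀ (by positivity)).1 hEc)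
  have hEd' : D1 ^ 5 * E * (128 * A) ≤ ζ ^ 2 := (le_div_iff₀ (by positivity)).1 hEd
  set M : ℝ := A * D1 ^ 3 * E with hM
  have hM0 : 0 < M := by positivity
  have hMc : 4 * M ≤ β / (4 * D1) := by
    rw [le_div_iff₀ (by positivity), hM]
    have h5 : 4 * (A * D1 ^ 3 * E) * (4 * D1) = D1 ^ 4 * E * (16 * A) := by ring
    rw [h5]
    exact hEc'
  have hMd : 4 * M ≤ ζ ^ 2 / (32 * D1 ^ 2) := by
    rw [le_div_iff₀ (by positivity), hM]
    have h5 : 4 * (A * D1 ^ 3 * E) * (32 * D1 ^ 2) = D1 ^ 5 * E * (128 * A) := by ring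
    rw [h5]
    exact hEd'
  -- the conditions on `n`
  have hF := h2 t ht
  rw [one_mul] at hF
  have hexp : t ^ 3 * Real.exp (-t) * n = t ^ 3 := by
    rw [← hnt, mul_assoc, ← Real.exp_add, neg_add_cancel, Real.exp_zero, mul_one]
  have hFa : t ^ 3 * (48 * C) ≤ β * n := by
    have h3 : t ^ 3 * Real.exp (-t) ≤ β / (48 * C) := hF.trans (min_le_left _ _)
    rw [le_div_iff₀ (by positivity)] at h3
    calc t ^ 3 * (48 * C) = t ^ 3 * Real.exp (-t) * n * (48 * C) := by rw [hexp]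
      _ = t ^ 3 * Real.exp (-t) * (48 * C) * n := by ring
      _ ≤ β * n := mul_le_mul_of_nonneg_right h3 hn0.le
  have hFb : t ^ 3 * (128 * C ^ 2) ≤ ζ ^ 2 * n := by
    have h3 : t ^ 3 * Real.exp (-t) ≤ ζ ^ 2 / (128 * C ^ 2) := hF.trans (min_le_right _ _)
    rw [le_div_iff₀ (by positivity)] at h3
    calc t ^ 3 * (128 * C ^ 2) = t ^ 3 * Real.exp (-t) * n * (128 * C ^ 2) := by rw [hexp]
      _ = t ^ 3 * Real.exp (-t) * (128 * C ^ 2) * n := by ring
      _ ≤ ζ ^ 2 * n := mul_le_mul_of_nonneg_right h3 hn0.le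
  have ht2 : 1 ≤ t ^ 2 := one_le_pow₀ ht1
  have hK1 : 2 * t + 10 ≤ β * n / (4 * D1) := by
    rw [le_div_iff₀ (by positivity)]
    calc (2 * t + 10) * (4 * D1) ≤ (2 * t + 10) * (4 * (C * t)) := by
          apply mul_le_mul_of_nonneg_left _ (by positivity)
          linarith
      _ ≤ t ^ 3 * (48 * C) := by
          have h5 : (2 * t + 10) * t ≤ 12 * t ^ 3 := by
            have h6 : 2 * t + 10 ≤ 12 * t ^ 2 := by
              have h7 : t ≤ t ^ 2 := le_self_pow₀ ht1 (by norm_num)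
              linarith
            calc (2 * t + 10) * t ≤ 12 * t ^ 2 * t := mul_le_mul_of_nonneg_right h6 ht0.le
              _ = 12 * t ^ 3 := by ring
          calc (2 * t + 10) * (4 * (C * t)) = 4 * C * ((2 * t + 10) * t) := by ring
            _ ≤ 4 * C * (12 * t ^ 3) := mul_le_mul_of_nonneg_left h5 (by positivity)
            _ = t ^ 3 * (48 * C) := by ring
      _ ≤ β * n := hFa
  have hK2 : t + 3 ≤ ζ ^ 2 * n / (32 * D1 ^ 2) := by
    rw [le_div_iff₀ (by positivity)]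
    have h4 : D1 ^ 2 ≤ (C * t) ^ 2 := pow_le_pow_left₀ hDpos.le hDn 2
    calc (t + 3) * (32 * D1 ^ 2) ≤ (t + 3) * (32 * (C * t) ^ 2) := by
          apply mul_le_mul_of_nonneg_left _ (by positivity)
          linarith
      _ ≤ t ^ 3 * (128 * C ^ 2) := by
          have h5 : (t + 3) * t ^ 2 ≤ 4 * t ^ 3 := by
            calc (t + 3) * t ^ 2 ≤ (4 * t) * t ^ 2 :=
                  mul_le_mul_of_nonneg_right (by linarith) (by positivity)
              _ = 4 * t ^ 3 := by ring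
          calc (t + 3) * (32 * (C * t) ^ 2) = 32 * C ^ 2 * ((t + 3) * t ^ 2) := by ring
            _ ≤ 32 * C ^ 2 * (4 * t ^ 3) := mul_le_mul_of_nonneg_left h5 (by positivity)
            _ = t ^ 3 * (128 * C ^ 2) := by ring
      _ ≤ ζ ^ 2 * n := hFb
  refine ⟨by linarith, ?_, ?_⟩
  · have h5 : 3 * D1 ^ 2 * (A * D1 ^ 3 * E) = 3 * A * (D1 ^ 5 * E) := by ring
    rw [h5]
    have h6 : 3 * A * (D1 ^ 5 * E) = D1 ^ 5 * E * (12 * A) / 4 := by ring
    rw [h6]
    linarith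
  · -- the two terms
    have hX1 : β * n / (4 * D1) + 4 * n * M ≤ β * D2 := by
      have h5 : 4 * n * M ≤ β * n / (4 * D1) := by
        have h6 := mul_le_mul_of_nonneg_left hMc hn0.le
        calc 4 * n * M = n * (4 * M) := by ring
          _ ≤ n * (β / (4 * D1)) := h6
          _ = β * n / (4 * D1) := by ring
      have h7 : β * n / (2 * D1) ≤ β * D2 := by
        rw [div_le_iff₀ (by positivity)]
        calc β * n ≤ β * (2 * D1 * D2) := mul_le_mul_of_nonneg_left hn hβ.le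
          _ = β * D2 * (2 * D1) := by ring
      have h8 : β * n / (2 * D1) = β * n / (4 * D1) + β * n / (4 * D1) := by
        field_simp
        ring
      linarith
    have hX2 : ζ ^ 2 * n / (32 * D1 ^ 2) + 4 * n * M ≤ ζ ^ 2 * n / (16 * D1 ^ 2) := by
      have h5 : 4 * n * M ≤ ζ ^ 2 * n / (32 * D1 ^ 2) := by
        have h6 := mul_le_mul_of_nonneg_left hMd hn0.le
        calc 4 * n * M = n * (4 * M) := by ring
          _ ≤ n * (ζ ^ 2 / (32 * D1 ^ 2)) := h6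
          _ = ζ ^ 2 * n / (32 * D1 ^ 2) := by ring
      have h8 : ζ ^ 2 * n / (16 * D1 ^ 2) =
          ζ ^ 2 * n / (32 * D1 ^ 2) + ζ ^ 2 * n / (32 * D1 ^ 2) := by
        field_simp
        ring
      linarith
    have hq1 : (61 : ℝ) ≤ Real.exp 10 := by
      have := Real.quadratic_le_exp_of_nonneg (x := 10) (by norm_num)
      norm_num at this ⊢
      linarith
    have hq2 : (8 : ℝ) ≤ Real.exp 3 := by
      have := Real.quadratic_le_exp_of_nonneg (x := 3) (by norm_num)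
      norm_num at this ⊢
      linarith
    have hY1 : 30 * (n : ℝ) ^ 2 * Real.exp (-(β * D2)) <
        1 / 2 * Real.exp (-(4 * n * M)) := by
      have h5 : Real.exp (-(β * D2)) ≤ Real.exp (-(2 * t + 10)) * Real.exp (-(4 * n * M)) := by
        rw [← Real.exp_add]
        apply Real.exp_le_exp.2
        linarith
      have h6 : Real.exp (-(2 * t + 10)) * (n : ℝ) ^ 2 * Real.exp 10 = 1 := by
        rw [← hnt, ← Real.exp_nat_mul, ← Real.exp_add, ← Real.exp_add]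
        rw [show -(2 * t + 10) + ((2 : ℕ) : ℝ) * t + 10 = 0 by push_cast; ring, Real.exp_zero]
      have h7 : 30 * (Real.exp (-(2 * t + 10)) * (n : ℝ) ^ 2) < 1 / 2 := by
        have h8 : 0 < Real.exp (-(2 * t + 10)) * (n : ℝ) ^ 2 := by positivity
        have h9 := mul_le_mul_of_nonneg_left hq1 h8.le
        linarith
      calc 30 * (n : ℝ) ^ 2 * Real.exp (-(β * D2)) ≤
          30 * (n : ℝ) ^ 2 * (Real.exp (-(2 * t + 10)) * Real.exp (-(4 * n * M))) :=
            mul_le_mul_of_nonneg_left h5 (by positivity)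
        _ = 30 * (Real.exp (-(2 * t + 10)) * (n : ℝ) ^ 2) * Real.exp (-(4 * n * M)) := by ring
        _ < 1 / 2 * Real.exp (-(4 * n * M)) := mul_lt_mul_of_pos_right h7 (Real.exp_pos _)
    have hY2 : 2 * (n : ℝ) * Real.exp (-(ζ ^ 2 * n / (16 * D1 ^ 2))) <
        1 / 2 * Real.exp (-(4 * n * M)) := by
      have h5 : Real.exp (-(ζ ^ 2 * n / (16 * D1 ^ 2))) ≤
          Real.exp (-(t + 3)) * Real.exp (-(4 * n * M)) := by
        rw [← Real.exp_add]
        apply Real.exp_le_exp.2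
        linarith
      have h6 : Real.exp (-(t + 3)) * (n : ℝ) * Real.exp 3 = 1 := by
        rw [← hnt, ← Real.exp_add, ← Real.exp_add]
        rw [show -(t + 3) + t + 3 = 0 by ring, Real.exp_zero]
      have h7 : 2 * (Real.exp (-(t + 3)) * (n : ℝ)) < 1 / 2 := by
        have h8 : 0 < Real.exp (-(t + 3)) * (n : ℝ) := by positivity
        have h9 := mul_le_mul_of_nonneg_left hq2 h8.le
        linarith
      calc 2 * (n : ℝ) * Real.exp (-(ζ ^ 2 * n / (16 * D1 ^ 2))) ≤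
          2 * (n : ℝ) * (Real.exp (-(t + 3)) * Real.exp (-(4 * n * M))) :=
            mul_le_mul_of_nonneg_left h5 (by positivity)
        _ = 2 * (Real.exp (-(t + 3)) * (n : ℝ)) * Real.exp (-(4 * n * M)) := by ring
        _ < 1 / 2 * Real.exp (-(4 * n * M)) := mul_lt_mul_of_pos_right h7 (Real.exp_pos _)
    linarith

end Pool.Agent.Helper5.BEC.B
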