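import Pool.Agent.Helper5.BEC.B.Defs
/-! Stage B, piece S: the Sauer-Spencer theorem. -/
set_option autoImplicit false
namespace Pool.Agent.Helper5.BEC.B
open Finset Pool.Agent.Helper5.BEC

private theorem swap_other {n : ℕ} (τ : Equiv.Perm (Fin n)) (u w a : Fin n) (h1 : a ≠ u)
    (h2 : a ≠ w) : (Equiv.swap u w).trans τ a = τ a := by
  rw [Equiv.trans_apply, Equiv.swap_apply_of_ne_of_ne h1 h2]

private theorem conf_sub {n : ℕ} (A B : Nb n) (τ : Equiv.Perm (Fin n)) (u w : Fin n)
    (h1 : ∀ x ∈ A.N u, τ w ∉ B.N (τ x)) (h2 : ∀ x, τ x ∈ B.N (τ u) → w ∉ A.N x)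
    (a b : Fin n) (hab : a ∈ A.N b)
    (hc : (Equiv.swap u w).trans τ a ∈ B.N ((Equiv.swap u w).trans τ b)) :
    τ a ∈ B.N (τ b) := by
  have hu : (Equiv.swap u w).trans τ u = τ w := by
    rw [Equiv.trans_apply, Equiv.swap_apply_left]
  have hw : (Equiv.swap u w).trans τ w = τ u := by
    rw [Equiv.trans_apply, Equiv.swap_apply_right]
  by_cases ha : a = u
  · subst ha
    rw [hu] at hc
    by_cases hb : b = a
    · subst hb
      exact absurd hab (A.irr _)
    · by_cases hb' : b = w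
      · subst hb'
        rw [hw] at hc
        exact B.symm _ _ hc
      · rw [swap_other τ a w b hb hb'] at hc
        exact absurd hc (h1 b (A.symm _ _ hab))
  · by_cases ha' : a = w
    · subst ha'
      rw [hw] at hc
      by_cases hb : b = u
      · subst hb
        rw [hu] at hc
        exact B.symm _ _ hc
      · by_cases hb' : b = a
        · subst hb'
          exact absurd hab (A.irr _)
        · rw [swap_other τ u a b hb hb'] at hc
          exact absurd hab (h2 b (B.symm _ _ hc))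
    · rw [swap_other τ u w a ha ha'] at hc
      by_cases hb : b = u
      · subst hb
        rw [hu] at hc
        exact absurd (B.symm _ _ hc) (h1 a hab)
      · by_cases hb' : b = w
        · subst hb'
          rw [hw] at hc
          exact absurd (A.symm _ _ hab) (h2 a hc)
        · rw [swap_other τ u w b hb hb'] at hc
          exact hc

/-- Take a permutation `τ` with the smallest number of conflicts, i.e. of ordered pairs `(u,v)` with
`u ∈ N₁(v)`, `τ u ∈ N₂(τ v)`. If `(u,v)` is a conflict, there is `w ≠ u` such that no `x ∈ N₁(u)` has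
`τ x ∈ N₂(τ w)` and no `x` with `τ x ∈ N₂(τ u)` is in `N₁(w)`: the first condition excludes at most
`D1 D2` vertices `w` and the second one at most `D1 D2` (both lists contain `w = u`, because of
`x = v`), so at most `2 D1 D2 < n` in total. Exchanging the values of `τ` at `u` and `w` destroys the
conflicts at `u` and creates none. -/
theorem sauer_spencer {n : ℕ} (A B : Nb n) {D1 D2 : ℝ} (hdg : Deg A B D1 D2) (hD1 : 0 ≤ D1)
    (hD2 : 0 ≤ D2) (h : 2 * D1 * D2 < n) :
    ∃ τ : Equiv.Perm (Fin n), ∀ u v, u ∈ A.N v → τ u ∉ B.N (τ v) := by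
  classical
  let conf : Equiv.Perm (Fin n) → Finset (Fin n × Fin n) := fun τ =>
    univ.filter fun p => p.1 ∈ A.N p.2 ∧ τ p.1 ∈ B.N (τ p.2)
  obtain ⟨τ, -, hmin⟩ := Finset.exists_min_image (univ : Finset (Equiv.Perm (Fin n)))
    (fun τ => #(conf τ)) ⟨1, mem_univ _⟩
  refine ⟨τ, fun u v huv hc => ?_⟩
  have hvu := A.symm _ _ huv
  have hc' := B.symm _ _ hc
  let W1 : Finset (Fin n) := (A.N u).biUnion fun x => (B.N (τ x)).image τ.symm
  let W2 : Finset (Fin n) := ((B.N (τ u)).image τ.symm).biUnion fun x => A.N x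
  have hW1 : (#W1 : ℝ) ≤ D1 * D2 := by
    have e1 : (#W1 : ℝ) ≤ ∑ x ∈ A.N u, (#((B.N (τ x)).image τ.symm) : ℝ) := by
      exact_mod_cast Finset.card_biUnion_le
    refine e1.trans ?_
    have e2 : ∑ x ∈ A.N u, (#((B.N (τ x)).image τ.symm) : ℝ) ≤ ∑ x ∈ A.N u, D2 := by
      refine Finset.sum_le_sum fun x _ => le_trans ?_ (hdg.dB (τ x))
      exact_mod_cast Finset.card_image_le
    refine e2.trans ?_
    rw [Finset.sum_const, nsmul_eq_mul]
    exact mul_le_mul_of_nonneg_right (hdg.dA u) hD2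
  have hW2 : (#W2 : ℝ) ≤ D1 * D2 := by
    have e1 : (#W2 : ℝ) ≤ ∑ x ∈ (B.N (τ u)).image τ.symm, (#(A.N x) : ℝ) := by
      exact_mod_cast Finset.card_biUnion_le
    refine e1.trans ?_
    have e2 : ∑ x ∈ (B.N (τ u)).image τ.symm, (#(A.N x) : ℝ) ≤
        ∑ x ∈ (B.N (τ u)).image τ.symm, D1 := Finset.sum_le_sum fun x _ => hdg.dA x
    refine e2.trans ?_
    rw [Finset.sum_const, nsmul_eq_mul, mul_comm]
    refine mul_le_mul_of_nonneg_left (le_trans ?_ (hdg.dB (τ u))) hD1
    exact_mod_cast Finset.card_image_le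
  have hu1 : u ∈ W1 := by
    refine Finset.mem_biUnion.2 ⟨v, hvu, Finset.mem_image.2 ⟨τ u, hc, ?_⟩⟩
    simp
  have hu2 : u ∈ W2 := by
    refine Finset.mem_biUnion.2 ⟨v, Finset.mem_image.2 ⟨τ v, hc', by simp⟩, huv⟩
  obtain ⟨w, hw⟩ : ∃ w, w ∉ insert v (W1 ∪ W2) := by
    by_contra hcon
    push Not at hcon
    have e0 : (univ : Finset (Fin n)) ⊆ insert v (W1 ∪ W2) := fun x _ => hcon x
    have e1 := Finset.card_le_card e0
    rw [Finset.card_univ, Fintype.card_fin] at e1
    have e2 := Finset.card_insert_le v (W1 ∪ W2)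
    have e3 := Finset.card_union_add_card_inter W1 W2
    have e4 : 1 ≤ #(W1 ∩ W2) := Finset.card_pos.2 ⟨u, Finset.mem_inter.2 ⟨hu1, hu2⟩⟩
    have e5 : n ≤ #W1 + #W2 := by omega
    have e6 : (n : ℝ) ≤ #W1 + #W2 := by exact_mod_cast e5
    nlinarith [hW1, hW2, e6, h]
  have hwv : w ≠ v := fun h' => hw (by rw [h']; exact Finset.mem_insert_self _ _)
  have hw1 : w ∉ W1 := fun h' =>
    hw (Finset.mem_insert_of_mem (Finset.mem_union_left _ h'))
  have hw2 : w ∉ W2 := fun h' =>
    hw (Finset.mem_insert_of_mem (Finset.mem_union_right _ h'))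
  have hwu : w ≠ u := fun h' => hw1 (by rw [h']; exact hu1)
  have H1 : ∀ x ∈ A.N u, τ w ∉ B.N (τ x) := by
    intro x hx hh
    exact hw1 (Finset.mem_biUnion.2 ⟨x, hx, Finset.mem_image.2 ⟨τ w, hh, by simp⟩⟩)
  have H2 : ∀ x, τ x ∈ B.N (τ u) → w ∉ A.N x := by
    intro x hx hh
    exact hw2 (Finset.mem_biUnion.2 ⟨x, Finset.mem_image.2 ⟨τ x, hx, by simp⟩, hh⟩)
  have hsub : conf ((Equiv.swap u w).trans τ) ⊂ conf τ := by
    refine Finset.ssubset_iff_subset_ne.2 ⟨?_, ?_⟩
    · rintro ⟨a, b⟩ hab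
      rw [Finset.mem_filter] at hab ⊢
      exact ⟨mem_univ _, hab.2.1, conf_sub A B τ u w H1 H2 a b hab.2.1 hab.2.2⟩
    · intro heq
      have e1 : (u, v) ∈ conf τ := Finset.mem_filter.2 ⟨mem_univ _, huv, hc⟩
      rw [← heq, Finset.mem_filter] at e1
      have e2 := e1.2.2
      have e3 : v ≠ u := fun h' => A.irr u (h' ▸ hvu)
      have e4 : (Equiv.swap u w).trans τ u = τ w := by
        rw [Equiv.trans_apply, Equiv.swap_apply_left]
      simp only at e2
      rw [e4, swap_other τ u w v e3 (Ne.symm hwv)] at e2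
      exact H1 v hvu e2
  have h3 := hmin ((Equiv.swap u w).trans τ) (mem_univ _)
  have h4 := Finset.card_lt_card hsub
  omega

end Pool.Agent.Helper5.BEC.B
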