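import Pool.Agent.Helper5.BEC.St.F1
import Pool.Agent.Helper5.BEC.B.P1
import Pool.Agent.Helper5.BEC.B.D4
import Pool.Agent.Helper5.BEC.B.H
import Pool.Agent.Helper5.BEC.B.S
import Pool.Agent.Helper5.BEC.B.N
/-! Stage B, piece F: completion and final theorem. -/
set_option autoImplicit false
namespace Pool.Agent.Helper5.BEC.B
open Finset Pool.Agent.Helper5.BEC

/-- as `finish` (stage A, F1: copy its proof), with `g` from `hall_avoid` (`t = b n`; `U ⊆ I`) -/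
theorem finish {n : ℕ} {A B : Nb n} {D1 D2 W γ a l p q b c η : ℝ} {S : St n}
    {R : Finset (Fin n × Fin n)}
    (hI : InvB A B D1 D2 W γ a l p q b S R) (hn : 1 ≤ n) (hdg : Deg A B D1 D2) (hD1 : 1 ≤ D1)
    (hD2 : 1 ≤ D2) (hDD : D1 * D2 ≤ n) (hc : 0 < c) (hc1 : c ≤ 1) (hη : 0 < η)
    (hηc : 800 * η ≤ c ^ 2) (hcq : c ≤ q) (hal : a + l ≤ 3 * η) (hD1n : D1 ≤ c / 2 * n)
    (hb : 2 * (b * n) ≤ #S.U) :
    ∃ τ : Equiv.Perm (Fin n), ∀ u v, u ∈ A.N v → τ u ∉ B.N (τ v) := by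
  classical
  have hnR : (0 : ℝ) < n := by exact_mod_cast (show 0 < n by omega)
  obtain ⟨I, hIdef⟩ : ∃ I : Finset (Fin n), I = univ \ S.P := ⟨_, rfl⟩
  obtain ⟨J, hJdef⟩ : ∃ J : Finset (Fin n), J = univ \ S.P.image S.σ := ⟨_, rfl⟩
  have hmI : ∀ v, v ∈ I ↔ v ∉ S.P := fun v => by rw [hIdef]; simp
  have hmJ : ∀ y, y ∈ J ↔ y ∉ S.P.image S.σ := fun y => by rw [hJdef]; simp
  have hcard : #I = #J := by
    rw [hIdef, hJdef, card_univ_sdiff, card_univ_sdiff, card_image_of_injOn hI.inv.inj]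
  have hUI : #S.U ≤ #I := by
    refine card_le_card fun v hv => (hmI v).2 fun h => ?_
    exact (Finset.disjoint_left.1 hI.inv.disj) h hv
  have hUI' : (#S.U : ℝ) ≤ #I := by exact_mod_cast hUI
  obtain ⟨g, hgJ, hg, hgR⟩ := hall_avoid I J hcard R (b * n)
    (fun v _ => le_trans (by exact_mod_cast card_le_card (by
      intro y hy
      rw [mem_filter] at hy ⊢
      exact ⟨mem_univ _, hy.2⟩)) (hI.bR v))
    (fun y _ => le_trans (by exact_mod_cast card_le_card (by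
      intro v hv
      rw [mem_filter] at hv ⊢
      exact ⟨mem_univ _, hv.2⟩)) (hI.bC y)) (hb.trans hUI')
  have hgσ : ∀ v ∈ I, ∀ u ∈ S.P, g v ≠ S.σ u := by
    intro v hv u hu h
    exact (hmJ _).1 (hgJ v hv) (mem_image.2 ⟨u, hu, h.symm⟩)
  obtain ⟨Cd, hCddef⟩ : ∃ Cd : Fin n → Finset (Fin n), Cd = fun v => cand S v (g v) \ A.N v :=
    ⟨_, rfl⟩
  have hCdm : ∀ v u, u ∈ Cd v ↔ (u ∈ S.P ∧ (v, S.σ u) ∉ S.K ∧ (u, g v) ∉ S.K) ∧ u ∉ A.N v := by
    intro v u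
    rw [hCddef]
    simp only [mem_sdiff, cand, mem_filter]
  have hCdc : ∀ v ∈ I, c / 2 * n ≤ #(Cd v) := by
    intro v hv
    have h1 := hI.cnd v (g v) (hgR v hv)
    have h2 : #(cand S v (g v)) ≤ #(Cd v) + #(A.N v) := by
      have : cand S v (g v) ⊆ Cd v ∪ A.N v := by
        intro u hu
        by_cases h : u ∈ A.N v
        · exact mem_union_right _ h
        · refine mem_union_left _ ?_
          rw [hCddef]
          exact mem_sdiff.2 ⟨hu, h⟩
      exact (card_le_card this).trans (card_union_le _ _)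
    have h2' : (#(cand S v (g v)) : ℝ) ≤ #(Cd v) + #(A.N v) := by exact_mod_cast h2
    have h3 := hdg.dA v
    have h4 : c * n ≤ q * n := mul_le_mul_of_nonneg_right hcq hnR.le
    linarith
  have hCP : ∀ v ∈ I, Cd v ⊆ S.P := fun v _ u hu => ((hCdm v u).1 hu).1.1
  have hI0 : (#I : ℝ) ≤ 3 * η * n := by
    have h1 : #I ≤ #S.U + #(univ \ (S.U ∪ S.P)) := by
      have : I ⊆ S.U ∪ univ \ (S.U ∪ S.P) := by
        intro v hv
        by_cases h : v ∈ S.U
        · exact mem_union_left _ h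
        · refine mem_union_right _ (mem_sdiff.2 ⟨mem_univ _, ?_⟩)
          rw [mem_union]
          rintro (h' | h')
          · exact h h'
          · exact (hmI v).1 hv h'
      exact (card_le_card this).trans (card_union_le _ _)
    have h1' : (#I : ℝ) ≤ #S.U + #(univ \ (S.U ∪ S.P)) := by exact_mod_cast h1
    have h2 := hI.inv.aN
    have h3 := hI.inv.lN
    have h4 : (a + l) * n ≤ 3 * η * n := mul_le_mul_of_nonneg_right hal hnR.le
    linarith
  have hI1 : ∀ v, (#(A.N v ∩ I) : ℝ) ≤ 3 * η * D1 := by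
    intro v
    have h1 : #(A.N v ∩ I) ≤ #(A.N v ∩ S.U) + #(A.N v \ (S.U ∪ S.P)) := by
      have : A.N v ∩ I ⊆ A.N v ∩ S.U ∪ A.N v \ (S.U ∪ S.P) := by
        intro u hu
        have hu1 := (mem_inter.1 hu).1
        have hu2 := (mem_inter.1 hu).2
        by_cases h : u ∈ S.U
        · exact mem_union_left _ (mem_inter.2 ⟨hu1, h⟩)
        · refine mem_union_right _ (mem_sdiff.2 ⟨hu1, ?_⟩)
          rw [mem_union]
          rintro (h' | h')
          · exact h h'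
          · exact (hmI u).1 hu2 h'
      exact (card_le_card this).trans (card_union_le _ _)
    have h1' : (#(A.N v ∩ I) : ℝ) ≤ #(A.N v ∩ S.U) + #(A.N v \ (S.U ∪ S.P)) := by
      exact_mod_cast h1
    have h2 := hI.inv.aU v
    have h3 := hI.inv.lU v
    have h4 : (a + l) * D1 ≤ 3 * η * D1 := mul_le_mul_of_nonneg_right hal (by linarith)
    linarith
  have hI2 : ∀ y, (#(B.N y ∩ I.image g) : ℝ) ≤ 3 * η * D2 := by
    intro y
    have h1 : #(B.N y ∩ I.image g) ≤ #(B.N y ∩ S.F) + #(B.N y \ (S.F ∪ S.P.image S.σ)) := by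
      have : B.N y ∩ I.image g ⊆ B.N y ∩ S.F ∪ B.N y \ (S.F ∪ S.P.image S.σ) := by
        intro z hz
        have hz1 := (mem_inter.1 hz).1
        obtain ⟨v, hv, rfl⟩ := mem_image.1 (mem_inter.1 hz).2
        by_cases h : g v ∈ S.F
        · exact mem_union_left _ (mem_inter.2 ⟨hz1, h⟩)
        · refine mem_union_right _ (mem_sdiff.2 ⟨hz1, ?_⟩)
          rw [mem_union]
          rintro (h' | h')
          · exact h h'
          · exact (hmJ _).1 (hgJ v hv) h'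
      exact (card_le_card this).trans (card_union_le _ _)
    have h1' : (#(B.N y ∩ I.image g) : ℝ) ≤ #(B.N y ∩ S.F) +
        #(B.N y \ (S.F ∪ S.P.image S.σ)) := by
      exact_mod_cast h1
    have h2 := hI.inv.aF y
    have h3 := hI.inv.lF y
    have h4 : (a + l) * D2 ≤ 3 * η * D2 := mul_le_mul_of_nonneg_right hal (by linarith)
    linarith
  obtain ⟨s, hs1, hs2, hs3, hs4, hs5⟩ := choose_swaps (A := A) (B := B) (D1 := D1) (D2 := D2)
    (η := η) (c := c / 2) I Cd S.σ g hn hdg hD1 hD2 hDD (by linarith) (by linarith) hη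
    (by nlinarith) hCdc S.P hCP hI.inv.inj hg hI0 hI1 hI2
  refine swap_packing S.P I S.σ S.K ?_ ?_ hI.inv.inj hI.inv.killed hI.inv.valid g s hg hgσ ?_ ?_ ?_ ?_ hs2 hs3
    hs4 hs5
  · rw [Finset.disjoint_left]
    intro u hu hu'
    exact (hmI u).1 hu' hu
  · ext u
    simp only [mem_union, mem_univ, iff_true]
    by_cases h : u ∈ S.P
    · exact Or.inl h
    · exact Or.inr ((hmI u).2 h)
  · exact fun v hv => ((hCdm v (s v)).1 (hs1 v hv)).1.1
  · exact fun v hv => ((hCdm v (s v)).1 (hs1 v hv)).1.2.1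
  · exact fun v hv => ((hCdm v (s v)).1 (hs1 v hv)).1.2.2
  · exact fun v hv => ((hCdm v (s v)).1 (hs1 v hv)).2

/-- the case `D1 ≤ C log n`, `n ≤ 2 D1 D2`: `params` (stage B, P1), `ζ = 1/(8 Wm (K+1))`,
`β = δ⁶/(4000 Wm²)`, `numerics`, `iterate`, `finish` with `b = K ζ` (`2 K ζ n ≤ n/(4 Wm) ≤ |U|`).
`D0` is the maximum of the constant of `numerics`, `Wm/δ` and `2/c`. -/
theorem bec_mid (ε : ℝ) (h0 : 0 < ε) (h1 : ε ≤ 1 / 2) (C : ℝ) (hC : 0 < C) :
    ∃ D0 : ℝ, 1 ≤ D0 ∧ ∀ (n : ℕ) (A B : Nb n) (D1 D2 : ℝ), Deg A B D1 D2 → D0 ≤ D1 → D0 ≤ D2 →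
      D1 ≤ C * Real.log n → (n : ℝ) ≤ 2 * D1 * D2 → D1 * D2 ≤ (1 - ε) * n →
      ∃ τ : Equiv.Perm (Fin n), ∀ u v, u ∈ A.N v → τ u ∉ B.N (τ v) := by
  obtain ⟨δ, K0, Wm, c, η, k1, K, W, γ, a, l, p, q, hS, hWm, hδW, hc, hc1, hη, hηc, hcq, hal⟩ :=
    params ε h0 h1
  have hδ : 0 < δ := hS.δ0
  have hW0 : 0 < Wm := by linarith
  obtain ⟨β, hβ⟩ : ∃ β : ℝ, β = δ ^ 6 / (4000 * Wm ^ 2) := ⟨_, rfl⟩
  have hβ0 : 0 < β := by rw [hβ]; positivity
  obtain ⟨ζ, hζ⟩ : ∃ ζ : ℝ, ζ = 1 / (8 * Wm * ((K : ℝ) + 1)) := ⟨_, rfl⟩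
  have hK0 : (0 : ℝ) ≤ K := Nat.cast_nonneg K
  have hζ0 : 0 < ζ := by rw [hζ]; positivity
  have hζ1 : ζ ≤ 1 := by
    rw [hζ, div_le_one (by positivity)]
    nlinarith
  obtain ⟨D0, hD0, hnum⟩ := numerics β ζ C hβ0 hζ0 hC
  have e1 : 0 < Wm / δ := by positivity
  have e2 : 0 < 2 / c := by positivity
  refine ⟨D0 + Wm / δ + 2 / c, by linarith, ?_⟩
  intro n A B D1 D2 hdg hL1 hL2 hlog hn2 hDD
  obtain ⟨H0, H1, H2⟩ := hnum n D1 D2 (by linarith) hlog hn2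
  have hD1 : 1 ≤ D1 := by linarith
  have hD2 : 1 ≤ D2 := by linarith
  have hnpos : 0 < n := by
    rcases Nat.eq_zero_or_pos n with h | h
    · rw [h] at hlog
      simp only [Nat.cast_zero, Real.log_zero, mul_zero] at hlog
      linarith
    · exact h
  have hnR : (0 : ℝ) < n := by exact_mod_cast hnpos
  have hDn : D1 * D2 ≤ n := by nlinarith
  have hWn : Wm / n ≤ δ := by
    have h3 : Wm / δ ≤ D1 := by linarith
    have h4 : Wm / δ ≤ n := by nlinarith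
    rw [div_le_iff₀ hδ] at h4
    rw [div_le_iff₀ hnR]
    linarith
  have hD1n : D1 ≤ c / 2 * n := by
    have h3 : 2 / c ≤ D2 := by linarith
    have h4 : D1 * (2 / c) ≤ n := (mul_le_mul_of_nonneg_left h3 (by linarith)).trans hDn
    have h5 : D1 = D1 * (2 / c) * (c / 2) := by field_simp
    rw [h5]
    calc D1 * (2 / c) * (c / 2) ≤ n * (c / 2) := mul_le_mul_of_nonneg_right h4 (by linarith)
      _ = c / 2 * n := by ring
  obtain ⟨S, R, hSI, hSU⟩ := iterate (A := A) (B := B) hS (by omega) hdg hD1 hD2 hDD hWn hδW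
    hβ0 hβ.le hζ0 hζ1 H0 H1 H2 hWm
  refine finish hSI (by omega) hdg hD1 hD2 hDn hc hc1 hη hηc hcq hal hD1n (le_trans ?_ hSU)
  have h6 : (K : ℝ) * ζ ≤ 1 / (8 * Wm) := by
    rw [hζ, mul_one_div, div_le_div_iff₀ (by positivity) (by positivity)]
    nlinarith
  have h7 : 2 * ((K : ℝ) * ζ * n) ≤ 2 * (1 / (8 * Wm) * n) := by
    have := mul_le_mul_of_nonneg_right h6 hnR.le
    linarith
  refine h7.trans (le_of_eq ?_)
  field_simp
  ring

/-- All cases: `D1 ≤ D2` by symmetry (inverse permutation), Sauer-Spencer, `bec_fin` (stage A),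
`bec_mid`. -/
theorem bec_const (ε : ℝ) (h0 : 0 < ε) :
    ∃ D₀ : ℝ, ∀ (V : Type) [Fintype V] (G₁ G₂ : SimpleGraph V) (D₁ D₂ : ℝ),
      (∀ v, ((G₁.neighborSet v).ncard : ℝ) ≤ D₁) → (∀ v, ((G₂.neighborSet v).ncard : ℝ) ≤ D₂) →
      D₀ ≤ D₁ → D₀ ≤ D₂ → D₁ * D₂ ≤ (1 - ε) * Fintype.card V →
      ∃ τ : Equiv.Perm V, ∀ u v, G₁.Adj u v → ¬ G₂.Adj (τ u) (τ v) := by
  classical
  obtain ⟨C, hC0, hC⟩ := bec_fin (min ε (1 / 2)) (lt_min h0 (by norm_num)) (min_le_right _ _)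
  obtain ⟨D0, hD0, hM⟩ := bec_mid (min ε (1 / 2)) (lt_min h0 (by norm_num)) (min_le_right _ _) C hC0
  have key : ∀ (n : ℕ) (A B : Nb n) (D1 D2 : ℝ), 2 ≤ n → Deg A B D1 D2 → D0 ≤ D1 → D0 ≤ D2 →
      D1 ≤ D2 → D1 * D2 ≤ (1 - min ε (1 / 2)) * n →
      ∃ τ : Equiv.Perm (Fin n), ∀ u v, u ∈ A.N v → τ u ∉ B.N (τ v) := by
    intro n A B D1 D2 hn hdg hL1 hL2 h12 hDD
    rcases lt_or_ge (2 * D1 * D2) n with h | h
    · exact sauer_spencer A B hdg (by linarith) (by linarith) h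
    · rcases le_or_gt D1 (C * Real.log n) with h' | h'
      · exact hM n A B D1 D2 hdg hL1 hL2 h' h hDD
      · exact hC n A B D1 D2 hn hdg h'.le (h'.le.trans h12) hDD
  have key2 : ∀ (n : ℕ) (A B : Nb n) (D1 D2 : ℝ), 2 ≤ n → Deg A B D1 D2 → D0 ≤ D1 → D0 ≤ D2 →
      D1 * D2 ≤ (1 - min ε (1 / 2)) * n →
      ∃ τ : Equiv.Perm (Fin n), ∀ u v, u ∈ A.N v → τ u ∉ B.N (τ v) := by
    intro n A B D1 D2 hn hdg hL1 hL2 hDD
    rcases le_total D1 D2 with h | h
    · exact key n A B D1 D2 hn hdg hL1 hL2 h hDD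
    · obtain ⟨τ, hτ⟩ := key n B A D2 D1 hn ⟨hdg.dB, hdg.dA⟩ hL2 hL1 h (by rw [mul_comm]; exact hDD)
      refine ⟨τ.symm, fun u v huv h' => ?_⟩
      have := hτ _ _ h'
      simp only [Equiv.apply_symm_apply] at this
      exact this huv
  refine ⟨D0, ?_⟩
  intro V _ G₁ G₂ D₁ D₂ hd1 hd2 hL1 hL2 hDD
  rcases Nat.lt_or_ge (Fintype.card V) 2 with hlt | hge
  · have hss : Subsingleton V := Fintype.card_le_one_iff_subsingleton.1 (by omega)
    exact ⟨Equiv.refl V, fun u v huv _ => huv.ne (Subsingleton.elim u v)⟩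
  obtain ⟨e⟩ : Nonempty (V ≃ Fin (Fintype.card V)) := ⟨Fintype.equivFin V⟩
  let mk : SimpleGraph V → Nb (Fintype.card V) := fun G =>
    { N := fun v => univ.filter fun u => G.Adj (e.symm v) (e.symm u)
      symm := fun u v h => by
        simp only [mem_filter, mem_univ, true_and] at h ⊢
        exact h.symm
      irr := fun v => by simp }
  have hmk : ∀ (G : SimpleGraph V) u v, u ∈ (mk G).N v ↔ G.Adj (e.symm v) (e.symm u) := by
    intro G u v
    simp [mk]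
  have hcard : ∀ (G : SimpleGraph V) v, #((mk G).N v) = (G.neighborSet (e.symm v)).ncard := by
    intro G v
    have h1 : ((mk G).N v : Set (Fin (Fintype.card V))) = e '' (G.neighborSet (e.symm v)) := by
      ext u
      simp only [mem_coe, hmk, Set.mem_image, SimpleGraph.mem_neighborSet]
      constructor
      · intro h
        exact ⟨e.symm u, h, by simp⟩
      · rintro ⟨x, hx, rfl⟩
        simpa using hx
    rw [← Set.ncard_coe_finset, h1, Set.ncard_image_of_injective _ e.injective]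
  have hdg : Deg (mk G₁) (mk G₂) D₁ D₂ := by
    refine ⟨fun v => ?_, fun v => ?_⟩
    · rw [hcard]; exact hd1 _
    · rw [hcard]; exact hd2 _
  have hDD' : D₁ * D₂ ≤ (1 - min ε (1 / 2)) * (Fintype.card V : ℝ) := by
    refine hDD.trans (mul_le_mul_of_nonneg_right ?_ (by positivity))
    have := min_le_left ε (1 / 2)
    linarith
  obtain ⟨τ, hτ⟩ := key2 (Fintype.card V) (mk G₁) (mk G₂) D₁ D₂ hge hdg hL1 hL2 hDD'
  refine ⟨(e.trans τ).trans e.symm, ?_⟩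
  intro u v huv h
  have h1 : e u ∈ (mk G₁).N (e v) := by
    rw [hmk]
    simpa using huv.symm
  have h2 := hτ _ _ h1
  apply h2
  rw [hmk]
  simpa using h.symm

end Pool.Agent.Helper5.BEC.B
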