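import Pool.Agent.Helper5.BEC.St.Q1
import Pool.Agent.Helper5.BEC.B.Defs
/-! Stage B, piece K: lost candidates and bad pairs. -/
set_option autoImplicit false
namespace Pool.Agent.Helper5.BEC.B
open Finset Pool.Agent.Helper61.LE Pool.Agent.Helper5.BEC

variable {n : ℕ} {A B : Nb n} {ε D1 D2 D δ K0 W γ a ρ l p q ζ : ℝ} {S : St n}

theorem kills_eq (ω : Fin n → Option (Fin n)) (v y : Fin n) :
    kills A B S ω v y = kills1 A B S ω v y + kills2 A B S ω v y := by
  classical
  unfold kills kills1 kills2
  have h1 : ∀ u z, (if ω u = some z then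
      ((if u ∈ A.N v then (#((cand S v y).filter fun x => S.σ x ∈ B.N z) : ℝ) else 0) +
        (if z ∈ B.N y then (#(cand S v y ∩ A.N u) : ℝ) else 0)) else 0) =
      (if u ∈ A.N v then (if ω u = some z then
        (#((cand S v y).filter fun x => S.σ x ∈ B.N z) : ℝ) else 0) else 0) +
      (if z ∈ B.N y then (if ω u = some z then (#(cand S v y ∩ A.N u) : ℝ) else 0) else 0) := by
    intro u z
    split_ifs <;> ring
  simp only [h1, Finset.sum_add_distrib]
  congr 1
  · rw [Finset.sum_congr rfl fun u _ => (?_ : ∑ z, (if u ∈ A.N v then (if ω u = some z then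
        (#((cand S v y).filter fun x => S.σ x ∈ B.N z) : ℝ) else 0) else 0) =
        if u ∈ A.N v then ∑ z, (if ω u = some z then
        (#((cand S v y).filter fun x => S.σ x ∈ B.N z) : ℝ) else 0) else 0)]
    · rw [Finset.sum_ite_mem, Finset.univ_inter]
    · split_ifs
      · rfl
      · exact Finset.sum_const_zero
  · refine Finset.sum_congr rfl fun u _ => ?_
    rw [Finset.sum_ite_mem, Finset.univ_inter]

/-- the candidates of `(v,y)` killed by the choice `o` of `u ∈ N₁(v)` -/
private noncomputable def g1 (A B : Nb n) (S : St n) (v y u : Fin n) (o : Option (Fin n)) : ℝ :=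
  match o with
  | none => 0
  | some z => by
      classical exact if u ∈ A.N v then
        (#((cand S v y).filter fun x => S.σ x ∈ B.N z) : ℝ) else 0

/-- the candidates of `(v,y)` killed by the choice `o` of `u`, of a position in `N₂(y)` -/
private noncomputable def g2 (A B : Nb n) (S : St n) (v y u : Fin n) (o : Option (Fin n)) : ℝ :=
  match o with
  | none => 0
  | some z => by
      classical exact if z ∈ B.N y then (#(cand S v y ∩ A.N u) : ℝ) else 0

private theorem kills1_eq (A B : Nb n) (S : St n) (ω : Fin n → Option (Fin n)) (v y : Fin n) :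
    kills1 A B S ω v y = ∑ u, g1 A B S v y u (ω u) := by
  classical
  unfold kills1
  have h1 : ∀ u, g1 A B S v y u (ω u) = if u ∈ A.N v then ∑ z, (if ω u = some z then
      (#((cand S v y).filter fun x => S.σ x ∈ B.N z) : ℝ) else 0) else 0 := by
    intro u
    rcases h : ω u with _ | z0
    · simp [g1]
    · rw [Finset.sum_eq_single z0]
      · simp [g1]
      · intro z _ hz
        rw [if_neg]
        intro h2
        exact hz (Option.some.inj h2).symm
      · intro h2
        exact absurd (Finset.mem_univ _) h2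
  rw [Finset.sum_congr rfl fun u _ => h1 u, Finset.sum_ite_mem, Finset.univ_inter]

private theorem kills2_eq (A B : Nb n) (S : St n) (ω : Fin n → Option (Fin n)) (v y : Fin n) :
    kills2 A B S ω v y = ∑ u, g2 A B S v y u (ω u) := by
  classical
  unfold kills2
  refine Finset.sum_congr rfl fun u _ => ?_
  rcases h : ω u with _ | z0
  · simp [g2]
  · by_cases hz0 : z0 ∈ B.N y
    · rw [Finset.sum_eq_single z0]
      · simp [g2, hz0]
      · intro z _ hz
        rw [if_neg]
        intro h2
        exact hz (Option.some.inj h2).symm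
      · intro h2
        exact absurd hz0 h2
    · have e : g2 A B S v y u (some z0) = 0 := by simp [g2, hz0]
      rw [e]
      refine Finset.sum_eq_zero fun z hz => ?_
      rw [if_neg]
      intro h2
      rw [Option.some.inj h2] at hz0
      exact hz0 hz

theorem dep_badp (v y : Fin n) : Dep (fun ω => badp A B δ ρ S ω v y) (A.N v) := by
  classical
  intro ω ω' h
  have e : kills1 A B S ω v y = kills1 A B S ω' v y := by
    unfold kills1
    refine Finset.sum_congr rfl fun u hu => ?_
    rw [h u hu]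
  show badp A B δ ρ S ω v y = badp A B δ ρ S ω' v y
  unfold badp
  rw [e]

private theorem sum_a (A B : Nb n) (S : St n) (v y : Fin n) :
    ∑ u, ∑ z, S.w u z * g1 A B S v y u (some z) =
      ∑ x ∈ cand S v y, rho A B S.w v (S.σ x) := by
  classical
  unfold rho
  have h0 : ∀ u, ∑ z, S.w u z * g1 A B S v y u (some z) =
      if u ∈ A.N v then
        ∑ z, S.w u z * (#((cand S v y).filter fun x => S.σ x ∈ B.N z) : ℝ) else 0 := by
    intro u
    by_cases hu : u ∈ A.N v
    · simp [g1, hu]
    · simp [g1, hu]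
  rw [Finset.sum_congr rfl fun u _ => h0 u, Finset.sum_ite_mem, Finset.univ_inter,
    Finset.sum_comm (s := cand S v y)]
  refine Finset.sum_congr rfl fun u _ => ?_
  have h1 : ∀ z, S.w u z * (#((cand S v y).filter fun x => S.σ x ∈ B.N z) : ℝ) =
      ∑ x ∈ cand S v y, if S.σ x ∈ B.N z then S.w u z else 0 := by
    intro z
    rw [Finset.card_filter, Nat.cast_sum, Finset.mul_sum]
    refine Finset.sum_congr rfl fun x _ => ?_
    by_cases h : S.σ x ∈ B.N z
    · simp [h]
    · simp [h]
  rw [Finset.sum_congr rfl fun z _ => h1 z, Finset.sum_comm]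
  refine Finset.sum_congr rfl fun x _ => ?_
  rw [← Finset.sum_filter]
  refine Finset.sum_congr ?_ fun _ _ => rfl
  ext z
  simp only [Finset.mem_filter, Finset.mem_univ, true_and]
  exact ⟨fun h => B.symm _ _ h, fun h => B.symm _ _ h⟩

private theorem sum_b (A B : Nb n) (S : St n) (v y : Fin n) :
    ∑ u, ∑ z, S.w u z * g2 A B S v y u (some z) =
      ∑ x ∈ cand S v y, rho A B S.w x y := by
  classical
  unfold rho
  have h0 : ∀ u, ∑ z, S.w u z * g2 A B S v y u (some z) =
      ∑ z ∈ B.N y, S.w u z * (#(cand S v y ∩ A.N u) : ℝ) := by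
    intro u
    have h2 : ∀ z, S.w u z * g2 A B S v y u (some z) =
        if z ∈ B.N y then S.w u z * (#(cand S v y ∩ A.N u) : ℝ) else 0 := by
      intro z
      by_cases hz : z ∈ B.N y
      · simp [g2, hz]
      · simp [g2, hz]
    rw [Finset.sum_congr rfl fun z _ => h2 z, Finset.sum_ite_mem, Finset.univ_inter]
  have h1 : ∀ u, ∑ z ∈ B.N y, S.w u z * (#(cand S v y ∩ A.N u) : ℝ) =
      ∑ x ∈ cand S v y, if x ∈ A.N u then ∑ z ∈ B.N y, S.w u z else 0 := by
    intro u
    rw [← Finset.sum_mul, ← Finset.filter_mem_eq_inter, Finset.card_filter, Nat.cast_sum,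
      Finset.mul_sum]
    refine Finset.sum_congr rfl fun x _ => ?_
    by_cases h : x ∈ A.N u
    · simp [h]
    · simp [h]
  rw [Finset.sum_congr rfl fun u _ => (h0 u).trans (h1 u), Finset.sum_comm]
  refine Finset.sum_congr rfl fun x _ => ?_
  rw [← Finset.sum_filter]
  refine Finset.sum_congr ?_ fun _ _ => rfl
  ext u
  simp only [Finset.mem_filter, Finset.mem_univ, true_and]
  exact ⟨fun h => A.symm _ _ h, fun h => A.symm _ _ h⟩

/-- general tail bound for a sum of functions of the single picks -/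
private theorem gen_tail (hN : Num n ε D1 D2 δ K0 W γ a ρ)
    (hI : Inv A B D1 D2 W γ a l p q S) (hD : 0 < D) (g : Fin n → Option (Fin n) → ℝ)
    (hg : ∀ u, g u none = 0) (hgn : ∀ u o, 0 ≤ g u o) (d : Fin n → Fin n → ℝ)
    (hd0 : ∀ u z, 0 ≤ d u z) (hdm : ∀ u z, d u z ≤ 1 / D) (hgd : ∀ u z, g u (some z) / n ≤ d u z)
    (hdL : ∑ u, ∑ z, δ * S.w u z * d u z ≤ 1) (M : ℝ)
    (hM : ∑ u, ∑ z, δ * S.w u z * g u (some z) ≤ M) :
    PP (mu δ S.w) (fun ω => ¬ ∑ u, g u (ω u) ≤ M + δ ^ 3 / 2 * n) ≤
      2 * Real.exp (-(δ ^ 6 / (4000 * W ^ 2) * D)) := by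
  classical
  have hprob := isProb_mu hN hI
  have hn : (1 : ℝ) ≤ n := by exact_mod_cast hN.n1
  have hn0 : (0 : ℝ) < n := by linarith
  have hδ := hN.δ0
  have hδ1 := hN.δ1
  obtain ⟨c, hc⟩ : ∃ c : Fin n → Option (Fin n) → ℝ, c = fun u o => match o with
    | none => 0
    | some z => d u z := ⟨_, rfl⟩
  have hcn : ∀ u, c u none = 0 := by
    intro u
    rw [hc]
  have hcs : ∀ u z, c u (some z) = d u z := by
    intro u z
    rw [hc]
  have hc0 : ∀ u o, 0 ≤ c u o := by
    intro u o
    rcases o with _ | z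
    · rw [hcn]
    · rw [hcs]
      exact hd0 u z
  have hcm : ∀ u o, c u o ≤ 1 / D := by
    intro u o
    rcases o with _ | z
    · rw [hcn]
      positivity
    · rw [hcs]
      exact hdm u z
  have hgoc : ∀ u o, g u o / n ≤ c u o := by
    intro u o
    rcases o with _ | z
    · rw [hcn, hg, zero_div]
    · rw [hcs]
      exact hgd u z
  have hupd : ∀ (i : Fin n) (ω : Fin n → Option (Fin n)) (o : Option (Fin n)),
      ∑ u, g u (Function.update ω i o u) = g i o + ∑ u ∈ Finset.univ.erase i, g u (ω u) := by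
    intro i ω o
    rw [← Finset.add_sum_erase _ _ (Finset.mem_univ i), Function.update_self]
    congr 1
    refine Finset.sum_congr rfl fun u hu => ?_
    rw [Function.update_of_ne (Finset.ne_of_mem_erase hu)]
  have hf : ∀ i (ω : Fin n → Option (Fin n)) a b,
      |(fun ω : Fin n → Option (Fin n) => (∑ u, g u (ω u)) / n) (Function.update ω i a) -
        (fun ω : Fin n → Option (Fin n) => (∑ u, g u (ω u)) / n) (Function.update ω i b)| ≤
        c i a + c i b := by
    intro i ω a b
    show |(∑ u, g u (Function.update ω i a u)) / n -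
      (∑ u, g u (Function.update ω i b u)) / n| ≤ c i a + c i b
    rw [hupd, hupd]
    have e : (g i a + ∑ u ∈ Finset.univ.erase i, g u (ω u)) / n -
        (g i b + ∑ u ∈ Finset.univ.erase i, g u (ω u)) / n =
        g i a / n - g i b / n := by ring
    rw [e, abs_le]
    have h1 := hgoc i a
    have h2 := hgoc i b
    have h3 : 0 ≤ g i a / n := div_nonneg (hgn i a) hn0.le
    have h4 : 0 ≤ g i b / n := div_nonneg (hgn i b) hn0.le
    constructor <;> linarith
  have hL : ∑ u, ∑ o, mu δ S.w u o * c u o ≤ 1 := by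
    have h1 : ∀ u, ∑ o, mu δ S.w u o * c u o = ∑ z, δ * S.w u z * c u (some z) := by
      intro u
      exact sum_mu (c u) (hcn u) u
    rw [Finset.sum_congr rfl fun u _ => h1 u]
    refine le_trans (le_of_eq ?_) hdL
    refine Finset.sum_congr rfl fun u _ => Finset.sum_congr rfl fun z _ => ?_
    rw [hcs]
  have ht3 : δ ^ 3 ≤ 1 := pow_le_one₀ hδ.le (by linarith)
  have htail := tail hprob c (fun ω : Fin n → Option (Fin n) => (∑ u, g u (ω u)) / n)
    (m := 1 / D) (L := 1) (t := δ ^ 3 / 2)
    hc0 hcm (by positivity) hL one_pos (by positivity) (by linarith) hf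
  have hEE : EE (mu δ S.w) (fun ω : Fin n → Option (Fin n) => (∑ u, g u (ω u)) / n) =
      EE (mu δ S.w) (fun ω : Fin n → Option (Fin n) => ∑ u, g u (ω u)) / n := by
    have e := EE_mul_const (μ := mu δ S.w) ((n : ℝ)⁻¹)
      (fun ω : Fin n → Option (Fin n) => ∑ u, g u (ω u))
    simp only [← div_eq_mul_inv] at e
    exact e
  have hEM : EE (mu δ S.w) (fun ω : Fin n → Option (Fin n) => ∑ u, g u (ω u)) ≤ M := by
    rw [EE_sum_pick hN hI g hg]
    exact hM
  refine le_trans (PP_mono hprob (B := fun ω => δ ^ 3 / 2 ≤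
    |(fun ω : Fin n → Option (Fin n) => (∑ u, g u (ω u)) / n) ω -
    EE (mu δ S.w) (fun ω : Fin n → Option (Fin n) => (∑ u, g u (ω u)) / n)|) ?_) (htail.trans ?_)
  · intro ω hω
    rw [not_le] at hω
    show δ ^ 3 / 2 ≤ |(∑ u, g u (ω u)) / n -
      EE (mu δ S.w) (fun ω : Fin n → Option (Fin n) => (∑ u, g u (ω u)) / n)|
    rw [hEE, ← sub_div]
    refine le_trans ?_ (le_abs_self _)
    rw [le_div_iff₀ hn0]
    linarith
  · refine mul_le_mul_of_nonneg_left ?_ (by norm_num)
    rw [Real.exp_le_exp, neg_le_neg_iff]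
    have hW := hN.W1
    have e1 : (δ ^ 3 / 2) ^ 2 / (16 * (1 / D) * 1) = δ ^ 6 / 64 * D := by
      field_simp
      ring
    rw [e1]
    refine mul_le_mul_of_nonneg_right ?_ hD.le
    refine div_le_div_of_nonneg_left (by positivity) (by norm_num) ?_
    nlinarith

/-- `tail` for `kills1 / n`: cost of a pick `(u,z)`, `u ∈ N₁(v)`:
`#{x ∈ cand : σ x ∈ N₂(z)}/n ≤ D2/n ≤ 1/D1 = m` (`σ` is injective on `P`), `L = 1`, `t = δ³/2`;
mean `δ ∑_{x ∈ cand} rho v (σ x) / n ≤ δ ρ #cand / n`. (See Q1.) -/
theorem badp_tail (hN : Num n ε D1 D2 δ K0 W γ a ρ) (hdg : Deg A B D1 D2)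
    (hI : Inv A B D1 D2 W γ a l p q S) (hD0 : 0 ≤ D) (hD : D ≤ D1) (v y : Fin n) :
    PP (mu δ S.w) (fun ω => badp A B δ ρ S ω v y) ≤
      2 * Real.exp (-(δ ^ 6 / (4000 * W ^ 2) * D)) := by
  classical
  have hprob := isProb_mu hN hI
  have hn : (1 : ℝ) ≤ n := by exact_mod_cast hN.n1
  have hn0 : (0 : ℝ) < n := by linarith
  rcases eq_or_lt_of_le hD0 with hDz | hDp
  · rw [← hDz, mul_zero, neg_zero, Real.exp_zero]
    have := PP_le_one hprob (fun ω => badp A B δ ρ S ω v y)
    linarith
  have hD2 := hN.hD2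
  have hDD : D1 * D2 ≤ n := by
    have h1 := hN.hDD
    have h2 := mul_nonneg hN.ε0.le hn0.le
    linarith
  have hδ := hN.δ0
  have hδ1 := hN.δ1
  have hq : 0 ≤ D2 / n := by positivity
  have hcard : ∀ z, (#((cand S v y).filter fun x => S.σ x ∈ B.N z) : ℝ) ≤ D2 := by
    intro z
    refine le_trans ?_ (hdg.dB z)
    have h1 : #((cand S v y).filter fun x => S.σ x ∈ B.N z) ≤ #(B.N z) := by
      refine Finset.card_le_card_of_injOn S.σ ?_ ?_
      · intro x hx
        rw [Finset.mem_coe, Finset.mem_filter] at hx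
        exact hx.2
      · intro x hx x' hx' he
        rw [Finset.mem_coe, Finset.mem_filter] at hx hx'
        refine hI.inj ?_ ?_ he
        · exact (Finset.mem_filter.1 hx.1).1
        · exact (Finset.mem_filter.1 hx'.1).1
    exact_mod_cast h1
  have hmain := gen_tail (D := D) hN hI hDp (g1 A B S v y) (fun _ => rfl)
    (by
      intro u o
      rcases o with _ | z
      · exact le_refl _
      · simp only [g1]
        split_ifs
        · exact Nat.cast_nonneg _
        · exact le_refl _)
    (fun u z => if u ∈ A.N v then D2 / n else 0)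
    (by
      intro u z
      show (0 : ℝ) ≤ if u ∈ A.N v then D2 / n else 0
      split_ifs
      · exact hq
      · exact le_refl _)
    (by
      intro u z
      have h1 : D2 / n ≤ 1 / D := by
        rw [div_le_div_iff₀ hn0 hDp]
        nlinarith
      show (if u ∈ A.N v then D2 / (n : ℝ) else 0) ≤ 1 / D
      split_ifs
      · exact h1
      · positivity)
    (by
      intro u z
      simp only [g1]
      split_ifs
      · exact div_le_div_of_nonneg_right (hcard z) hn0.le
      · rw [zero_div])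
    (by
      have h2 : ∑ u, ∑ z, δ * S.w u z * (if u ∈ A.N v then D2 / (n : ℝ) else 0) =
          ∑ u ∈ A.N v, δ * ((∑ z, S.w u z) * (D2 / n)) := by
        have h3 : ∀ u, ∑ z, δ * S.w u z * (if u ∈ A.N v then D2 / (n : ℝ) else 0) =
            if u ∈ A.N v then δ * ((∑ z, S.w u z) * (D2 / n)) else 0 := by
          intro u
          by_cases hu : u ∈ A.N v
          · simp only [hu, if_true]
            rw [Finset.sum_mul, Finset.mul_sum]
            refine Finset.sum_congr rfl fun z _ => ?_
            ring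
          · simp [hu]
        rw [Finset.sum_congr rfl fun u _ => h3 u, Finset.sum_ite_mem, Finset.univ_inter]
      rw [h2]
      have h4 : ∀ u ∈ A.N v, δ * ((∑ z, S.w u z) * (D2 / n)) ≤ δ * ((1 + γ) * (D2 / n)) := by
        intro u _
        exact mul_le_mul_of_nonneg_left
          (mul_le_mul_of_nonneg_right (rowsum_le hI hN.γ0 u) hq) hδ.le
      refine (Finset.sum_le_sum h4).trans ?_
      rw [Finset.sum_const, nsmul_eq_mul]
      have hγ := hN.γ0
      have hγ1 := hN.γ1
      have h5 : (#(A.N v) : ℝ) * (δ * ((1 + γ) * (D2 / n))) ≤ D1 * (δ * ((1 + γ) * (D2 / n))) := by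
        refine mul_le_mul_of_nonneg_right (hdg.dA v) ?_
        positivity
      have h6 : D1 * (δ * ((1 + γ) * (D2 / n))) = δ * (1 + γ) * (D1 * D2 / n) := by ring
      have h7 : D1 * D2 / n ≤ 1 := by rwa [div_le_one hn0]
      have h8 : δ * (1 + γ) * (D1 * D2 / n) ≤ δ * (1 + γ) * 1 :=
        mul_le_mul_of_nonneg_left h7 (by positivity)
      nlinarith)
    (δ * ρ * #(cand S v y))
    (by
      have h1 : ∑ u, ∑ z, δ * S.w u z * g1 A B S v y u (some z) =
          δ * ∑ x ∈ cand S v y, rho A B S.w v (S.σ x) := by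
        rw [← sum_a, Finset.mul_sum]
        refine Finset.sum_congr rfl fun u _ => ?_
        rw [Finset.mul_sum]
        refine Finset.sum_congr rfl fun z _ => ?_
        ring
      rw [h1]
      have h3 : ∑ x ∈ cand S v y, rho A B S.w v (S.σ x) ≤ ρ * #(cand S v y) := by
        calc ∑ x ∈ cand S v y, rho A B S.w v (S.σ x) ≤ ∑ x ∈ cand S v y, ρ :=
              Finset.sum_le_sum fun x _ => rho_le hN hI v (S.σ x)
          _ = ρ * #(cand S v y) := by rw [Finset.sum_const, nsmul_eq_mul, mul_comm]
      have h5 := mul_le_mul_of_nonneg_left h3 hδ.le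
      linarith)
  refine le_trans (le_of_eq ?_) hmain
  congr 1
  funext ω
  show badp A B δ ρ S ω v y = _
  unfold badp
  rw [kills1_eq]

/-- `tail` for `kills2 / n`: cost `D1/n ≤ 1/D2 = m`, `L = 1`, `t = δ³/2`; mean
`δ ∑_{x ∈ cand} rho x y / n`. -/
theorem kills2_tail (hN : Num n ε D1 D2 δ K0 W γ a ρ) (hdg : Deg A B D1 D2)
    (hI : Inv A B D1 D2 W γ a l p q S) (hD0 : 0 ≤ D) (hD : D ≤ D2) (v y : Fin n) :
    PP (mu δ S.w) (fun ω => ¬ kills2 A B S ω v y ≤
      δ * ρ * #(cand S v y) + δ ^ 3 / 2 * n) ≤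
      2 * Real.exp (-(δ ^ 6 / (4000 * W ^ 2) * D)) := by
  classical
  have hprob := isProb_mu hN hI
  have hn : (1 : ℝ) ≤ n := by exact_mod_cast hN.n1
  have hn0 : (0 : ℝ) < n := by linarith
  rcases eq_or_lt_of_le hD0 with hDz | hDp
  · rw [← hDz, mul_zero, neg_zero, Real.exp_zero]
    have := PP_le_one hprob (fun ω => ¬ kills2 A B S ω v y ≤
      δ * ρ * #(cand S v y) + δ ^ 3 / 2 * n)
    linarith
  have hD1 := hN.hD1
  have hDD : D1 * D2 ≤ n := by
    have h1 := hN.hDD
    have h2 := mul_nonneg hN.ε0.le hn0.le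
    linarith
  have hδ := hN.δ0
  have hδ1 := hN.δ1
  have hq : 0 ≤ D1 / n := by positivity
  have hcard : ∀ u, (#(cand S v y ∩ A.N u) : ℝ) ≤ D1 := by
    intro u
    refine le_trans ?_ (hdg.dA u)
    have h1 : #(cand S v y ∩ A.N u) ≤ #(A.N u) :=
      Finset.card_le_card Finset.inter_subset_right
    exact_mod_cast h1
  have hmain := gen_tail (D := D) hN hI hDp (g2 A B S v y) (fun _ => rfl)
    (by
      intro u o
      rcases o with _ | z
      · exact le_refl _
      · simp only [g2]
        split_ifs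
        · exact Nat.cast_nonneg _
        · exact le_refl _)
    (fun u z => if z ∈ B.N y then D1 / n else 0)
    (by
      intro u z
      show (0 : ℝ) ≤ if z ∈ B.N y then D1 / n else 0
      split_ifs
      · exact hq
      · exact le_refl _)
    (by
      intro u z
      have h1 : D1 / n ≤ 1 / D := by
        rw [div_le_div_iff₀ hn0 hDp]
        nlinarith
      show (if z ∈ B.N y then D1 / (n : ℝ) else 0) ≤ 1 / D
      split_ifs
      · exact h1
      · positivity)
    (by
      intro u z
      simp only [g2]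
      split_ifs
      · exact div_le_div_of_nonneg_right (hcard u) hn0.le
      · rw [zero_div])
    (by
      have h2 : ∑ u, ∑ z, δ * S.w u z * (if z ∈ B.N y then D1 / (n : ℝ) else 0) =
          ∑ z ∈ B.N y, δ * ((∑ u, S.w u z) * (D1 / n)) := by
        rw [Finset.sum_comm]
        have h3 : ∀ z, ∑ u, δ * S.w u z * (if z ∈ B.N y then D1 / (n : ℝ) else 0) =
            if z ∈ B.N y then δ * ((∑ u, S.w u z) * (D1 / n)) else 0 := by
          intro z
          by_cases hz : z ∈ B.N y
          · simp only [hz, if_true]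
            rw [Finset.sum_mul, Finset.mul_sum]
            refine Finset.sum_congr rfl fun u _ => ?_
            ring
          · simp [hz]
        rw [Finset.sum_congr rfl fun z _ => h3 z, Finset.sum_ite_mem, Finset.univ_inter]
      rw [h2]
      have h4 : ∀ z ∈ B.N y, δ * ((∑ u, S.w u z) * (D1 / n)) ≤ δ * ((1 + γ) * (D1 / n)) := by
        intro z _
        exact mul_le_mul_of_nonneg_left
          (mul_le_mul_of_nonneg_right (colsum_le hI hN.γ0 z) hq) hδ.le
      refine (Finset.sum_le_sum h4).trans ?_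
      rw [Finset.sum_const, nsmul_eq_mul]
      have hγ := hN.γ0
      have hγ1 := hN.γ1
      have h5 : (#(B.N y) : ℝ) * (δ * ((1 + γ) * (D1 / n))) ≤ D2 * (δ * ((1 + γ) * (D1 / n))) := by
        refine mul_le_mul_of_nonneg_right (hdg.dB y) ?_
        positivity
      have h6 : D2 * (δ * ((1 + γ) * (D1 / n))) = δ * (1 + γ) * (D1 * D2 / n) := by ring
      have h7 : D1 * D2 / n ≤ 1 := by rwa [div_le_one hn0]
      have h8 : δ * (1 + γ) * (D1 * D2 / n) ≤ δ * (1 + γ) * 1 :=
        mul_le_mul_of_nonneg_left h7 (by positivity)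
      nlinarith)
    (δ * ρ * #(cand S v y))
    (by
      have h1 : ∑ u, ∑ z, δ * S.w u z * g2 A B S v y u (some z) =
          δ * ∑ x ∈ cand S v y, rho A B S.w x y := by
        rw [← sum_b, Finset.mul_sum]
        refine Finset.sum_congr rfl fun u _ => ?_
        rw [Finset.mul_sum]
        refine Finset.sum_congr rfl fun z _ => ?_
        ring
      rw [h1]
      have h3 : ∑ x ∈ cand S v y, rho A B S.w x y ≤ ρ * #(cand S v y) := by
        calc ∑ x ∈ cand S v y, rho A B S.w x y ≤ ∑ x ∈ cand S v y, ρ :=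
              Finset.sum_le_sum fun x _ => rho_le hN hI x y
          _ = ρ * #(cand S v y) := by rw [Finset.sum_const, nsmul_eq_mul, mul_comm]
      have h5 := mul_le_mul_of_nonneg_left h3 hδ.le
      linarith)
  refine le_trans (le_of_eq ?_) hmain
  congr 1
  funext ω
  rw [kills2_eq]

end Pool.Agent.Helper5.BEC.B
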