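import Pool.Agent.Helper5.BEC.B.K
import Pool.Agent.Helper5.BEC.St.T1
/-! Stage B, piece L: numbers of new bad pairs in rows and columns. -/
set_option autoImplicit false
namespace Pool.Agent.Helper5.BEC.B
open Finset Pool.Agent.Helper61.LE Pool.Agent.Helper5.BEC

variable {n : ℕ} {A B : Nb n} {ε D1 D2 D δ K0 W γ a ρ l p q ζ : ℝ} {S : St n}

open Classical in
theorem dep_badrow (v : Fin n) :
    Dep (fun ω => ¬ (#(univ.filter fun y => badp A B δ ρ S ω v y) : ℝ) ≤ ζ * n) (A.N v) := by
  intro ω ω' hω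
  have h : ∀ y, badp A B δ ρ S ω v y = badp A B δ ρ S ω' v y :=
    fun y => dep_badp v y ω ω' hω
  have h2 : (univ.filter fun y => badp A B δ ρ S ω v y) =
      univ.filter fun y => badp A B δ ρ S ω' v y := by
    apply Finset.filter_congr
    intro y _
    rw [h y]
  change (¬ (#(univ.filter fun y => badp A B δ ρ S ω v y) : ℝ) ≤ ζ * n) =
    (¬ (#(univ.filter fun y => badp A B δ ρ S ω' v y) : ℝ) ≤ ζ * n)
  rw [h2]

open Classical in
/-- Markov's inequality: the expected number of bad `y` is at most `2 n e` (`badp_tail`). -/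
theorem badrow_tail (hN : Num n ε D1 D2 δ K0 W γ a ρ) (hdg : Deg A B D1 D2)
    (hI : Inv A B D1 D2 W γ a l p q S) (hD0 : 0 ≤ D) (hD : D ≤ D1) (hζ : 0 < ζ) (v : Fin n) :
    PP (mu δ S.w) (fun ω => ¬ (#(univ.filter fun y => badp A B δ ρ S ω v y) : ℝ) ≤ ζ * n) ≤
      2 / ζ * Real.exp (-(δ ^ 6 / (4000 * W ^ 2) * D)) := by
  have hP := isProb_mu hN hI
  have hn : (0 : ℝ) < n := by exact_mod_cast hN.n1
  have hζn : 0 < ζ * n := mul_pos hζ hn
  have hcard : ∀ ω, (#(univ.filter fun y => badp A B δ ρ S ω v y) : ℝ) =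
      ∑ y, if badp A B δ ρ S ω v y then (1 : ℝ) else 0 := by
    intro ω
    rw [Finset.sum_boole]
  have h1 : PP (mu δ S.w)
      (fun ω => ¬ (#(univ.filter fun y => badp A B δ ρ S ω v y) : ℝ) ≤ ζ * n) ≤
      EE (mu δ S.w) (fun ω => 1 / (ζ * n) * ∑ y, if badp A B δ ρ S ω v y then (1 : ℝ) else 0) := by
    unfold PP
    refine EE_mono hP fun ω => ?_
    rw [← hcard]
    split_ifs with h
    · rw [div_mul_eq_mul_div, one_mul, le_div_iff₀ hζn]
      have h' : ¬ (#(univ.filter fun y => badp A B δ ρ S ω v y) : ℝ) ≤ ζ * n := h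
      have := not_le.1 h'
      linarith
    · exact mul_nonneg (by positivity) (Nat.cast_nonneg _)
  have h2 : EE (mu δ S.w)
      (fun ω => 1 / (ζ * n) * ∑ y, if badp A B δ ρ S ω v y then (1 : ℝ) else 0) =
      1 / (ζ * n) * ∑ y, PP (mu δ S.w) (fun ω => badp A B δ ρ S ω v y) := by
    rw [EE_const_mul, EE_sum]
    rfl
  have h3 : ∑ y : Fin n, PP (mu δ S.w) (fun ω => badp A B δ ρ S ω v y) ≤
      ∑ _y : Fin n, 2 * Real.exp (-(δ ^ 6 / (4000 * W ^ 2) * D)) :=
    Finset.sum_le_sum fun y _ => badp_tail hN hdg hI hD0 hD v y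
  rw [Finset.sum_const, Finset.card_univ, Fintype.card_fin, nsmul_eq_mul] at h3
  refine h1.trans ?_
  rw [h2]
  refine (mul_le_mul_of_nonneg_left h3 (by positivity)).trans (le_of_eq ?_)
  field_simp

open Classical in
/-- `tail` for `f ω = #{v : (v,y) bad} / n`. The mean is at most `2 e ≤ ζ/2`; changing the
coordinate `u` changes only the `v` with `u ∈ N₁(v)`, i.e. `v ∈ N₁(u)`, at most `D1` of them
(`dep_badp`): costs `c u a = D1/(2n) = m` for all `a`, `L = D1/2`, `t = ζ/2`:
`t²/(16 m L) = ζ² n / (16 D1²)`. -/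
theorem badcol_tail (hN : Num n ε D1 D2 δ K0 W γ a ρ) (hdg : Deg A B D1 D2)
    (hI : Inv A B D1 D2 W γ a l p q S) (hζ : 0 < ζ) (hζ1 : ζ ≤ 1)
    (hs : 4 * Real.exp (-(δ ^ 6 / (4000 * W ^ 2) * D1)) ≤ ζ) (y : Fin n) :
    PP (mu δ S.w) (fun ω => ¬ (#(univ.filter fun v => badp A B δ ρ S ω v y) : ℝ) ≤ ζ * n) ≤
      2 * Real.exp (-(ζ ^ 2 * n / (16 * D1 ^ 2))) := by
  have hP := isProb_mu hN hI
  have hn : (0 : ℝ) < n := by exact_mod_cast hN.n1
  have hD1 : (0 : ℝ) < D1 := lt_of_lt_of_le one_pos hN.hD1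
  have hcard : ∀ ω, (#(univ.filter fun v => badp A B δ ρ S ω v y) : ℝ) =
      ∑ v, if badp A B δ ρ S ω v y then (1 : ℝ) else 0 := by
    intro ω
    rw [Finset.sum_boole]
  let f : (Fin n → Option (Fin n)) → ℝ :=
    fun ω => 1 / (n : ℝ) * ∑ v, if badp A B δ ρ S ω v y then (1 : ℝ) else 0
  have hmean : EE (mu δ S.w) f ≤ ζ / 2 := by
    have h2 : EE (mu δ S.w) f =
        1 / (n : ℝ) * ∑ v, PP (mu δ S.w) (fun ω => badp A B δ ρ S ω v y) := by
      change EE (mu δ S.w)
        (fun ω => 1 / (n : ℝ) * ∑ v, if badp A B δ ρ S ω v y then (1 : ℝ) else 0) = _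
      rw [EE_const_mul, EE_sum]
      rfl
    have h3 : ∑ v : Fin n, PP (mu δ S.w) (fun ω => badp A B δ ρ S ω v y) ≤
        ∑ _v : Fin n, 2 * Real.exp (-(δ ^ 6 / (4000 * W ^ 2) * D1)) :=
      Finset.sum_le_sum fun v _ => badp_tail hN hdg hI hD1.le le_rfl v y
    rw [Finset.sum_const, Finset.card_univ, Fintype.card_fin, nsmul_eq_mul] at h3
    rw [h2]
    refine (mul_le_mul_of_nonneg_left h3 (by positivity)).trans ?_
    rw [← mul_assoc, one_div, inv_mul_cancel₀ hn.ne', one_mul]
    linarith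
  have hdiff : ∀ (u : Fin n) (ω : Fin n → Option (Fin n)) (b b' : Option (Fin n)),
      |f (Function.update ω u b) - f (Function.update ω u b')| ≤
        D1 / (2 * n) + D1 / (2 * n) := by
    intro u ω b b'
    change |1 / (n : ℝ) * (∑ v, if badp A B δ ρ S (Function.update ω u b) v y then (1 : ℝ) else 0) -
      1 / (n : ℝ) * (∑ v, if badp A B δ ρ S (Function.update ω u b') v y then (1 : ℝ) else 0)| ≤ _
    rw [← mul_sub, ← Finset.sum_sub_distrib, abs_mul, abs_of_pos (show (0 : ℝ) < 1 / n by positivity)]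
    have h4 : ∀ v : Fin n, |(if badp A B δ ρ S (Function.update ω u b) v y then (1 : ℝ) else 0) -
        (if badp A B δ ρ S (Function.update ω u b') v y then (1 : ℝ) else 0)| ≤
        if v ∈ A.N u then (1 : ℝ) else 0 := by
      intro v
      by_cases hv : u ∈ A.N v
      · rw [if_pos (A.symm _ _ hv)]
        split_ifs <;> norm_num
      · have hdep : badp A B δ ρ S (Function.update ω u b) v y =
            badp A B δ ρ S (Function.update ω u b') v y := by
          apply dep_badp v y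
          intro i hi
          have hne : i ≠ u := by
            rintro rfl
            exact hv hi
          rw [Function.update_of_ne hne, Function.update_of_ne hne]
        simp only [hdep, sub_self, abs_zero]
        split_ifs <;> norm_num
    have h5 : |∑ v : Fin n, ((if badp A B δ ρ S (Function.update ω u b) v y then (1 : ℝ) else 0) -
        (if badp A B δ ρ S (Function.update ω u b') v y then (1 : ℝ) else 0))| ≤ D1 := by
      refine (Finset.abs_sum_le_sum_abs _ _).trans ((Finset.sum_le_sum fun v _ => h4 v).trans ?_)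
      rw [Finset.sum_boole, Finset.filter_mem_eq_inter, Finset.univ_inter]
      exact hdg.dA u
    refine (mul_le_mul_of_nonneg_left h5 (by positivity)).trans (le_of_eq ?_)
    field_simp
    ring
  have htail := tail hP (fun _ _ => D1 / (2 * n)) f (m := D1 / (2 * n)) (L := D1 / 2)
    (t := ζ / 2) (fun _ _ => by positivity) (fun _ _ => le_rfl) (by positivity)
    (by
      have h6 : ∀ i : Fin n, ∑ x : Option (Fin n), mu δ S.w i x * (D1 / (2 * n)) =
          D1 / (2 * n) := by
        intro i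
        rw [← Finset.sum_mul, hP.sum_one, one_mul]
      simp only [h6]
      rw [Finset.sum_const, Finset.card_univ, Fintype.card_fin, nsmul_eq_mul]
      apply le_of_eq
      field_simp)
    (by positivity) (by positivity)
    (by
      have := hN.hD1
      linarith) hdiff
  have hexp : (ζ / 2) ^ 2 / (16 * (D1 / (2 * n)) * (D1 / 2)) = ζ ^ 2 * n / (16 * D1 ^ 2) := by
    field_simp
    try ring
  rw [hexp] at htail
  refine (PP_mono hP fun ω hω => ?_).trans htail
  rw [hcard] at hω
  have h7 : ζ < f ω := by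
    change ζ < 1 / (n : ℝ) * ∑ v, if badp A B δ ρ S ω v y then (1 : ℝ) else 0
    rw [div_mul_eq_mul_div, one_mul, lt_div_iff₀ hn]
    exact not_le.1 hω
  refine le_trans ?_ (le_abs_self _)
  linarith

end Pool.Agent.Helper5.BEC.B
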