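import Pool.Agent.Helper5.BEC.St.B1
import Pool.Agent.Helper5.BEC.B.Defs
/-! Stage B, piece M: total weight of the atomic events through one vertex. -/
set_option autoImplicit false
namespace Pool.Agent.Helper5.BEC.B
open Finset Pool.Agent.Helper61.LE Pool.Agent.Helper5.BEC

variable {n : ℕ} {A B : Nb n} {ε D1 D2 D δ K0 W γ a ρ l p q : ℝ} {S : St n}

/-- `∑_{|M| = m} ∏_{t ∈ M} f t ≤ exp (-m) ∏_{t ∈ T} (1 + e f t) ≤ exp (-m + e ∑ f)`
(`Finset.prod_one_add` or `Finset.prod_add`). -/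
theorem esymm_le {α : Type*} [DecidableEq α] (T : Finset α) (f : α → ℝ) (hf : ∀ t ∈ T, 0 ≤ f t)
    (m : ℕ) : ∑ M ∈ T.powersetCard m, ∏ t ∈ M, f t ≤
      Real.exp (-(m : ℝ) + Real.exp 1 * ∑ t ∈ T, f t) := by
  have he : 0 < Real.exp 1 := Real.exp_pos 1
  have h1 : ∏ t ∈ T, (1 + Real.exp 1 * f t) ≤ Real.exp (Real.exp 1 * ∑ t ∈ T, f t) := by
    rw [Finset.mul_sum, Real.exp_sum]
    refine Finset.prod_le_prod (fun t ht => ?_) fun t _ => ?_
    · have := mul_nonneg he.le (hf t ht)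
      linarith
    · have := Real.add_one_le_exp (Real.exp 1 * f t)
      linarith
  have h2 : Real.exp (m : ℝ) * ∑ M ∈ T.powersetCard m, ∏ t ∈ M, f t ≤
      ∏ t ∈ T, (1 + Real.exp 1 * f t) := by
    rw [Finset.prod_one_add, Finset.mul_sum]
    have h3 : ∀ M ∈ T.powersetCard m, Real.exp (m : ℝ) * ∏ t ∈ M, f t =
        ∏ t ∈ M, (Real.exp 1 * f t) := by
      intro M hM
      rw [Finset.prod_mul_distrib, Finset.prod_const, (Finset.mem_powersetCard.1 hM).2,
        ← Real.exp_nat_mul, mul_one]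
    rw [Finset.sum_congr rfl h3]
    refine Finset.sum_le_sum_of_subset_of_nonneg ?_ ?_
    · intro M hM
      exact Finset.mem_powerset.2 (Finset.mem_powersetCard.1 hM).1
    · intro M hM _
      exact Finset.prod_nonneg fun t ht =>
        mul_nonneg he.le (hf t (Finset.mem_powerset.1 hM ht))
  have h4 := h2.trans h1
  rw [Real.exp_add, Real.exp_neg]
  have hm : 0 < Real.exp (m : ℝ) := Real.exp_pos _
  calc ∑ M ∈ T.powersetCard m, ∏ t ∈ M, f t =
      (Real.exp (m : ℝ))⁻¹ * (Real.exp (m : ℝ) * ∑ M ∈ T.powersetCard m, ∏ t ∈ M, f t) := by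
        field_simp
    _ ≤ _ := mul_le_mul_of_nonneg_left h4 (inv_nonneg.2 hm.le)

/-- `∑_{M ∋ t} ∏ ≤ f t ∑_{|M'| = m - 1} ∏` -/
theorem esymm_mem {α : Type*} [DecidableEq α] (T : Finset α) (f : α → ℝ) (hf : ∀ t ∈ T, 0 ≤ f t)
    (m : ℕ) (hm : 1 ≤ m) (t : α) (ht : t ∈ T) :
    ∑ M ∈ (T.powersetCard m).filter (fun M => t ∈ M), ∏ s ∈ M, f s ≤
      f t * Real.exp (1 - (m : ℝ) + Real.exp 1 * ∑ t ∈ T, f t) := by
  have h1 : ∑ M ∈ (T.powersetCard m).filter (fun M => t ∈ M), ∏ s ∈ M, f s =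
      ∑ M ∈ (T.erase t).powersetCard (m - 1), f t * ∏ s ∈ M, f s := by
    refine Finset.sum_nbij' (fun M => M.erase t) (fun M => insert t M) ?_ ?_ ?_ ?_ ?_
    · intro M hM
      rw [Finset.mem_filter, Finset.mem_powersetCard] at hM
      rw [Finset.mem_powersetCard]
      refine ⟨Finset.erase_subset_erase t hM.1.1, ?_⟩
      rw [Finset.card_erase_of_mem hM.2, hM.1.2]
    · intro M hM
      rw [Finset.mem_powersetCard] at hM
      have hn : t ∉ M := fun h => (Finset.mem_erase.1 (hM.1 h)).1 rfl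
      rw [Finset.mem_filter, Finset.mem_powersetCard]
      refine ⟨⟨Finset.insert_subset ht fun s hs => (Finset.mem_erase.1 (hM.1 hs)).2, ?_⟩,
        Finset.mem_insert_self _ _⟩
      rw [Finset.card_insert_of_notMem hn, hM.2]
      omega
    · intro M hM
      rw [Finset.mem_filter] at hM
      exact Finset.insert_erase hM.2
    · intro M hM
      rw [Finset.mem_powersetCard] at hM
      have hn : t ∉ M := fun h => (Finset.mem_erase.1 (hM.1 h)).1 rfl
      exact Finset.erase_insert hn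
    · intro M hM
      rw [Finset.mem_filter] at hM
      exact (Finset.mul_prod_erase M f hM.2).symm
  rw [h1, ← Finset.mul_sum]
  refine mul_le_mul_of_nonneg_left ?_ (hf t ht)
  refine (esymm_le (T.erase t) f (fun s hs => hf s (Finset.mem_of_mem_erase hs)) (m - 1)).trans ?_
  refine Real.exp_le_exp.2 ?_
  have h2 : ((m - 1 : ℕ) : ℝ) = (m : ℝ) - 1 := by
    rw [Nat.cast_sub hm, Nat.cast_one]
  have h3 : ∑ s ∈ T.erase t, f s ≤ ∑ s ∈ T, f s :=
    Finset.sum_le_sum_of_subset_of_nonneg (Finset.erase_subset _ _) fun s hs _ => hf s hs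
  have h4 := mul_le_mul_of_nonneg_left h3 (Real.exp_pos 1).le
  rw [h2]
  linarith

theorem ft_nonneg (hI : Inv A B D1 D2 W γ a l p q S) (hδ : 0 ≤ δ) (t : Fin n × Fin n × Fin n) :
    0 ≤ ft δ S.w t :=
  mul_nonneg (mul_nonneg hδ (hI.w0 _ _)) (mul_nonneg hδ (hI.w0 _ _))

theorem two_sum (hN : Num n ε D1 D2 δ K0 W γ a ρ)
    (hI : Inv A B D1 D2 W γ a l p q S) (u : Fin n) :
    ∑ u' : Fin n, ∑ z : Fin n, δ * S.w u z * (δ * S.w u' z) ≤ 105 / 100 * δ ^ 2 := by
  have hγ0 := hN.γ0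
  have hγ1 := hN.γ1
  have hδ0 := hN.δ0
  rw [Finset.sum_comm]
  calc ∑ z : Fin n, ∑ u' : Fin n, δ * S.w u z * (δ * S.w u' z)
      ≤ ∑ z : Fin n, δ ^ 2 * (1 + γ) * S.w u z := by
        refine Finset.sum_le_sum fun z _ => ?_
        rw [← Finset.mul_sum, ← Finset.mul_sum]
        have h1 := colsum_le hI hγ0 z
        have h2 : 0 ≤ δ ^ 2 * S.w u z := mul_nonneg (sq_nonneg _) (hI.w0 _ _)
        nlinarith [mul_le_mul_of_nonneg_left h1 h2]
    _ = δ ^ 2 * (1 + γ) * ∑ z : Fin n, S.w u z := by rw [Finset.mul_sum]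
    _ ≤ δ ^ 2 * (1 + γ) * (1 + γ) :=
        mul_le_mul_of_nonneg_left (rowsum_le hI hγ0 u)
          (mul_nonneg (sq_nonneg _) (by linarith))
    _ ≤ 105 / 100 * δ ^ 2 := by
        have h3 : (1 + γ) * (1 + γ) ≤ 105 / 100 := by nlinarith
        nlinarith [mul_le_mul_of_nonneg_left h3 (sq_nonneg δ)]

/-- `∑_{t ∈ tri v} f t ≤ δ² (1+γ)² D1 ≤ 1.05 δ² D1` -/
theorem tri_sum (hN : Num n ε D1 D2 δ K0 W γ a ρ) (hdg : Deg A B D1 D2)
    (hI : Inv A B D1 D2 W γ a l p q S) (v : Fin n) :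
    ∑ t ∈ tri A v, ft δ S.w t ≤ 105 / 100 * δ ^ 2 * D1 := by
  have hδ0 := hN.δ0
  have hsub : tri A v ⊆ (A.N v) ×ˢ ((univ : Finset (Fin n)) ×ˢ (univ : Finset (Fin n))) := by
    intro t ht
    unfold tri at ht
    rw [Finset.mem_filter] at ht
    simp [ht.2.1]
  calc ∑ t ∈ tri A v, ft δ S.w t
      ≤ ∑ t ∈ (A.N v) ×ˢ ((univ : Finset (Fin n)) ×ˢ (univ : Finset (Fin n))), ft δ S.w t :=
        Finset.sum_le_sum_of_subset_of_nonneg hsub fun t _ _ => ft_nonneg hI hδ0.le t
    _ = ∑ u ∈ A.N v, ∑ u' : Fin n, ∑ z : Fin n, δ * S.w u z * (δ * S.w u' z) := by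
        rw [Finset.sum_product]
        refine Finset.sum_congr rfl fun u _ => ?_
        rw [Finset.sum_product]
        rfl
    _ ≤ ∑ u ∈ A.N v, 105 / 100 * δ ^ 2 := Finset.sum_le_sum fun u _ => two_sum hN hI u
    _ = #(A.N v) * (105 / 100 * δ ^ 2) := by rw [Finset.sum_const, nsmul_eq_mul]
    _ ≤ D1 * (105 / 100 * δ ^ 2) :=
        mul_le_mul_of_nonneg_right (hdg.dA v) (by positivity)
    _ = 105 / 100 * δ ^ 2 * D1 := by ring

/-- The triples `t` at all `v` with `x ∈ tc t`: `t.1 = x` forces `v ∈ N₁(x)`; `t.2.1 = x` gives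
`∑_u |N₁(u)| ∑_z δ² w(u,z) w(x,z)`. Each of the two sums is at most `δ² (1+γ)² D1`. -/
theorem tri_mem_sum (hN : Num n ε D1 D2 δ K0 W γ a ρ) (hdg : Deg A B D1 D2)
    (hI : Inv A B D1 D2 W γ a l p q S) (x : Fin n) :
    ∑ v, ∑ t ∈ (tri A v).filter (fun t => x ∈ tc t), ft δ S.w t ≤ 3 * δ ^ 2 * D1 := by
  classical
  have hδ0 := hN.δ0
  have hD1 := hN.hD1
  -- first kind
  let g1 : Fin n → Fin n × Fin n × Fin n → ℝ := fun v t =>
    if v ∈ A.N x ∧ t.1 = x then ft δ S.w t else 0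
  let g2 : Fin n → Fin n × Fin n × Fin n → ℝ := fun v t =>
    if v ∈ A.N t.1 ∧ t.2.1 = x then ft δ S.w t else 0
  have hg1 : ∀ v t, 0 ≤ g1 v t := by
    intro v t
    simp only [g1]
    split_ifs
    · exact ft_nonneg hI hδ0.le t
    · exact le_rfl
  have hg2 : ∀ v t, 0 ≤ g2 v t := by
    intro v t
    simp only [g2]
    split_ifs
    · exact ft_nonneg hI hδ0.le t
    · exact le_rfl
  have h1 : ∀ v, ∑ t ∈ (tri A v).filter (fun t => x ∈ tc t), ft δ S.w t ≤
      ∑ t : Fin n × Fin n × Fin n, (g1 v t + g2 v t) := by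
    intro v
    refine (Finset.sum_le_sum (g := fun t => g1 v t + g2 v t) fun t ht => ?_).trans
      (Finset.sum_le_sum_of_subset_of_nonneg (Finset.subset_univ _)
        fun t _ _ => add_nonneg (hg1 v t) (hg2 v t))
    rw [Finset.mem_filter] at ht
    have ht1 : t.1 ∈ A.N v ∧ t.2.1 ≠ t.1 := by
      have := ht.1
      unfold tri at this
      rw [Finset.mem_filter] at this
      exact this.2
    have hv : v ∈ A.N t.1 := A.symm t.1 v ht1.1
    have hx := ht.2
    unfold tc at hx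
    rw [Finset.mem_insert, Finset.mem_singleton] at hx
    rcases hx with hx | hx
    · have : g1 v t = ft δ S.w t := by
        simp only [g1]
        rw [if_pos]
        exact ⟨hx ▸ hv, hx.symm⟩
      rw [this]
      exact le_add_of_nonneg_right (hg2 v t)
    · have : g2 v t = ft δ S.w t := by
        simp only [g2]
        rw [if_pos]
        exact ⟨hv, hx.symm⟩
      rw [this]
      exact le_add_of_nonneg_left (hg1 v t)
  have h2 : ∑ v, ∑ t : Fin n × Fin n × Fin n, g1 v t ≤ 105 / 100 * δ ^ 2 * D1 := by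
    have e1 : ∀ v, ∑ t : Fin n × Fin n × Fin n, g1 v t =
        if v ∈ A.N x then ∑ u' : Fin n, ∑ z : Fin n, δ * S.w x z * (δ * S.w u' z) else 0 := by
      intro v
      rw [Fintype.sum_prod_type]
      have e2 : ∀ u : Fin n, ∑ y : Fin n × Fin n, g1 v (u, y) =
          if u = x then (if v ∈ A.N x then
            ∑ u' : Fin n, ∑ z : Fin n, δ * S.w x z * (δ * S.w u' z) else 0) else 0 := by
        intro u
        by_cases hu : u = x
        · subst hu
          rw [if_pos rfl]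
          by_cases hv : v ∈ A.N u
          · rw [if_pos hv, Fintype.sum_prod_type]
            refine Finset.sum_congr rfl fun u' _ => Finset.sum_congr rfl fun z _ => ?_
            simp only [g1]
            rw [if_pos ⟨hv, trivial⟩]
            rfl
          · rw [if_neg hv]
            refine Finset.sum_eq_zero fun y _ => ?_
            simp only [g1]
            rw [if_neg]
            exact fun h => hv h.1
        · rw [if_neg hu]
          refine Finset.sum_eq_zero fun y _ => ?_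
          simp only [g1]
          rw [if_neg]
          exact fun h => hu h.2
      rw [Finset.sum_congr rfl fun u _ => e2 u, Finset.sum_ite_eq' univ x]
      simp
    rw [Finset.sum_congr rfl fun v _ => e1 v, ← Finset.sum_filter, Finset.sum_const, nsmul_eq_mul]
    have e3 : (univ.filter fun v => v ∈ A.N x) = A.N x := by ext; simp
    rw [e3]
    have h3 := two_sum hN hI x
    have h4 : 0 ≤ ∑ u' : Fin n, ∑ z : Fin n, δ * S.w x z * (δ * S.w u' z) :=
      Finset.sum_nonneg fun u' _ => Finset.sum_nonneg fun z _ =>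
        mul_nonneg (mul_nonneg hδ0.le (hI.w0 _ _)) (mul_nonneg hδ0.le (hI.w0 _ _))
    calc (#(A.N x) : ℝ) * ∑ u' : Fin n, ∑ z : Fin n, δ * S.w x z * (δ * S.w u' z)
        ≤ D1 * (105 / 100 * δ ^ 2) := mul_le_mul (hdg.dA x) h3 h4 (by linarith)
      _ = _ := by ring
  have h5 : ∑ v, ∑ t : Fin n × Fin n × Fin n, g2 v t ≤ 105 / 100 * δ ^ 2 * D1 := by
    rw [Finset.sum_comm]
    have e1 : ∀ t : Fin n × Fin n × Fin n, ∑ v, g2 v t ≤
        if t.2.1 = x then D1 * ft δ S.w t else 0 := by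
      intro t
      by_cases ht : t.2.1 = x
      · rw [if_pos ht]
        have e2 : ∀ v, g2 v t = if v ∈ A.N t.1 then ft δ S.w t else 0 := by
          intro v
          simp only [g2]
          by_cases hv : v ∈ A.N t.1
          · rw [if_pos ⟨hv, ht⟩, if_pos hv]
          · rw [if_neg (fun h => hv h.1), if_neg hv]
        rw [Finset.sum_congr rfl fun v _ => e2 v, ← Finset.sum_filter, Finset.sum_const,
          nsmul_eq_mul]
        have e3 : (univ.filter fun v => v ∈ A.N t.1) = A.N t.1 := by ext; simp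
        rw [e3]
        exact mul_le_mul_of_nonneg_right (hdg.dA _) (ft_nonneg hI hδ0.le t)
      · rw [if_neg ht]
        refine le_of_eq (Finset.sum_eq_zero fun v _ => ?_)
        simp only [g2]
        rw [if_neg]
        exact fun h => ht h.2
    refine (Finset.sum_le_sum fun t _ => e1 t).trans ?_
    rw [Fintype.sum_prod_type]
    have e4 : ∀ u : Fin n, ∑ y : Fin n × Fin n,
        (if (u, y).2.1 = x then D1 * ft δ S.w (u, y) else 0) =
        ∑ z : Fin n, D1 * (δ * S.w u z * (δ * S.w x z)) := by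
      intro u
      rw [Fintype.sum_prod_type, Finset.sum_comm]
      refine Finset.sum_congr rfl fun z _ => ?_
      rw [Finset.sum_ite_eq' univ x, if_pos (Finset.mem_univ x)]
      rfl
    rw [Finset.sum_congr rfl fun u _ => e4 u]
    have e5 : ∑ u : Fin n, ∑ z : Fin n, D1 * (δ * S.w u z * (δ * S.w x z)) =
        D1 * ∑ u' : Fin n, ∑ z : Fin n, δ * S.w x z * (δ * S.w u' z) := by
      rw [Finset.mul_sum]
      refine Finset.sum_congr rfl fun u _ => ?_
      rw [Finset.mul_sum]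
      refine Finset.sum_congr rfl fun z _ => ?_
      ring
    rw [e5]
    calc D1 * ∑ u' : Fin n, ∑ z : Fin n, δ * S.w x z * (δ * S.w u' z)
        ≤ D1 * (105 / 100 * δ ^ 2) :=
          mul_le_mul_of_nonneg_left (two_sum hN hI x) (by linarith)
      _ = _ := by ring
  refine (Finset.sum_le_sum fun v _ => h1 v).trans ?_
  have e6 : ∑ v, ∑ t : Fin n × Fin n × Fin n, (g1 v t + g2 v t) =
      (∑ v, ∑ t : Fin n × Fin n × Fin n, g1 v t) + ∑ v, ∑ t : Fin n × Fin n × Fin n, g2 v t := by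
    rw [← Finset.sum_add_distrib]
    exact Finset.sum_congr rfl fun v _ => Finset.sum_add_distrib
  rw [e6]
  have h7 : 0 ≤ δ ^ 2 * D1 := mul_nonneg (sq_nonneg _) (by linarith)
  linarith

theorem sum_biUnion_le' {ι κ : Type*} [DecidableEq ι] [DecidableEq κ] (s : Finset ι)
    (F : ι → Finset κ) (g : κ → ℝ) (hg : ∀ k, 0 ≤ g k) :
    ∑ k ∈ s.biUnion F, g k ≤ ∑ i ∈ s, ∑ k ∈ F i, g k := by
  induction s using Finset.induction_on with
  | empty => simp
  | insert a s ha ih =>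
    rw [Finset.biUnion_insert, Finset.sum_insert ha]
    have h1 : ∑ k ∈ F a ∪ s.biUnion F, g k ≤ ∑ k ∈ F a, g k + ∑ k ∈ s.biUnion F, g k := by
      rw [← Finset.sum_union_inter]
      exact le_add_of_nonneg_right (Finset.sum_nonneg fun k _ => hg k)
    linarith

/-- `∑_{M ∋ x}` `≤ ∑_{t ∋ x} ∑_{M ∋ t}`, `esymm_mem`, `e · 1.05 ≤ 3`. -/
theorem mass (hN : Num n ε D1 D2 δ K0 W γ a ρ) (hdg : Deg A B D1 D2)
    (hI : Inv A B D1 D2 W γ a l p q S) (m : ℕ) (hm : 1 ≤ m) (x : Fin n) :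
    ∑ v, ∑ M ∈ (Fam A v m).filter (fun M => x ∈ M.biUnion tc), ∏ t ∈ M, ft δ S.w t ≤
      3 * δ ^ 2 * D1 * Real.exp (1 - (m : ℝ) + 3 * δ ^ 2 * D1) := by
  classical
  have hδ0 := hN.δ0
  have hD1 := hN.hD1
  have hft : ∀ t, 0 ≤ ft δ S.w t := fun t => ft_nonneg hI hδ0.le t
  have hprod : ∀ M : Finset (Fin n × Fin n × Fin n), 0 ≤ ∏ t ∈ M, ft δ S.w t :=
    fun M => Finset.prod_nonneg fun t _ => hft t
  have h1 : ∀ v, ∑ M ∈ (Fam A v m).filter (fun M => x ∈ M.biUnion tc), ∏ t ∈ M, ft δ S.w t ≤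
      ∑ t ∈ (tri A v).filter (fun t => x ∈ tc t), ft δ S.w t *
        Real.exp (1 - (m : ℝ) + 3 * δ ^ 2 * D1) := by
    intro v
    calc ∑ M ∈ (Fam A v m).filter (fun M => x ∈ M.biUnion tc), ∏ t ∈ M, ft δ S.w t
        ≤ ∑ M ∈ ((tri A v).filter (fun t => x ∈ tc t)).biUnion
            (fun t => ((tri A v).powersetCard m).filter (fun M => t ∈ M)),
            ∏ t ∈ M, ft δ S.w t := by
          refine Finset.sum_le_sum_of_subset_of_nonneg ?_ fun M _ _ => hprod M
          intro M hM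
          rw [Finset.mem_filter, Finset.mem_biUnion] at hM
          obtain ⟨hM1, t, htM, hxt⟩ := hM
          unfold Fam at hM1
          rw [Finset.mem_filter] at hM1
          rw [Finset.mem_biUnion]
          refine ⟨t, Finset.mem_filter.2 ⟨(Finset.mem_powersetCard.1 hM1.1).1 htM, hxt⟩,
            Finset.mem_filter.2 ⟨hM1.1, htM⟩⟩
      _ ≤ ∑ t ∈ (tri A v).filter (fun t => x ∈ tc t),
            ∑ M ∈ ((tri A v).powersetCard m).filter (fun M => t ∈ M),
              ∏ t ∈ M, ft δ S.w t :=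
          sum_biUnion_le' _ _ _ fun M => hprod M
      _ ≤ _ := by
          refine Finset.sum_le_sum fun t ht => ?_
          have ht' := (Finset.mem_filter.1 ht).1
          refine (esymm_mem (tri A v) (ft δ S.w) (fun t _ => hft t) m hm t ht').trans ?_
          refine mul_le_mul_of_nonneg_left (Real.exp_le_exp.2 ?_) (hft t)
          have h2 := tri_sum hN hdg hI v
          have h3 : Real.exp 1 ≤ 2.7182818286 := Real.exp_one_lt_d9.le
          have h4 : 0 ≤ ∑ t ∈ tri A v, ft δ S.w t := Finset.sum_nonneg fun t _ => hft t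
          have h5 : 0 ≤ δ ^ 2 * D1 := mul_nonneg (sq_nonneg _) (by linarith)
          have h6 : Real.exp 1 * ∑ t ∈ tri A v, ft δ S.w t ≤
              2.7182818286 * (105 / 100 * δ ^ 2 * D1) := mul_le_mul h3 h2 h4 (by norm_num)
          nlinarith
  refine (Finset.sum_le_sum fun v _ => h1 v).trans ?_
  have h7 := tri_mem_sum hN hdg hI x
  have e1 : ∑ v, ∑ t ∈ (tri A v).filter (fun t => x ∈ tc t), ft δ S.w t *
        Real.exp (1 - (m : ℝ) + 3 * δ ^ 2 * D1) =
      (∑ v, ∑ t ∈ (tri A v).filter (fun t => x ∈ tc t), ft δ S.w t) *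
        Real.exp (1 - (m : ℝ) + 3 * δ ^ 2 * D1) := by
    rw [Finset.sum_mul]
    exact Finset.sum_congr rfl fun v _ => (Finset.sum_mul _ _ _).symm
  rw [e1]
  exact mul_le_mul_of_nonneg_right h7 (Real.exp_pos _).le

end Pool.Agent.Helper5.BEC.B
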