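import Pool.Agent.Helper5.BEC.B.Defs
/-! Stage B, piece Q: quantitative local lemma. -/
set_option autoImplicit false
namespace Pool.Agent.Helper5.BEC.B
open Finset Pool.Agent.Helper61.LE Pool.Agent.Helper5.BEC

variable {ι Ω : Type*} [Fintype ι] [DecidableEq ι] [Fintype Ω] [DecidableEq Ω]
variable {μ : ι → Ω → ℝ}

/-- `exp (-4 x) ≤ 1 - 2 x` on `[0, 1/4]` -/
private theorem exp_neg_four_le {x : ℝ} (h0 : 0 ≤ x) (h1 : x ≤ 1 / 4) :
    Real.exp (-(4 * x)) ≤ 1 - 2 * x := by
  have h2 : 4 * x + 1 ≤ Real.exp (4 * x) := Real.add_one_le_exp _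
  have h3 : 1 ≤ (1 - 2 * x) * Real.exp (4 * x) := by
    have : (1 - 2 * x) * (4 * x + 1) ≤ (1 - 2 * x) * Real.exp (4 * x) :=
      mul_le_mul_of_nonneg_left h2 (by linarith)
    nlinarith
  have h4 := Real.exp_pos (-(4 * x))
  have h5 : Real.exp (-(4 * x)) * Real.exp (4 * x) = 1 := by
    rw [← Real.exp_add]; simp
  nlinarith

/-- As `Pool.Agent.Helper61.LE.lll` (copy its proof), with the lower bound
`P(no event) ≥ ∏ (1 - 2 P(A j)) ≥ exp (-4 ∑ P(A j))`. -/
theorem lllq (h : IsProb μ) {κ : Type*} [DecidableEq κ] (J : Finset κ)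
    (A : κ → (ι → Ω) → Prop) (S : κ → Finset ι) (hdep : ∀ j ∈ J, Dep (A j) (S j))
    (hself : ∀ j ∈ J, PP μ (A j) ≤ 1 / 4)
    (hsum : ∀ i ∈ J, ∑ j ∈ J.filter (fun j => ¬ Disjoint (S i) (S j)), PP μ (A j) ≤ 1 / 4) :
    Real.exp (-(4 * ∑ j ∈ J, PP μ (A j))) ≤ PP μ (Avoid A J) := by
  classical
  have key : ∀ T : Finset κ, T ⊆ J →
      (∀ i ∈ J, i ∉ T → PP μ (fun ω => A i ω ∧ Avoid A T ω) ≤ 2 * PP μ (A i) * PP μ (Avoid A T)) ∧
        ∏ j ∈ T, (1 - 2 * PP μ (A j)) ≤ PP μ (Avoid A T) := by
    intro T
    induction T using Finset.strongInduction with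
    | H T ih =>
      intro hTJ
      refine ⟨?_, ?_⟩
      · intro i hi hiT
        set T₁ := T.filter (fun j => ¬ Disjoint (S i) (S j)) with hT₁
        set T₂ := T.filter (fun j => Disjoint (S i) (S j)) with hT₂
        have hT₂T : T₂ ⊆ T := Finset.filter_subset _ _
        have hstep1 : PP μ (fun ω => A i ω ∧ Avoid A T ω) ≤ PP μ (A i) * PP μ (Avoid A T₂) := by
          rw [← PP_and_of_disjoint h (hdep i hi)
            (dep_avoid (fun j hj => hdep j (hTJ (hT₂T hj))))]
          · refine PP_mono h fun ω hω => ⟨hω.1, fun j hj => hω.2 j (hT₂T hj)⟩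
          · rw [Finset.disjoint_biUnion_right]
            intro j hj
            exact (Finset.mem_filter.1 hj).2
        have hstep2 : PP μ (Avoid A T₂) ≤ 2 * PP μ (Avoid A T) := by
          by_cases hne : T₁ = ∅
          · have : T₂ = T := by
              apply Finset.Subset.antisymm hT₂T
              intro j hj
              rw [hT₂, Finset.mem_filter]
              refine ⟨hj, ?_⟩
              by_contra hcon
              have : j ∈ T₁ := Finset.mem_filter.2 ⟨hj, hcon⟩
              rw [hne] at this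
              exact absurd this (by simp)
            rw [this]
            have := PP_nonneg h (Avoid A T)
            linarith
          · obtain ⟨j₀, hj₀⟩ := Finset.nonempty_iff_ne_empty.2 hne
            have hssub : T₂ ⊂ T := by
              refine ⟨hT₂T, fun hcon => ?_⟩
              have h1 := hcon (Finset.mem_filter.1 hj₀).1
              exact (Finset.mem_filter.1 hj₀).2 (Finset.mem_filter.1 h1).2
            have ih2 := ih T₂ hssub (hT₂T.trans hTJ)
            have hbound : PP μ (Avoid A T₂) ≤ PP μ (Avoid A T) +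
                ∑ j ∈ T₁, PP μ (fun ω => A j ω ∧ Avoid A T₂ ω) := by
              calc PP μ (Avoid A T₂) ≤ PP μ (Avoid A T) +
                    PP μ (fun ω => ∃ j ∈ T₁, A j ω ∧ Avoid A T₂ ω) := by
                    rw [PP_split (μ := μ) (Avoid A T₂) (Avoid A T)]
                    refine add_le_add (PP_mono h fun ω hω => hω.2) (PP_mono h fun ω hω => ?_)
                    obtain ⟨h1, h2⟩ := hω
                    unfold Avoid at h2
                    push Not at h2
                    obtain ⟨j, hj, hA⟩ := h2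
                    refine ⟨j, ?_, hA, h1⟩
                    rw [hT₁, Finset.mem_filter]
                    refine ⟨hj, fun hd => ?_⟩
                    exact h1 j (Finset.mem_filter.2 ⟨hj, hd⟩) hA
                _ ≤ _ := by
                    have := PP_exists_le h T₁ (fun j ω => A j ω ∧ Avoid A T₂ ω)
                    linarith
            have hbound2 : ∑ j ∈ T₁, PP μ (fun ω => A j ω ∧ Avoid A T₂ ω) ≤
                (1 / 2) * PP μ (Avoid A T₂) := by
              calc ∑ j ∈ T₁, PP μ (fun ω => A j ω ∧ Avoid A T₂ ω)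
                  ≤ ∑ j ∈ T₁, 2 * PP μ (A j) * PP μ (Avoid A T₂) := by
                    refine Finset.sum_le_sum fun j hj => ?_
                    have hjT := (Finset.mem_filter.1 hj).1
                    refine ih2.1 j (hTJ hjT) fun hcon => ?_
                    exact (Finset.mem_filter.1 hj).2 (Finset.mem_filter.1 hcon).2
                _ = 2 * (∑ j ∈ T₁, PP μ (A j)) * PP μ (Avoid A T₂) := by
                    rw [Finset.mul_sum, Finset.sum_mul]
                _ ≤ (1 / 2) * PP μ (Avoid A T₂) := by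
                    apply mul_le_mul_of_nonneg_right _ (PP_nonneg h _)
                    have h1 : ∑ j ∈ T₁, PP μ (A j) ≤ 1 / 4 := by
                      refine le_trans ?_ (hsum i hi)
                      apply Finset.sum_le_sum_of_subset_of_nonneg
                      · intro j hj
                        rw [Finset.mem_filter] at hj ⊢
                        exact ⟨hTJ hj.1, hj.2⟩
                      · intro j _ _
                        exact PP_nonneg h _
                    linarith
            linarith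
        calc PP μ (fun ω => A i ω ∧ Avoid A T ω) ≤ PP μ (A i) * PP μ (Avoid A T₂) := hstep1
          _ ≤ PP μ (A i) * (2 * PP μ (Avoid A T)) :=
              mul_le_mul_of_nonneg_left hstep2 (PP_nonneg h _)
          _ = _ := by ring
      · by_cases hne : T = ∅
        · subst hne
          have : PP μ (Avoid A (∅ : Finset κ)) = 1 := by
            rw [← PP_true h]
            exact PP_congr fun ω => by simp [Avoid]
          rw [this]
          simp
        · obtain ⟨i, hi⟩ := Finset.nonempty_iff_ne_empty.2 hne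
          have hssub : T.erase i ⊂ T := Finset.erase_ssubset hi
          have ih2 := ih (T.erase i) hssub (hssub.1.trans hTJ)
          have h1 := ih2.1 i (hTJ hi) (Finset.notMem_erase i T)
          have h2 := hself i (hTJ hi)
          have h3 : PP μ (Avoid A (T.erase i)) = PP μ (fun ω => A i ω ∧ Avoid A (T.erase i) ω) +
              PP μ (Avoid A T) := by
            rw [PP_split (μ := μ) (Avoid A (T.erase i)) (A i)]
            congr 1
            · exact PP_congr fun ω => and_comm
            · refine PP_congr fun ω => ?_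
              constructor
              · rintro ⟨ha, hb⟩ j hj
                by_cases hji : j = i
                · rw [hji]
                  exact hb
                · exact ha j (Finset.mem_erase.2 ⟨hji, hj⟩)
              · intro ha
                exact ⟨fun j hj => ha j (Finset.mem_of_mem_erase hj), ha i hi⟩
          have h4 := ih2.2
          have h5 : (1 - 2 * PP μ (A i)) * ∏ j ∈ T.erase i, (1 - 2 * PP μ (A j)) ≤
              (1 - 2 * PP μ (A i)) * PP μ (Avoid A (T.erase i)) :=
            mul_le_mul_of_nonneg_left h4 (by linarith)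
          rw [← Finset.mul_prod_erase T _ hi]
          linarith
  refine le_trans ?_ (key J (Finset.Subset.refl J)).2
  have hx : -(4 * ∑ j ∈ J, PP μ (A j)) = ∑ j ∈ J, -(4 * PP μ (A j)) := by
    rw [Finset.sum_neg_distrib, Finset.mul_sum]
  rw [hx, Real.exp_sum]
  refine Finset.prod_le_prod (fun j _ => (Real.exp_pos _).le) fun j hj => ?_
  exact exp_neg_four_le (PP_nonneg h _) (hself j hj)

/-- `lllq` with the total probability `≤ M0` of the events through one coordinate and at most `s0`
coordinates per event. (If `ι` is empty then `J` is empty.) -/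
theorem lllq_mass (h : IsProb μ) {κ : Type*} [DecidableEq κ] (J : Finset κ)
    (A : κ → (ι → Ω) → Prop) (S : κ → Finset ι) (hdep : ∀ j ∈ J, Dep (A j) (S j))
    (hne : ∀ j ∈ J, (S j).Nonempty) {M0 s0 : ℝ}
    (hmass : ∀ x, ∑ j ∈ J.filter (fun j => x ∈ S j), PP μ (A j) ≤ M0)
    (hs : ∀ j ∈ J, (#(S j) : ℝ) ≤ s0) (hs1 : 1 ≤ s0) (hM : s0 * M0 ≤ 1 / 4) :
    Real.exp (-(4 * Fintype.card ι * M0)) ≤ PP μ (Avoid A J) := by
  classical
  have hmass' : ∀ x, 0 ≤ ∑ j ∈ J.filter (fun j => x ∈ S j), PP μ (A j) := fun x =>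
    Finset.sum_nonneg fun j _ => PP_nonneg h _
  have hself : ∀ j ∈ J, PP μ (A j) ≤ 1 / 4 := by
    intro j hj
    obtain ⟨x, hx⟩ := hne j hj
    have h1 : PP μ (A j) ≤ ∑ j ∈ J.filter (fun j => x ∈ S j), PP μ (A j) :=
      Finset.single_le_sum (f := fun j => PP μ (A j)) (fun j _ => PP_nonneg h _)
        (Finset.mem_filter.2 ⟨hj, hx⟩)
    have h2 := hmass x
    have h3 := hmass' x
    have hM0 : 0 ≤ M0 := h3.trans h2
    have h4 : M0 ≤ s0 * M0 := le_mul_of_one_le_left hM0 hs1
    linarith
  have hsum : ∀ i ∈ J, ∑ j ∈ J.filter (fun j => ¬ Disjoint (S i) (S j)), PP μ (A j) ≤ 1 / 4 := by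
    intro i hi
    obtain ⟨x₀, hx₀⟩ := hne i hi
    have hM0 : 0 ≤ M0 := (hmass' x₀).trans (hmass x₀)
    have h1 : ∑ j ∈ J.filter (fun j => ¬ Disjoint (S i) (S j)), PP μ (A j) ≤
        ∑ x ∈ S i, ∑ j ∈ J.filter (fun j => x ∈ S j), PP μ (A j) := by
      simp only [Finset.sum_filter]
      rw [Finset.sum_comm]
      refine Finset.sum_le_sum fun j _ => ?_
      have hnn : ∀ y ∈ S i, 0 ≤ (fun x => if x ∈ S j then PP μ (A j) else 0) y := by
        intro y _
        dsimp only
        split_ifs
        · exact PP_nonneg h _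
        · exact le_rfl
      by_cases hj : Disjoint (S i) (S j)
      · rw [if_neg (not_not.2 hj)]
        exact Finset.sum_nonneg hnn
      · rw [if_pos hj]
        rw [Finset.not_disjoint_iff] at hj
        obtain ⟨x, hx1, hx2⟩ := hj
        calc PP μ (A j) = if x ∈ S j then PP μ (A j) else 0 := by simp [hx2]
          _ ≤ _ := Finset.single_le_sum hnn hx1
    have h2 : ∑ x ∈ S i, ∑ j ∈ J.filter (fun j => x ∈ S j), PP μ (A j) ≤ ∑ x ∈ S i, M0 :=
      Finset.sum_le_sum fun x _ => hmass x
    rw [Finset.sum_const, nsmul_eq_mul] at h2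
    have h3 : (#(S i) : ℝ) * M0 ≤ s0 * M0 := mul_le_mul_of_nonneg_right (hs i hi) hM0
    linarith
  refine le_trans ?_ (lllq h J A S hdep hself hsum)
  rw [Real.exp_le_exp]
  have h1 : ∑ j ∈ J, PP μ (A j) ≤ ∑ x : ι, ∑ j ∈ J.filter (fun j => x ∈ S j), PP μ (A j) := by
    simp only [Finset.sum_filter]
    rw [Finset.sum_comm]
    refine Finset.sum_le_sum fun j hj => ?_
    obtain ⟨x, hx⟩ := hne j hj
    have hnn : ∀ y ∈ (univ : Finset ι), 0 ≤ (fun x => if x ∈ S j then PP μ (A j) else 0) y := by
      intro y _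
      dsimp only
      split_ifs
      · exact PP_nonneg h _
      · exact le_rfl
    calc PP μ (A j) = if x ∈ S j then PP μ (A j) else 0 := by simp [hx]
      _ ≤ _ := Finset.single_le_sum hnn (Finset.mem_univ x)
  have h2 : ∑ x : ι, ∑ j ∈ J.filter (fun j => x ∈ S j), PP μ (A j) ≤ ∑ _x : ι, M0 :=
    Finset.sum_le_sum fun x _ => hmass x
  rw [Finset.sum_const, nsmul_eq_mul, Finset.card_univ] at h2
  linarith

end Pool.Agent.Helper5.BEC.B
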