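import Pool.Agent.Helper5.BEC.St.R1
import Pool.Agent.Helper5.BEC.B.C
/-! Stage B, piece R: rows, local part (coordinates in `N₁(v)`) and global part. -/
set_option autoImplicit false
namespace Pool.Agent.Helper5.BEC.B
open Finset Pool.Agent.Helper61.LE Pool.Agent.Helper5.BEC

variable {n : ℕ} {A B : Nb n} {ε D1 D2 D δ K0 W γ a ρ l p q : ℝ} {S : St n}

/-- the local part of the row of `v` -/
noncomputable def rowloc (A B : Nb n) (δ : ℝ) (S : St n) (v : Fin n)
    (ω : Fin n → Option (Fin n)) : ℝ :=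
  cond (mu δ S.w) (A.N v) (fun ω => rowv A B δ S.w ω v) ω

/-- the costs of `R1_diff` -/
noncomputable def rcost (A : Nb n) (D1 W : ℝ) (v u : Fin n) (x : Option (Fin n)) : ℝ :=
  if x = none then 0 else if u ∈ A.N v then 4 * W / D1 else 2 * W / n

theorem rcost_nonneg (hn : 0 < (n : ℝ)) (hW : 0 < W) (hD : 0 < D1) (v u : Fin n)
    (x : Option (Fin n)) : 0 ≤ rcost A D1 W v u x := by
  unfold rcost
  split_ifs <;> positivity

theorem rcost_diff (hN : Num n ε D1 D2 δ K0 W γ a ρ) (hd : Deg A B D1 D2)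
    (hI : Inv A B D1 D2 W γ a l p q S) (v u : Fin n) (ω : Fin n → Option (Fin n))
    (x y : Option (Fin n)) :
    |rowv A B δ S.w (Function.update ω u x) v - rowv A B δ S.w (Function.update ω u y) v| ≤
      rcost A D1 W v u x + rcost A D1 W v u y := by
  have h1 := R1_diff hN hd hI v u ω x
  have h2 := R1_diff hN hd hI v u ω y
  have h3 : rowv A B δ S.w (Function.update ω u x) v - rowv A B δ S.w (Function.update ω u y) v =
      (rowv A B δ S.w (Function.update ω u x) v - rowv A B δ S.w (Function.update ω u none) v) -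
      (rowv A B δ S.w (Function.update ω u y) v -
        rowv A B δ S.w (Function.update ω u none) v) := by ring
  rw [h3]
  exact (abs_sub _ _).trans (add_le_add h1 h2)

/-- the mean cost -/
theorem rcost_sum (hN : Num n ε D1 D2 δ K0 W γ a ρ) (hd : Deg A B D1 D2)
    (hI : Inv A B D1 D2 W γ a l p q S) (v : Fin n) :
    ∑ u, ∑ x, mu δ S.w u x * rcost A D1 W v u x ≤ 12 * W := by
  classical
  have hn0 : (0 : ℝ) < n := by exact_mod_cast hN.n1
  have hW0 : 0 < W := lt_of_lt_of_le one_pos hN.W1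
  have hD10 : 0 < D1 := lt_of_lt_of_le one_pos hN.hD1
  have hδ0 := hN.δ0
  have h1 : ∀ u ∈ (univ : Finset (Fin n)), ∑ x, mu δ S.w u x * rcost A D1 W v u x ≤
      2 * δ * (if u ∈ A.N v then 4 * W / D1 else 2 * W / n) := by
    intro u _
    rw [sum_mu (rcost A D1 W v u) (by simp [rcost]) u]
    have h2 : ∀ z, δ * S.w u z * rcost A D1 W v u (some z) =
        (δ * (if u ∈ A.N v then 4 * W / D1 else 2 * W / n)) * S.w u z := by
      intro z
      simp only [rcost]
      rw [if_neg (by simp)]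
      ring
    rw [Finset.sum_congr rfl fun z _ => h2 z, ← Finset.mul_sum]
    have h3 := rowsum_le hI hN.γ0 u
    have h4 := hN.γ1
    have h5 : 0 ≤ δ * (if u ∈ A.N v then 4 * W / D1 else 2 * W / n) := by
      refine mul_nonneg hδ0.le ?_
      split_ifs <;> positivity
    calc (δ * (if u ∈ A.N v then 4 * W / D1 else 2 * W / n)) * ∑ z, S.w u z
        ≤ (δ * (if u ∈ A.N v then 4 * W / D1 else 2 * W / n)) * 2 :=
          mul_le_mul_of_nonneg_left (by linarith) h5
      _ = _ := by ring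
  refine (Finset.sum_le_sum h1).trans ?_
  rw [← Finset.mul_sum]
  have h6 : ∑ u, (if u ∈ A.N v then 4 * W / D1 else 2 * W / (n : ℝ)) ≤ 6 * W := by
    have h7 : ∀ u ∈ (univ : Finset (Fin n)), (if u ∈ A.N v then 4 * W / D1 else 2 * W / (n : ℝ)) ≤
        (if u ∈ A.N v then 4 * W / D1 else 0) + 2 * W / n := by
      intro u _
      have : 0 ≤ 2 * W / (n : ℝ) := by positivity
      split_ifs <;> linarith
    refine (Finset.sum_le_sum h7).trans ?_
    rw [Finset.sum_add_distrib, ← Finset.sum_filter, Finset.filter_mem_eq_inter,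
      Finset.univ_inter, Finset.sum_const, Finset.sum_const, nsmul_eq_mul, nsmul_eq_mul,
      Finset.card_univ, Fintype.card_fin]
    have h8 : (#(A.N v) : ℝ) * (4 * W / D1) ≤ 4 * W := by
      calc (#(A.N v) : ℝ) * (4 * W / D1) ≤ D1 * (4 * W / D1) :=
            mul_le_mul_of_nonneg_right (hd.dA v) (by positivity)
        _ = 4 * W := by field_simp
    have h9 : (n : ℝ) * (2 * W / n) = 2 * W := by field_simp
    linarith
  have h10 := hN.δ1
  nlinarith

/-- `tail` for `rowloc` with the costs of `R1_diff` restricted to `u ∈ N₁(v)` (`cond_bdd`),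
`m = 4W/D1`, `L = 12W`, `t = δ³/2`; `EE_cond` and `EE_row` for the mean. (See `row_tail`.) -/
theorem rowloc_tail (hN : Num n ε D1 D2 δ K0 W γ a ρ) (hd : Deg A B D1 D2)
    (hI : Inv A B D1 D2 W γ a l p q S) (hD0 : 0 ≤ D) (hD : D ≤ D1) (v : Fin n) :
    PP (mu δ S.w) (fun ω => ¬ |rowloc A B δ S v ω - ∑ z, S.w v z| ≤
      2 * δ ^ 2 * K0 ^ 2 + δ ^ 3 / 2) ≤ 2 * Real.exp (-(δ ^ 6 / (4000 * W ^ 2) * D)) := by
  classical
  have hn0 : (0 : ℝ) < n := by exact_mod_cast hN.n1
  have hW0 : 0 < W := lt_of_lt_of_le one_pos hN.W1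
  have hD10 : 0 < D1 := lt_of_lt_of_le one_pos hN.hD1
  have hP := isProb_mu hN hI
  have hδ0 := hN.δ0
  set c : Fin n → Option (Fin n) → ℝ := fun u x =>
    if u ∈ A.N v then rcost A D1 W v u x else 0 with hc
  have hc0 : ∀ u x, 0 ≤ c u x := by
    intro u x
    simp only [hc]
    split_ifs
    · exact rcost_nonneg hn0 hW0 hD10 v u x
    · exact le_rfl
  have hcm : ∀ u x, c u x ≤ 4 * W / D1 := by
    intro u x
    simp only [hc, rcost]
    split_ifs
    · positivity
    · exact le_rfl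
    · positivity
  have hL : ∑ u, ∑ x, mu δ S.w u x * c u x ≤ 12 * W := by
    refine le_trans (Finset.sum_le_sum fun u _ => Finset.sum_le_sum fun x _ => ?_)
      (rcost_sum hN hd hI v)
    refine mul_le_mul_of_nonneg_left ?_ (hP.nonneg u x)
    simp only [hc]
    split_ifs
    · exact le_rfl
    · exact rcost_nonneg hn0 hW0 hD10 v u x
  have hdiff : ∀ u ω x y, |rowloc A B δ S v (Function.update ω u x) -
      rowloc A B δ S v (Function.update ω u y)| ≤ c u x + c u y := by
    intro u ω x y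
    exact cond_bdd hP (A.N v) (rcost A D1 W v) (fun ω => rowv A B δ S.w ω v)
      (fun i ω a b => rcost_diff hN hd hI v i ω a b) u ω x y
  have hEE : EE (mu δ S.w) (fun ω => rowloc A B δ S v ω) =
      EE (mu δ S.w) (fun ω => rowv A B δ S.w ω v) := EE_cond hP (A.N v) _
  have ht := tail hP c (fun ω => rowloc A B δ S v ω) (m := 4 * W / D1) (L := 12 * W)
    (t := δ ^ 3 / 2)
    hc0 hcm (by positivity) hL (by positivity) (by positivity)
    (by
      have h1 := hN.δ1
      have h2 := hN.W1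
      have h3 : δ ^ 3 ≤ 1 := pow_le_one₀ hδ0.le (by linarith)
      linarith) hdiff
  refine (PP_mono hP (B := fun ω => δ ^ 3 / 2 ≤ |rowloc A B δ S v ω -
    EE (mu δ S.w) (fun ω => rowloc A B δ S v ω)|) ?_).trans (ht.trans ?_)
  · intro ω hω
    by_contra hlt
    apply hω
    rw [not_le] at hlt
    have h1 := EE_row hN hI v
    rw [← hEE] at h1
    have h2 : rowloc A B δ S v ω - ∑ z, S.w v z =
        (rowloc A B δ S v ω - EE (mu δ S.w) (fun ω => rowloc A B δ S v ω)) +
        (EE (mu δ S.w) (fun ω => rowloc A B δ S v ω) - ∑ z, S.w v z) := by ring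
    rw [h2]
    refine (abs_add_le _ _).trans ?_
    linarith
  · refine mul_le_mul_of_nonneg_left (Real.exp_le_exp.2 ?_) (by norm_num)
    apply neg_le_neg
    have h1 : (δ ^ 3 / 2) ^ 2 / (16 * (4 * W / D1) * (12 * W)) = δ ^ 6 / (3072 * W ^ 2) * D1 := by
      field_simp
      ring
    rw [h1]
    have h2 : δ ^ 6 / (4000 * W ^ 2) ≤ δ ^ 6 / (3072 * W ^ 2) := by
      apply div_le_div_of_nonneg_left (by positivity) (by positivity)
      nlinarith [sq_nonneg W]
    exact mul_le_mul h2 hD hD0 (by positivity)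

/-- `cond_tail` with the costs of `R1_diff`; for `u ∉ N₁(v)` they are `≤ 2W/n = m`, `L = 12W`,
`t = δ³/2`. -/
theorem rowglob_tail (hN : Num n ε D1 D2 δ K0 W γ a ρ) (hd : Deg A B D1 D2)
    (hI : Inv A B D1 D2 W γ a l p q S) (v : Fin n) :
    PP (mu δ S.w) (fun ω => ¬ |rowv A B δ S.w ω v - rowloc A B δ S v ω| ≤ δ ^ 3 / 2) ≤
      2 * Real.exp (-(δ ^ 6 / (4000 * W ^ 2) * n)) := by
  classical
  have hn0 : (0 : ℝ) < n := by exact_mod_cast hN.n1
  have hW0 : 0 < W := lt_of_lt_of_le one_pos hN.W1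
  have hD10 : 0 < D1 := lt_of_lt_of_le one_pos hN.hD1
  have hP := isProb_mu hN hI
  have hδ0 := hN.δ0
  have hm : ∀ u ∉ A.N v, ∀ x, rcost A D1 W v u x ≤ 2 * W / n := by
    intro u hu x
    simp only [rcost]
    rw [if_neg hu]
    split_ifs
    · positivity
    · exact le_rfl
  have hL : ∑ u, ∑ x, mu δ S.w u x * (if u ∈ A.N v then 0 else rcost A D1 W v u x) ≤ 12 * W := by
    refine le_trans (Finset.sum_le_sum fun u _ => Finset.sum_le_sum fun x _ => ?_)
      (rcost_sum hN hd hI v)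
    refine mul_le_mul_of_nonneg_left ?_ (hP.nonneg u x)
    split_ifs
    · exact rcost_nonneg hn0 hW0 hD10 v u x
    · exact le_rfl
  have ht := cond_tail hP (A.N v) (rcost A D1 W v) (fun ω => rowv A B δ S.w ω v)
    (m := 2 * W / n) (L := 12 * W) (t := δ ^ 3 / 2)
    (fun u x => rcost_nonneg hn0 hW0 hD10 v u x) hm (by positivity) hL (by positivity)
    (by positivity)
    (by
      have h1 := hN.δ1
      have h2 := hN.W1
      have h3 : δ ^ 3 ≤ 1 := pow_le_one₀ hδ0.le (by linarith)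
      linarith) (fun i ω a b => rcost_diff hN hd hI v i ω a b)
  refine (PP_mono hP (B := fun ω => δ ^ 3 / 2 ≤ |rowv A B δ S.w ω v -
    cond (mu δ S.w) (A.N v) (fun ω => rowv A B δ S.w ω v) ω|) ?_).trans (ht.trans ?_)
  · intro ω hω
    exact (not_le.1 hω).le
  · refine mul_le_mul_of_nonneg_left (Real.exp_le_exp.2 ?_) (by norm_num)
    apply neg_le_neg
    have h1 : (δ ^ 3 / 2) ^ 2 / (16 * (2 * W / n) * (12 * W)) = δ ^ 6 / (1536 * W ^ 2) * n := by
      field_simp
      ring
    rw [h1]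
    have h2 : δ ^ 6 / (4000 * W ^ 2) ≤ δ ^ 6 / (1536 * W ^ 2) := by
      apply div_le_div_of_nonneg_left (by positivity) (by positivity)
      nlinarith [sq_nonneg W]
    exact mul_le_mul_of_nonneg_right h2 hn0.le

end Pool.Agent.Helper5.BEC.B
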