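import Pool.Agent.Helper5.BEC.St.X1
import Pool.Agent.Helper5.BEC.B.Defs
/-! Stage B, piece X: cancelled vertices, type (b), local. -/
set_option autoImplicit false
namespace Pool.Agent.Helper5.BEC.B
open Finset Pool.Agent.Helper61.LE Pool.Agent.Helper5.BEC

variable {n : ℕ} {A B : Nb n} {ε D1 D2 D δ K0 W γ a ρ l p q d : ℝ} {S : St n}

theorem dep_cancUb (v : Fin n) : Dep (fun ω => cancUb A B ω (A.N v)) (ball2 A v) := by
  classical
  intro ω ω' h
  have hu : ∀ u ∈ A.N v, u ∈ ball2 A v := by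
    intro u hu
    unfold ball2 ball1
    exact Finset.mem_union_left _ (Finset.mem_insert_of_mem hu)
  have hu' : ∀ u ∈ A.N v, ∀ u' ∈ A.N u, u' ∈ ball2 A v := by
    intro u hu u' hu'
    unfold ball2
    exact Finset.mem_union_right _ (Finset.mem_biUnion.2 ⟨u, hu, hu'⟩)
  have key : ∀ ω ω' : Fin n → Option (Fin n), (∀ i ∈ ball2 A v, ω i = ω' i) →
      ∀ u ∈ A.N v, cancb A B ω u → cancb A B ω' u := by
    intro ω ω' h u hu1 hc
    obtain ⟨z, h1, u', h2, z', h3, h4, h5⟩ := hc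
    refine ⟨z, ?_, u', h2, z', ?_, h4, h5⟩
    · rw [← h u (hu u hu1)]
      exact h1
    · rw [← h u' (hu' u hu1 u' h4)]
      exact h3
  show cancUb A B ω (A.N v) = cancUb A B ω' (A.N v)
  unfold cancUb
  congr 1
  apply Finset.filter_congr
  intro u hu1
  exact ⟨key ω ω' h u hu1, key ω' ω (fun i hi => (h i hi).symm) u hu1⟩

theorem cancU_le (ω : Fin n → Option (Fin n)) (X : Finset (Fin n)) :
    cancU A B ω X ≤ cancUa ω X + cancUb A B ω X := by
  classical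
  unfold cancU cancUa cancUb
  refine le_trans (Finset.card_le_card ?_) (Finset.card_union_le _ _)
  intro u hu
  obtain ⟨huX, z, h1, u', h2, z', h3, h4⟩ := Finset.mem_filter.1 hu
  rcases h4 with h4 | h4
  · subst h4
    exact Finset.mem_union_left _ (Finset.mem_filter.2 ⟨huX, z', h1, u', ne_of_lt h2, h3⟩)
  · exact Finset.mem_union_right _
      (Finset.mem_filter.2 ⟨huX, z, h1, u', h2, z', h3, h4.1, h4.2⟩)

/-- As `cancU_tail` of stage A (X1), with `Bad u ω a` := `u ∈ X`, `a = some z` and some `u' < u`,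
`u' ∈ N₁(u)`, picks in `N₂(z)`: compensator `≤ δ ∑_{u ∈ X} Y_u ≤ 4 δ² K0 d = L` unless `Y_u > 4 δ K0`
for some `u ∈ X` (`bad_le_Yu`, `Yu_tail`, union over `u ∈ X` only), `x = 10 K0 δ² d`,
`exp (2L - x) = exp (-2 K0 δ² d)`. -/
theorem cancUb_tail (hN : Num n ε D1 D2 δ K0 W γ a ρ) (hdg : Deg A B D1 D2)
    (hI : Inv A B D1 D2 W γ a l p q S) (X : Finset (Fin n)) (hd : 0 < d) (hX : (#X : ℝ) ≤ d)
    (hD0 : 0 ≤ D) (hD : D ≤ D1) (hDd : D ≤ d) :
    PP (mu δ S.w) (fun ω => ¬ (cancUb A B ω X : ℝ) ≤ 10 * K0 * δ ^ 2 * d) ≤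
      (2 * d + 1) * Real.exp (-(δ ^ 6 / (1000 * W ^ 2) * D)) := by
  classical
  have hδ := hN.δ0
  have hδ1 := hN.δ1
  have hW := hN.W1
  have hK := hN.K0'
  have hD1 := hN.hD1
  have hp := isProb_mu hN hI
  let R : Fin n → (Fin n → Option (Fin n)) → Fin n → Prop := fun u ω z =>
    ∃ u' < u, ∃ z', ω u' = some z' ∧ u' ∈ A.N u ∧ z' ∈ B.N z
  let Bad : Fin n → (Fin n → Option (Fin n)) → Option (Fin n) → Prop := fun u ω o =>
    u ∈ X ∧ ∃ z, o = some z ∧ R u ω z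
  have hBad : ∀ u ω ω', (∀ i < u, ω i = ω' i) → ∀ o, (Bad u ω o ↔ Bad u ω' o) := by
    intro u ω ω' h o
    simp only [Bad, R]
    constructor
    · rintro ⟨h1, z, h2, u', h3, z', h4, h5⟩
      exact ⟨h1, z, h2, u', h3, z', by rw [← h u' h3]; exact h4, h5⟩
    · rintro ⟨h1, z, h2, u', h3, z', h4, h5⟩
      exact ⟨h1, z, h2, u', h3, z', by rw [h u' h3]; exact h4, h5⟩
  have hcomp := comp_tail (μ := mu δ S.w) hp Bad hBad (10 * K0 * δ ^ 2 * d)
    (4 * K0 * δ ^ 2 * d)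
  have hcanc : ∀ ω, (∑ u, if Bad u ω (ω u) then (1 : ℝ) else 0) = cancUb A B ω X := by
    intro ω
    rw [Finset.sum_boole]
    unfold cancUb
    congr 2
    ext u
    rw [Finset.mem_filter, Finset.mem_filter]
    exact ⟨fun h => h.2, fun h => ⟨Finset.mem_univ _, h⟩⟩
  have hcmp : ∀ ω, (∀ u ∈ X, Yu A B S.w ω u ≤ 4 * δ * K0) →
      (∑ u, ∑ o, if Bad u ω o then mu δ S.w u o else 0) ≤ 4 * K0 * δ ^ 2 * d := by
    intro ω hY
    have h1 : ∀ u, (∑ o, if Bad u ω o then mu δ S.w u o else 0) ≤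
        if u ∈ X then 4 * K0 * δ ^ 2 else 0 := by
      intro u
      rw [Fintype.sum_option]
      have h2 : ¬ Bad u ω none := by simp [Bad]
      rw [if_neg h2, zero_add]
      by_cases hu : u ∈ X
      · rw [if_pos hu]
        have h3 : ∑ z, (if Bad u ω (some z) then mu δ S.w u (some z) else 0) =
            δ * ∑ z ∈ univ.filter (fun z => R u ω z), S.w u z := by
          rw [Finset.mul_sum, Finset.sum_filter]
          refine Finset.sum_congr rfl fun z _ => ?_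
          have h4 : Bad u ω (some z) ↔ R u ω z := by simp [Bad, hu]
          by_cases h5 : R u ω z
          · rw [if_pos h5, if_pos (h4.2 h5)]; rfl
          · rw [if_neg h5, if_neg (fun h => h5 (h4.1 h))]
        rw [h3]
        have h6 := bad_le_Yu hI ω u (univ.filter (fun z => R u ω z))
          (fun z hz => by
            obtain ⟨u', h1, z', h2, h3⟩ := (Finset.mem_filter.1 hz).2
            exact ⟨u', h1, z', h2, Or.inr h3⟩)
        have h7 := hY u hu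
        nlinarith
      · rw [if_neg hu]
        refine le_of_eq (Finset.sum_eq_zero fun z _ => ?_)
        rw [if_neg]
        simp [Bad, hu]
    calc (∑ u, ∑ o, if Bad u ω o then mu δ S.w u o else 0) ≤
        ∑ u, if u ∈ X then 4 * K0 * δ ^ 2 else 0 := Finset.sum_le_sum fun u _ => h1 u
      _ = #X * (4 * K0 * δ ^ 2) := by
          rw [← Finset.sum_filter, Finset.sum_const, nsmul_eq_mul]
          simp
      _ ≤ d * (4 * K0 * δ ^ 2) := mul_le_mul_of_nonneg_right hX (by positivity)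
      _ = 4 * K0 * δ ^ 2 * d := by ring
  have hsub : ∀ ω, ¬ (cancUb A B ω X : ℝ) ≤ 10 * K0 * δ ^ 2 * d →
      ((10 * K0 * δ ^ 2 * d ≤ (∑ u, if Bad u ω (ω u) then (1 : ℝ) else 0) ∧
        (∑ u, ∑ o, if Bad u ω o then mu δ S.w u o else 0) ≤ 4 * K0 * δ ^ 2 * d) ∨
        ∃ u ∈ X, ¬ Yu A B S.w ω u ≤ 4 * δ * K0) := by
    intro ω hω
    by_cases hY : ∀ u ∈ X, Yu A B S.w ω u ≤ 4 * δ * K0
    · left
      refine ⟨?_, hcmp ω hY⟩
      rw [hcanc]
      push Not at hω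
      exact hω.le
    · right
      push Not at hY ⊢
      obtain ⟨u, hu, hu'⟩ := hY
      exact ⟨u, hu, hu'⟩
  have hPor : ∀ (P Q : (Fin n → Option (Fin n)) → Prop),
      PP (mu δ S.w) (fun ω => P ω ∨ Q ω) ≤ PP (mu δ S.w) P + PP (mu δ S.w) Q := by
    intro P Q
    rw [PP_split (μ := mu δ S.w) (fun ω => P ω ∨ Q ω) P]
    exact add_le_add (PP_mono hp fun ω h => h.2) (PP_mono hp fun ω h => h.1.resolve_left h.2)
  have h1 := (PP_mono hp hsub).trans (hPor _ _)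
  have h2 := PP_exists_le hp X (fun u ω => ¬ Yu A B S.w ω u ≤ 4 * δ * K0)
  have h3 : ∑ u ∈ X, PP (mu δ S.w) (fun ω => ¬ Yu A B S.w ω u ≤ 4 * δ * K0) ≤
      d * (2 * Real.exp (-(δ ^ 6 / (1000 * W ^ 2) * D))) := by
    calc _ ≤ ∑ _u ∈ X, 2 * Real.exp (-(δ ^ 6 / (1000 * W ^ 2) * D)) :=
          Finset.sum_le_sum fun u _ => Yu_tail hN hdg hI hD0 hD u
      _ = #X * (2 * Real.exp (-(δ ^ 6 / (1000 * W ^ 2) * D))) := by
          rw [Finset.sum_const, nsmul_eq_mul]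
      _ ≤ _ := mul_le_mul_of_nonneg_right hX (by positivity)
  have h4 : Real.exp (2 * (4 * K0 * δ ^ 2 * d) - 10 * K0 * δ ^ 2 * d) ≤
      Real.exp (-(δ ^ 6 / (1000 * W ^ 2) * D)) := by
    apply Real.exp_le_exp.2
    have h5 : δ ^ 6 / (1000 * W ^ 2) ≤ δ ^ 2 := by
      rw [div_le_iff₀ (by positivity)]
      have h6 : δ ^ 4 ≤ 1 := pow_le_one₀ hδ.le (by linarith)
      have h7 : δ ^ 6 ≤ δ ^ 2 := by nlinarith [sq_nonneg δ]
      have h8 : (1 : ℝ) ≤ 1000 * W ^ 2 := by nlinarith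
      nlinarith [sq_nonneg δ]
    have h9 : δ ^ 6 / (1000 * W ^ 2) * D ≤ δ ^ 2 * d := mul_le_mul h5 hDd hD0 (sq_nonneg δ)
    have h10 : 0 < δ ^ 2 * d := by positivity
    nlinarith
  calc _ ≤ _ := h1
    _ ≤ Real.exp (2 * (4 * K0 * δ ^ 2 * d) - 10 * K0 * δ ^ 2 * d) +
        d * (2 * Real.exp (-(δ ^ 6 / (1000 * W ^ 2) * D))) := by
          refine add_le_add ((PP_mono hp ?_).trans hcomp) (h2.trans h3)
          intro ω h
          convert h
    _ ≤ _ := by nlinarith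

end Pool.Agent.Helper5.BEC.B
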