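import Pool.Agent.Helper5.BEC.St.X1
import Pool.Agent.Helper5.BEC.St.X2
import Pool.Agent.Helper5.BEC.B.Defs
/-! Stage B, piece Y: the number of all cancelled vertices. -/
set_option autoImplicit false
namespace Pool.Agent.Helper5.BEC.B
open Finset Pool.Agent.Helper61.LE Pool.Agent.Helper5.BEC

variable {n : ℕ} {A B : Nb n} {ε D1 D2 D δ K0 W γ a ρ l p q d : ℝ} {S : St n}

private theorem ysum_le (hN : Num n ε D1 D2 δ K0 W γ a ρ)
    (hI : Inv A B D1 D2 W γ a l p q S) (u' : Fin n) (o : Option (Fin n)) :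
    ∑ u, yc A B S.w u u' o ≤ 3 * W := by
  classical
  have hW := hN.W1
  cases o with
  | none =>
    have h0 : ∑ u, yc A B S.w u u' none = 0 := Finset.sum_eq_zero fun u _ => rfl
    rw [h0]
    linarith
  | some z =>
    have e : ∑ u, yc A B S.w u u' (some z) = (∑ u, S.w u z) + rho A B S.w u' z := by
      unfold yc rho
      simp only
      rw [Finset.sum_add_distrib]
      congr 1
      have a7 : A.N u' = univ.filter (fun u => u' ∈ A.N u) := by
        ext u
        simp only [mem_filter, mem_univ, true_and]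
        exact ⟨fun h => A.symm _ _ h, fun h => A.symm _ _ h⟩
      rw [a7, Finset.sum_filter]
    rw [e]
    have h1 := colsum_le hI hN.γ0 z
    have h2 := rho_le hN hI u' z
    have h3 : ρ ≤ 121 / 100 * W := by
      rw [hN.hρ]
      have ha : a ^ 2 ≤ 121 / 100 := by
        have h4 := hN.a0
        have h5 := hN.a1
        nlinarith
      have hε := hN.ε0
      have hε1 := hN.ε1
      have h6 : (1 - ε) * a ^ 2 ≤ 121 / 100 := by nlinarith [sq_nonneg a]
      exact mul_le_mul_of_nonneg_right h6 (by linarith)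
    linarith [hN.γ1]

private theorem ysum_mean (hN : Num n ε D1 D2 δ K0 W γ a ρ)
    (hI : Inv A B D1 D2 W γ a l p q S) :
    ∑ u', ∑ z, δ * S.w u' z * ∑ u, yc A B S.w u u' (some z) ≤ 2 * δ * K0 * n := by
  classical
  have e : ∑ u', ∑ z, δ * S.w u' z * ∑ u, yc A B S.w u u' (some z) =
      ∑ u, ∑ u', ∑ z, δ * S.w u' z * yc A B S.w u u' (some z) := by
    rw [Finset.sum_comm (s := (univ : Finset (Fin n))) (t := (univ : Finset (Fin n)))
      (f := fun u u' => ∑ z, δ * S.w u' z * yc A B S.w u u' (some z))]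
    refine Finset.sum_congr rfl fun u' _ => ?_
    rw [Finset.sum_comm]
    refine Finset.sum_congr rfl fun z _ => ?_
    rw [Finset.mul_sum]
  rw [e]
  calc ∑ u, ∑ u', ∑ z, δ * S.w u' z * yc A B S.w u u' (some z) ≤
      ∑ _u : Fin n, 2 * δ * K0 := Finset.sum_le_sum fun u _ => yc_mean hN hI u
    _ = 2 * δ * K0 * n := by
        rw [Finset.sum_const, nsmul_eq_mul, Finset.card_univ, Fintype.card_fin]
        ring

/-- `∑_u Y_u ≤ 4 δ K0 n` with high probability: apply `tail` to `(∑_u Y_u) / n`, a sum of functions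
of the single picks: the pick `(u',z)` contributes `C(z) + ∑_{u ∈ N₁(u')} w(u, N₂(z)) =
C(z) + rho u' z ≤ 1+γ + D1 D2 W/n ≤ 3W`, divided by `n` (`m = 3W/n`); mean
`δ ∑_{u',z} w(u',z) (C(z) + rho u' z) / n ≤ δ (1+γ)(1+γ+ρ) ≤ 2 δ K0`; `L = t = 2 δ K0`:
`t²/(16mL) = δ K0 n/(24 W)`. (See `Zy_tail` in X2.) -/
theorem Ytot_tail (hN : Num n ε D1 D2 δ K0 W γ a ρ) (hdg : Deg A B D1 D2)
    (hI : Inv A B D1 D2 W γ a l p q S) :
    PP (mu δ S.w) (fun ω => ¬ ∑ u, Yu A B S.w ω u ≤ 4 * δ * K0 * n) ≤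
      2 * Real.exp (-(δ ^ 6 / (1000 * W ^ 2) * n)) := by
  classical
  have hP := isProb_mu hN hI
  have hδ := hN.δ0
  have hδ1 := hN.δ1
  have hK := hN.K0'
  have hW := hN.W1
  have hn : (1 : ℝ) ≤ n := by exact_mod_cast hN.n1
  have hL0 : 0 < 2 * δ * K0 * n := by positivity
  have hfe : ∀ ω : Fin n → Option (Fin n), ∑ u, Yu A B S.w ω u =
      ∑ u', ∑ u, yc A B S.w u u' (ω u') := by
    intro ω
    simp only [Yu_eq_sum_yc]
    exact Finset.sum_comm
  have hnn : ∀ i o, 0 ≤ ∑ u, yc A B S.w u i o := fun i o =>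
    Finset.sum_nonneg fun u _ => yc_nonneg hI u i o
  have hE : EE (mu δ S.w) (fun ω => ∑ u, Yu A B S.w ω u) ≤ 2 * δ * K0 * n := by
    have h1 := EE_sum_pick hN hI (fun u' o => ∑ u, yc A B S.w u u' o)
      (fun u' => Finset.sum_eq_zero fun u _ => rfl)
    have h2 : EE (mu δ S.w) (fun ω => ∑ u, Yu A B S.w ω u) =
        EE (mu δ S.w) (fun ω => ∑ u', ∑ u, yc A B S.w u u' (ω u')) :=
      EE_congr fun ω => hfe ω
    rw [h2, h1]
    exact ysum_mean hN hI
  have hlip : ∀ i (ω : Fin n → Option (Fin n)) o o',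
      |(∑ u, Yu A B S.w (Function.update ω i o) u) -
        ∑ u, Yu A B S.w (Function.update ω i o') u| ≤
        (∑ u, yc A B S.w u i o) + ∑ u, yc A B S.w u i o' := by
    intro i ω o o'
    rw [hfe, hfe, ← Finset.sum_sub_distrib, Finset.sum_eq_single i]
    · rw [Function.update_self, Function.update_self]
      have h1 := hnn i o
      have h2 := hnn i o'
      rw [abs_le]
      constructor <;> linarith
    · intro j _ hj
      rw [Function.update_of_ne hj, Function.update_of_ne hj, sub_self]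
    · intro h
      exact absurd (mem_univ _) h
  have hcost : ∑ i, ∑ o, mu δ S.w i o * ∑ u, yc A B S.w u i o ≤ 2 * δ * K0 * n := by
    have h1 : ∑ i, ∑ o, mu δ S.w i o * ∑ u, yc A B S.w u i o =
        ∑ u', ∑ z, δ * S.w u' z * ∑ u, yc A B S.w u u' (some z) :=
      Finset.sum_congr rfl fun u' _ => sum_mu (fun o => ∑ u, yc A B S.w u u' o)
        (Finset.sum_eq_zero fun u _ => rfl) u'
    rw [h1]
    exact ysum_mean hN hI
  have hT := tail hP (fun i o => ∑ u, yc A B S.w u i o) (fun ω => ∑ u, Yu A B S.w ω u)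
    (m := 3 * W) (L := 2 * δ * K0 * n) (t := 2 * δ * K0 * n)
    hnn (fun i o => ysum_le hN hI i o) (by linarith)
    hcost hL0 hL0.le (by linarith) hlip
  refine le_trans (PP_mono hP fun ω hω => ?_) (le_trans hT ?_)
  · have h1 : 4 * δ * K0 * n < ∑ u, Yu A B S.w ω u := lt_of_not_ge hω
    refine le_trans ?_ (le_abs_self _)
    linarith
  · refine mul_le_mul_of_nonneg_left (Real.exp_le_exp.2 ?_) (by norm_num)
    rw [neg_le_neg_iff]
    have h1 : (2 * δ * K0 * n) ^ 2 / (16 * (3 * W) * (2 * δ * K0 * n)) =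
        δ * K0 * n / (24 * W) := by
      field_simp
      ring
    rw [h1]
    have hd6 : δ ^ 6 ≤ δ := by
      calc δ ^ 6 ≤ δ ^ 1 := pow_le_pow_of_le_one hδ.le (by linarith) (by norm_num)
        _ = δ := pow_one δ
    calc δ ^ 6 / (1000 * W ^ 2) * n ≤ δ / (1000 * W ^ 2) * n := by
          refine mul_le_mul_of_nonneg_right (div_le_div_of_nonneg_right hd6 (by positivity))
            (by linarith)
      _ ≤ δ / (24 * W) * n := by
          refine mul_le_mul_of_nonneg_right ?_ (by linarith)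
          refine div_le_div_of_nonneg_left hδ.le (by positivity) ?_
          nlinarith
      _ ≤ δ * K0 * n / (24 * W) := by
          rw [div_mul_eq_mul_div]
          refine div_le_div_of_nonneg_right ?_ (by positivity)
          have : 0 ≤ δ * n := by positivity
          nlinarith

/-- `comp_tail` as in `cancU_tail` (X1) with `X = univ`: compensator `≤ δ ∑_u Y_u ≤ 4 δ² K0 n = L`
unless `Ytot` is large, `x = 20 K0 δ² n = 5 L`. -/
theorem cancUn_tail (hN : Num n ε D1 D2 δ K0 W γ a ρ) (hdg : Deg A B D1 D2)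
    (hI : Inv A B D1 D2 W γ a l p q S) :
    PP (mu δ S.w) (fun ω => ¬ (cancU A B ω univ : ℝ) ≤ 20 * K0 * δ ^ 2 * n) ≤
      3 * Real.exp (-(δ ^ 6 / (1000 * W ^ 2) * n)) := by
  classical
  have hP := isProb_mu hN hI
  have hδ := hN.δ0
  have hδ1 := hN.δ1
  have hK := hN.K0'
  have hW := hN.W1
  have hn : (1 : ℝ) ≤ n := by exact_mod_cast hN.n1
  let C : Fin n → (Fin n → Option (Fin n)) → Fin n → Prop := fun u ω z =>
    ∃ u' < u, ∃ z', ω u' = some z' ∧ (z' = z ∨ (u' ∈ A.N u ∧ z' ∈ B.N z))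
  let Bad : Fin n → (Fin n → Option (Fin n)) → Option (Fin n) → Prop := fun u ω o =>
    ∃ z, o = some z ∧ C u ω z
  have hBad : ∀ u ω ω', (∀ i < u, ω i = ω' i) → ∀ o, (Bad u ω o ↔ Bad u ω' o) := by
    intro u ω ω' hω o
    refine exists_congr fun z => and_congr_right fun _ => ?_
    constructor
    · rintro ⟨u', hu', z', hz', hor⟩
      exact ⟨u', hu', z', (hω u' hu') ▸ hz', hor⟩
    · rintro ⟨u', hu', z', hz', hor⟩
      exact ⟨u', hu', z', (hω u' hu').symm ▸ hz', hor⟩
  have hX : ∀ ω : Fin n → Option (Fin n), (cancU A B ω univ : ℝ) =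
      ∑ u, @ite ℝ (Bad u ω (ω u)) (Classical.propDecidable _) 1 0 := by
    intro ω
    unfold cancU
    rw [card_eq_sum_ones, Nat.cast_sum, sum_filter]
    refine sum_congr rfl fun u _ => ?_
    have hiff : canc A B ω u ↔ Bad u ω (ω u) := by
      constructor
      · rintro ⟨z, hz, hC⟩
        exact ⟨z, hz, hC⟩
      · rintro ⟨z, hz, hC⟩
        exact ⟨z, hz, hC⟩
    by_cases hb : Bad u ω (ω u)
    · rw [if_pos hb, if_pos (hiff.2 hb)]
      simp
    · rw [if_neg hb, if_neg (fun h => hb (hiff.1 h))]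
  have hcomp : ∀ ω : Fin n → Option (Fin n),
      (∑ u, ∑ o, @ite ℝ (Bad u ω o) (Classical.propDecidable _) (mu δ S.w u o) 0) ≤
        δ * ∑ u, Yu A B S.w ω u := by
    intro ω
    rw [mul_sum]
    refine sum_le_sum fun u _ => ?_
    have h1 : (∑ o, @ite ℝ (Bad u ω o) (Classical.propDecidable _) (mu δ S.w u o) 0) =
        δ * ∑ z ∈ univ.filter (fun z => C u ω z), S.w u z := by
      rw [Fintype.sum_option, if_neg (fun h => by obtain ⟨z, hz, -⟩ := h; simp at hz), zero_add,
        sum_filter, mul_sum]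
      refine sum_congr rfl fun z _ => ?_
      have hiff : Bad u ω (some z) ↔ C u ω z := by
        constructor
        · rintro ⟨z1, hz1, h2⟩
          have : z = z1 := Option.some.inj hz1
          rw [this]
          exact h2
        · rintro h2
          exact ⟨z, rfl, h2⟩
      by_cases hc : C u ω z
      · rw [if_pos (hiff.2 hc), if_pos hc]
        rfl
      · rw [if_neg (fun h => hc (hiff.1 h)), if_neg hc, mul_zero]
    rw [h1]
    refine mul_le_mul_of_nonneg_left ?_ hδ.le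
    exact bad_le_Yu hI ω u (univ.filter (fun z => C u ω z)) (fun z hz => (mem_filter.1 hz).2)
  have hT := comp_tail hP Bad hBad (20 * K0 * δ ^ 2 * n) (4 * δ ^ 2 * K0 * n)
  have hZ := Ytot_tail hN hdg hI
  rw [PP_split _ (fun ω => ¬ ∑ u, Yu A B S.w ω u ≤ 4 * δ * K0 * n)]
  have h1 : PP (mu δ S.w) (fun ω => ¬ (cancU A B ω univ : ℝ) ≤ 20 * K0 * δ ^ 2 * n ∧
      ¬ ∑ u, Yu A B S.w ω u ≤ 4 * δ * K0 * n) ≤
      2 * Real.exp (-(δ ^ 6 / (1000 * W ^ 2) * n)) :=
    le_trans (PP_mono hP fun ω hω => hω.2) hZ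
  have h2 : PP (mu δ S.w) (fun ω => ¬ (cancU A B ω univ : ℝ) ≤ 20 * K0 * δ ^ 2 * n ∧
      ¬ ¬ ∑ u, Yu A B S.w ω u ≤ 4 * δ * K0 * n) ≤
      Real.exp (-(δ ^ 6 / (1000 * W ^ 2) * n)) := by
    refine le_trans (PP_mono hP fun ω hω => ?_) (le_trans hT ?_)
    · obtain ⟨ha, hb⟩ := hω
      rw [not_not] at hb
      constructor
      · rw [← hX]
        exact (lt_of_not_ge ha).le
      · refine le_trans (hcomp ω) ?_
        calc δ * ∑ u, Yu A B S.w ω u ≤ δ * (4 * δ * K0 * n) :=
              mul_le_mul_of_nonneg_left hb hδ.le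
          _ = 4 * δ ^ 2 * K0 * n := by ring
    · refine Real.exp_le_exp.2 ?_
      have hd6 : δ ^ 6 ≤ δ ^ 2 := pow_le_pow_of_le_one hδ.le (by linarith) (by norm_num)
      have h3 : δ ^ 6 / (1000 * W ^ 2) * n ≤ δ ^ 2 * n := by
        refine mul_le_mul_of_nonneg_right ?_ (by linarith)
        calc δ ^ 6 / (1000 * W ^ 2) ≤ δ ^ 6 / 1 := by
              refine div_le_div_of_nonneg_left (by positivity) (by norm_num) ?_
              nlinarith
          _ = δ ^ 6 := div_one _
          _ ≤ δ ^ 2 := hd6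
      have h4 : 0 ≤ δ ^ 2 * (n : ℝ) := by positivity
      nlinarith
  linarith

end Pool.Agent.Helper5.BEC.B
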