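import Pool.Agent.Helper5.BEC.St.C1
import Pool.Agent.Helper5.BEC.St.N1
import Pool.Agent.Helper5.BEC.St.N2
import Pool.Agent.Helper5.BEC.St.X2
import Pool.Agent.Helper5.BEC.St.Q2
import Pool.Agent.Helper5.BEC.B.R
import Pool.Agent.Helper5.BEC.B.X
import Pool.Agent.Helper5.BEC.B.Y
import Pool.Agent.Helper5.BEC.B.L
import Pool.Agent.Helper5.BEC.B.Q
import Pool.Agent.Helper5.BEC.B.A
import Pool.Agent.Helper5.BEC.B.M
/-! Stage B, piece U: a good outcome exists. -/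
set_option autoImplicit false
namespace Pool.Agent.Helper5.BEC.B
open Finset Pool.Agent.Helper61.LE Pool.Agent.Helper5.BEC

variable {n : ℕ} {A B : Nb n} {ε D1 D2 D δ K0 W γ a ρ l p q β ζ : ℝ} {S : St n}

/-- the local event of `v` -/
noncomputable def Loc (A B : Nb n) (D1 δ K0 γ ρ ζ : ℝ) (S : St n) (v : Fin n)
    (ω : Fin n → Option (Fin n)) : Prop := by
  classical
  exact (¬ |rowloc A B δ S v ω - ∑ z, S.w v z| ≤ 2 * δ ^ 2 * K0 ^ 2 + δ ^ 3 / 2) ∨
    (¬ δ * (1 - γ) * #(A.N v ∩ S.U) - δ ^ 3 * D1 ≤ pickers ω (A.N v ∩ S.U)) ∨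
    (¬ (pickers ω (A.N v) : ℝ) ≤ 2 * δ * D1) ∨
    (¬ (cancUb A B ω (A.N v) : ℝ) ≤ 10 * K0 * δ ^ 2 * D1) ∨
    (¬ (#(univ.filter fun y => badp A B δ ρ S ω v y) : ℝ) ≤ ζ * n)

/-- coordinates in `ball2 v`; probability `≤ (2 + 2 + 2 + (2 D1 + 1) + 2/ζ) exp (-β D1)` -/
theorem Loc_dep (v : Fin n) : Dep (Loc A B D1 δ K0 γ ρ ζ S v) (ball2 A v) := by
  classical
  intro ω ω' h
  have hN : A.N v ⊆ ball2 A v := by
    intro u hu
    unfold ball2 ball1
    exact Finset.mem_union_left _ (Finset.mem_insert_of_mem hu)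
  have h1 : rowloc A B δ S v ω = rowloc A B δ S v ω' :=
    dep_cond (A.N v) _ ω ω' fun i hi => h i (hN hi)
  have hp : ∀ X : Finset (Fin n), X ⊆ A.N v → pickers ω X = pickers ω' X := by
    intro X hX
    unfold pickers
    congr 1
    apply Finset.filter_congr
    intro u hu
    rw [h u (hN (hX hu))]
  have h2 := hp (A.N v ∩ S.U) Finset.inter_subset_left
  have h3 := hp (A.N v) (Finset.Subset.refl _)
  have h4 : cancUb A B ω (A.N v) = cancUb A B ω' (A.N v) := dep_cancUb v ω ω' h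
  have h5 := dep_badrow (A := A) (B := B) (δ := δ) (ρ := ρ) (S := S) (ζ := ζ) v ω ω'
    fun i hi => h i (hN hi)
  unfold Loc
  rw [h1, h2, h3, h4]
  congr 4

theorem Loc_prob (hN : Num n ε D1 D2 δ K0 W γ a ρ) (hdg : Deg A B D1 D2)
    (hI : Inv A B D1 D2 W γ a l p q S) (hβ : 0 < β) (hβ1 : β ≤ δ ^ 6 / (4000 * W ^ 2))
    (hζ : 0 < ζ) (v : Fin n) :
    PP (mu δ S.w) (Loc A B D1 δ K0 γ ρ ζ S v) ≤ (9 + 2 / ζ) * D1 * Real.exp (-(β * D1)) := by
  classical
  have hp := isProb_mu hN hI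
  have hD1 := hN.hD1
  have hδ := hN.δ0
  have hW := hN.W1
  have hD0 : (0 : ℝ) < D1 := by linarith
  have hPor : ∀ (P Q : (Fin n → Option (Fin n)) → Prop),
      PP (mu δ S.w) (fun ω => P ω ∨ Q ω) ≤ PP (mu δ S.w) P + PP (mu δ S.w) Q := by
    intro P Q
    rw [PP_split (μ := mu δ S.w) (fun ω => P ω ∨ Q ω) P]
    exact add_le_add (PP_mono hp fun ω h => h.2) (PP_mono hp fun ω h => h.1.resolve_left h.2)
  have hXU : (#(A.N v ∩ S.U) : ℝ) ≤ D1 := by
    refine le_trans ?_ (hdg.dA v)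
    exact_mod_cast Finset.card_le_card Finset.inter_subset_left
  have e1 : Real.exp (-(δ ^ 6 / (4000 * W ^ 2) * D1)) ≤ Real.exp (-(β * D1)) := by
    apply Real.exp_le_exp.2
    have := mul_le_mul_of_nonneg_right hβ1 hD0.le
    linarith
  have e2 : Real.exp (-(δ ^ 6 / (1000 * W ^ 2) * D1)) ≤ Real.exp (-(β * D1)) := by
    apply Real.exp_le_exp.2
    have h1 : δ ^ 6 / (4000 * W ^ 2) ≤ δ ^ 6 / (1000 * W ^ 2) := by
      apply div_le_div_of_nonneg_left (by positivity) (by positivity)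
      nlinarith [sq_nonneg W]
    have := mul_le_mul_of_nonneg_right (hβ1.trans h1) hD0.le
    linarith
  have t1 := rowloc_tail hN hdg hI hD0.le le_rfl v
  have t2 := pickers_lower hN hI (A.N v ∩ S.U) hD0 hXU Finset.inter_subset_right hD0.le le_rfl
  have t3 := pickers_upper hN hI (A.N v) hD0 (hdg.dA v) (hI.aU v) hD0.le le_rfl
  have t4 := cancUb_tail hN hdg hI (A.N v) hD0 (hdg.dA v) hD0.le le_rfl le_rfl
  have t5 := badrow_tail (ζ := ζ) hN hdg hI hD0.le le_rfl hζ v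
  have hsum : PP (mu δ S.w) (Loc A B D1 δ K0 γ ρ ζ S v) ≤
      PP (mu δ S.w) (fun ω => ¬ |rowloc A B δ S v ω - ∑ z, S.w v z| ≤
        2 * δ ^ 2 * K0 ^ 2 + δ ^ 3 / 2) +
      (PP (mu δ S.w) (fun ω => ¬ δ * (1 - γ) * #(A.N v ∩ S.U) - δ ^ 3 * D1 ≤
        pickers ω (A.N v ∩ S.U)) +
      (PP (mu δ S.w) (fun ω => ¬ (pickers ω (A.N v) : ℝ) ≤ 2 * δ * D1) +
      (PP (mu δ S.w) (fun ω => ¬ (cancUb A B ω (A.N v) : ℝ) ≤ 10 * K0 * δ ^ 2 * D1) +
      PP (mu δ S.w) (fun ω => ¬ (#(univ.filter fun y => badp A B δ ρ S ω v y) : ℝ) ≤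
        ζ * n)))) := by
    have hL : ∀ ω, Loc A B D1 δ K0 γ ρ ζ S v ω ↔ _ := fun ω => by
      unfold Loc
      exact Iff.rfl
    rw [PP_congr hL]
    refine (hPor _ _).trans (add_le_add le_rfl ?_)
    refine (hPor _ _).trans (add_le_add le_rfl ?_)
    refine (hPor _ _).trans (add_le_add le_rfl ?_)
    refine (hPor _ _).trans (add_le_add le_rfl ?_)
    refine le_of_eq (PP_congr fun ω => ?_)
    rw [not_iff_not]
  have hζ' : 0 < 2 / ζ := by positivity
  have hE : 0 < Real.exp (-(β * D1)) := Real.exp_pos _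
  have b4 : (2 * D1 + 1) * Real.exp (-(δ ^ 6 / (1000 * W ^ 2) * D1)) ≤
      (2 * D1 + 1) * Real.exp (-(β * D1)) := mul_le_mul_of_nonneg_left e2 (by linarith)
  have b5 : 2 / ζ * Real.exp (-(δ ^ 6 / (4000 * W ^ 2) * D1)) ≤
      2 / ζ * Real.exp (-(β * D1)) := mul_le_mul_of_nonneg_left e1 hζ'.le
  have hfin : (2 + (2 + (2 + ((2 * D1 + 1) + 2 / ζ)))) * Real.exp (-(β * D1)) ≤
      (9 + 2 / ζ) * D1 * Real.exp (-(β * D1)) := by
    refine mul_le_mul_of_nonneg_right ?_ hE.le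
    nlinarith
  refine (hsum.trans ?_).trans hfin
  have t5' : PP (mu δ S.w) (fun ω => ¬ (#(univ.filter fun y => badp A B δ ρ S ω v y) : ℝ) ≤
      ζ * n) ≤ 2 / ζ * Real.exp (-(δ ^ 6 / (4000 * W ^ 2) * D1)) := by
    convert t5
  linarith

theorem ball2_card (hdg : Deg A B D1 D2) (hD1 : 1 ≤ D1) (v : Fin n) :
    (#(ball2 A v) : ℝ) ≤ 3 * D1 ^ 2 := by
  classical
  have h1 : #(ball2 A v) ≤ (#(A.N v) + 1) + ∑ u ∈ A.N v, #(A.N u) := by
    unfold ball2 ball1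
    exact (Finset.card_union_le _ _).trans (add_le_add (Finset.card_insert_le _ _)
      Finset.card_biUnion_le)
  have h2 : (#(ball2 A v) : ℝ) ≤ (#(A.N v) + 1) + ∑ u ∈ A.N v, (#(A.N u) : ℝ) := by
    exact_mod_cast h1
  have h3 : ∑ u ∈ A.N v, (#(A.N u) : ℝ) ≤ #(A.N v) * D1 := by
    rw [← nsmul_eq_mul, ← Finset.sum_const]
    exact Finset.sum_le_sum fun u _ => hdg.dA u
  have h4 := hdg.dA v
  have h5 : (0 : ℝ) ≤ #(A.N v) := Nat.cast_nonneg _
  nlinarith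

theorem ball2_symm {u v : Fin n} (h : u ∈ ball2 A v) : v ∈ ball2 A u := by
  classical
  unfold ball2 ball1 at *
  rw [Finset.mem_union, Finset.mem_insert, Finset.mem_biUnion] at *
  rcases h with (h | h) | ⟨w, hw, hw'⟩
  · exact Or.inl (Or.inl h.symm)
  · exact Or.inl (Or.inr (A.symm _ _ h))
  · exact Or.inr ⟨w, A.symm _ _ hw', A.symm _ _ hw⟩

/-- Local lemma for the events `Loc v` (coordinates `ball2 v`) and `At M`, `M ∈ Fam v m`,
`m = ⌈6 δ² D1⌉` (coordinates `M.biUnion tc`, at most `2m ≤ 3 D1²` of them; weight per coordinate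
`≤ 3 δ² D1 exp (1 - 3 δ² D1) ≤ 9 D1³ exp (-β D1)` by `mass`). Then `cancUa ≤ 3 (m-1) ≤ 18 δ² D1 ≤
10 K0 δ² D1` by `extract`. Index type: `Fin n ⊕ (Fin n × Finset (Fin n × Fin n × Fin n))`. -/
theorem local_avoid (hN : Num n ε D1 D2 δ K0 W γ a ρ) (hdg : Deg A B D1 D2)
    (hI : Inv A B D1 D2 W γ a l p q S) (hβ : 0 < β) (hβ1 : β ≤ δ ^ 6 / (4000 * W ^ 2))
    (hζ : 0 < ζ) (H1 : 3 * D1 ^ 2 * ((36 + 6 / ζ) * D1 ^ 3 * Real.exp (-(β * D1))) ≤ 1 / 4) :
    Real.exp (-(4 * n * ((36 + 6 / ζ) * D1 ^ 3 * Real.exp (-(β * D1))))) ≤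
      PP (mu δ S.w) (fun ω => (∀ v, ¬ Loc A B D1 δ K0 γ ρ ζ S v ω) ∧
        ∀ v, (cancUa ω (A.N v) : ℝ) ≤ 10 * K0 * δ ^ 2 * D1) := by
  classical
  have hp := isProb_mu hN hI
  have hD1 := hN.hD1
  have hδ := hN.δ0
  have hδ1 := hN.δ1
  have hW := hN.W1
  have hK := hN.K0'
  have hD0 : (0 : ℝ) < D1 := by linarith
  set m : ℕ := ⌈6 * δ ^ 2 * D1⌉₊ with hm
  have hm0 : 0 < 6 * δ ^ 2 * D1 := by positivity
  have hm1 : 1 ≤ m := Nat.one_le_iff_ne_zero.2 (Nat.ceil_pos.2 hm0).ne'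
  have hm2 : 6 * δ ^ 2 * D1 ≤ m := Nat.le_ceil _
  have hm3 : (m : ℝ) < 6 * δ ^ 2 * D1 + 1 := Nat.ceil_lt_add_one hm0.le
  set M0 : ℝ := (36 + 6 / ζ) * D1 ^ 3 * Real.exp (-(β * D1)) with hM0
  let J : Finset (Fin n ⊕ (Fin n × Finset (Fin n × Fin n × Fin n))) :=
    Finset.disjSum univ (univ.filter fun p => p.2 ∈ Fam A p.1 m)
  let E : Fin n ⊕ (Fin n × Finset (Fin n × Fin n × Fin n)) →
      (Fin n → Option (Fin n)) → Prop :=
    Sum.elim (fun v => Loc A B D1 δ K0 γ ρ ζ S v) (fun p => At p.2)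
  let T : Fin n ⊕ (Fin n × Finset (Fin n × Fin n × Fin n)) → Finset (Fin n) :=
    Sum.elim (fun v => ball2 A v) (fun p => p.2.biUnion tc)
  have hdep : ∀ j ∈ J, Dep (E j) (T j) := by
    rintro (v | p) _
    · exact Loc_dep v
    · exact dep_At p.2
  have hne : ∀ j ∈ J, (T j).Nonempty := by
    rintro (v | p) hj
    · refine ⟨v, ?_⟩
      show v ∈ ball2 A v
      unfold ball2 ball1
      exact Finset.mem_union_left _ (Finset.mem_insert_self _ _)
    · have h1 := (Finset.mem_filter.1 (Finset.inr_mem_disjSum.1 hj)).2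
      unfold Fam at h1
      have h2 := (Finset.mem_powersetCard.1 (Finset.mem_filter.1 h1).1).2
      have h3 : p.2.Nonempty := Finset.card_pos.1 (by omega)
      obtain ⟨t, ht⟩ := h3
      refine ⟨t.1, ?_⟩
      show t.1 ∈ p.2.biUnion tc
      exact Finset.mem_biUnion.2 ⟨t, ht, by unfold tc; exact Finset.mem_insert_self _ _⟩
  have hs : ∀ j ∈ J, (#(T j) : ℝ) ≤ 3 * D1 ^ 2 := by
    rintro (v | p) hj
    · exact ball2_card hdg hD1 v
    · have h1 := (Finset.mem_filter.1 (Finset.inr_mem_disjSum.1 hj)).2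
      unfold Fam at h1
      have h2 := (Finset.mem_powersetCard.1 (Finset.mem_filter.1 h1).1).2
      have h3 : #(p.2.biUnion tc) ≤ #p.2 * 2 := by
        refine Finset.card_biUnion_le_card_mul _ _ _ fun t _ => ?_
        unfold tc
        exact Finset.card_le_two
      rw [h2] at h3
      have h4 : (#(p.2.biUnion tc) : ℝ) ≤ m * 2 := by exact_mod_cast h3
      show (#(p.2.biUnion tc) : ℝ) ≤ _
      have h5 : δ ^ 2 ≤ 1 / 12 := by nlinarith
      have h6 : 6 * δ ^ 2 * D1 ≤ 1 / 2 * D1 := by nlinarith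
      nlinarith
  have hE0 : 0 < Real.exp (-(β * D1)) := Real.exp_pos _
  have hmass : ∀ x, ∑ j ∈ J.filter (fun j => x ∈ T j), PP (mu δ S.w) (E j) ≤ M0 := by
    intro x
    rw [Finset.sum_filter, Finset.sum_disjSum]
    have h1 : ∑ v : Fin n, (if x ∈ T (Sum.inl v) then PP (mu δ S.w) (E (Sum.inl v)) else 0) ≤
        3 * D1 ^ 2 * ((9 + 2 / ζ) * D1 * Real.exp (-(β * D1))) := by
      rw [← Finset.sum_filter]
      refine (Finset.sum_le_card_nsmul _ _ _ fun v _ =>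
        Loc_prob hN hdg hI hβ hβ1 hζ v).trans ?_
      rw [nsmul_eq_mul]
      refine mul_le_mul_of_nonneg_right ?_ (by positivity)
      refine le_trans ?_ (ball2_card hdg hD1 x)
      have h2 : (univ.filter fun v => x ∈ T (Sum.inl v)) ⊆ ball2 A x := by
        intro v hv
        exact ball2_symm (Finset.mem_filter.1 hv).2
      exact_mod_cast Finset.card_le_card h2
    have h2 : ∑ p ∈ univ.filter (fun p : Fin n × Finset (Fin n × Fin n × Fin n) =>
        p.2 ∈ Fam A p.1 m), (if x ∈ T (Sum.inr p) then PP (mu δ S.w) (E (Sum.inr p)) else 0) =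
        ∑ v, ∑ M ∈ (Fam A v m).filter (fun M => x ∈ M.biUnion tc), ∏ t ∈ M, ft δ S.w t := by
      rw [Finset.sum_filter, Fintype.sum_prod_type]
      refine Finset.sum_congr rfl fun v _ => ?_
      rw [Finset.sum_filter, ← Finset.sum_filter_add_sum_filter_not univ (fun M => M ∈ Fam A v m)]
      have h3 : ∑ M ∈ univ.filter (fun M => ¬ M ∈ Fam A v m), (if (v, M).2 ∈ Fam A (v, M).1 m then
          (if x ∈ T (Sum.inr (v, M)) then PP (mu δ S.w) (E (Sum.inr (v, M))) else 0) else 0) = 0 := by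
        refine Finset.sum_eq_zero fun M hM => ?_
        exact if_neg (Finset.mem_filter.1 hM).2
      rw [h3, add_zero, Finset.filter_mem_eq_inter, Finset.univ_inter]
      refine Finset.sum_congr rfl fun M hM => ?_
      rw [if_pos hM]
      show (if x ∈ M.biUnion tc then PP (mu δ S.w) (At M) else 0) = _
      rw [At_prob hN hI v m M hM]
    have h3 := mass hN hdg hI m hm1 x
    have h4 : 3 * δ ^ 2 * D1 * Real.exp (1 - (m : ℝ) + 3 * δ ^ 2 * D1) ≤
        9 * D1 ^ 3 * Real.exp (-(β * D1)) := by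
      have h5 : β ≤ 3 * δ ^ 2 := by
        refine hβ1.trans ?_
        rw [div_le_iff₀ (by positivity)]
        have h6 : δ ^ 4 ≤ 1 := pow_le_one₀ hδ.le (by linarith)
        have h7 : δ ^ 6 ≤ δ ^ 2 := by nlinarith [sq_nonneg δ]
        have h8 : (1 : ℝ) ≤ 4000 * W ^ 2 := by nlinarith
        nlinarith [sq_nonneg δ]
      have h6 : Real.exp (1 - (m : ℝ) + 3 * δ ^ 2 * D1) ≤
          Real.exp 1 * Real.exp (-(β * D1)) := by
        rw [← Real.exp_add]
        apply Real.exp_le_exp.2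
        have h7 := mul_le_mul_of_nonneg_right h5 hD0.le
        linarith
      have h7 : Real.exp 1 ≤ 3 := by
        have := Real.exp_one_lt_d9
        linarith
      have h8 : δ ^ 2 ≤ 1 := by nlinarith
      have h9 : D1 ≤ D1 ^ 3 := by nlinarith [sq_nonneg D1, sq_nonneg (D1 - 1)]
      calc 3 * δ ^ 2 * D1 * Real.exp (1 - (m : ℝ) + 3 * δ ^ 2 * D1)
          ≤ 3 * δ ^ 2 * D1 * (Real.exp 1 * Real.exp (-(β * D1))) :=
            mul_le_mul_of_nonneg_left h6 (by positivity)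
        _ ≤ 3 * δ ^ 2 * D1 * (3 * Real.exp (-(β * D1))) :=
            mul_le_mul_of_nonneg_left (mul_le_mul_of_nonneg_right h7 hE0.le) (by positivity)
        _ = 9 * (δ ^ 2 * D1) * Real.exp (-(β * D1)) := by ring
        _ ≤ 9 * D1 ^ 3 * Real.exp (-(β * D1)) := by
            refine mul_le_mul_of_nonneg_right ?_ hE0.le
            nlinarith
    calc _ ≤ 3 * D1 ^ 2 * ((9 + 2 / ζ) * D1 * Real.exp (-(β * D1))) +
          9 * D1 ^ 3 * Real.exp (-(β * D1)) := add_le_add h1 ((le_of_eq h2).trans (h3.trans h4))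
      _ = M0 := by
          rw [hM0]
          ring
  have hq := lllq_mass hp J E T hdep hne hmass hs (by nlinarith) H1
  rw [Fintype.card_fin] at hq
  refine hq.trans (PP_mono hp fun ω hω => ?_)
  refine ⟨fun v => hω (Sum.inl v) (Finset.inl_mem_disjSum.2 (Finset.mem_univ v)), fun v => ?_⟩
  have h1 := extract ω v m hm1 fun M hM =>
    hω (Sum.inr (v, M)) (Finset.inr_mem_disjSum.2 (Finset.mem_filter.2 ⟨Finset.mem_univ _, hM⟩))
  have h2 : (cancUa ω (A.N v) : ℝ) ≤ 3 * ((m : ℝ) - 1) := by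
    have h3 : ((3 * (m - 1) : ℕ) : ℝ) = 3 * ((m : ℝ) - 1) := by
      rw [Nat.cast_mul, Nat.cast_sub hm1]
      norm_num
    rw [← h3]
    exact_mod_cast h1
  refine h2.trans ?_
  have h3 : 0 < δ ^ 2 * D1 := by positivity
  nlinarith

end Pool.Agent.Helper5.BEC.B
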